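import Pool.Agent.NPC.Fo

/-!
# Definability by first-order conditions: a semantic interface to `NPC.Fm`

A context `w : Fin k → ℕ` gives the values of the variables `2, …, k + 1`; the number `n0` is the
value of the variable `0` (in applications: the length of the input plus one) and the variable `1`
(the row length of the bit table `y`) has the value `1`.
`DefT k F` says that the number `F y n0 w` is the value of a term, and `DefF k P` that the condition
`P y n0 w` is given by a formula.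
-/

namespace Pool.Agent.LIH

open NPC Function

/-- functions of the table, the length and the context -/
abbrev CT (k : ℕ) := List Bool → ℕ → (Fin k → ℕ) → ℕ

/-- conditions on the table, the length and the context -/
abbrev CP (k : ℕ) := List Bool → ℕ → (Fin k → ℕ) → Prop

/-- `F` is given by a term. -/
def DefT (k : ℕ) (F : CT k) : Prop :=
  ∃ t : Tm, t.bd (k + 2) ∧ ∀ y v, v 1 = 1 → t.val y v = F y (v 0) (fun i => v (i.1 + 2))

/-- `P` is given by a formula. -/
def DefF (k : ℕ) (P : CP k) : Prop :=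
  ∃ f : Fm, f.bd (k + 2) ∧ ∀ y v, v 1 = 1 →
    (f.sat y (k + 2) v ↔ P y (v 0) (fun i => v (i.1 + 2)))

theorem bd_mono_T {t : Tm} {n m : ℕ} (h : t.bd n) (hm : n ≤ m) : t.bd m := by
  induction t with
  | var i => exact lt_of_lt_of_le h hm
  | const c => trivial
  | add a b iha ihb => exact ⟨iha h.1, ihb h.2⟩
  | mul a b iha ihb => exact ⟨iha h.1, ihb h.2⟩
  | look t ih => exact ih h

/-! ## terms -/

theorem DefT.var {k : ℕ} (i : Fin k) : DefT k (fun _ _ w => w i) :=
  ⟨.var (i.1 + 2), by have := i.2; simp only [Tm.bd]; omega, fun _ _ _ => rfl⟩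

/-- the length -/
theorem DefT.len {k : ℕ} : DefT k (fun _ n0 _ => n0) :=
  ⟨.var 0, by simp only [Tm.bd]; omega, fun _ _ _ => rfl⟩

theorem DefT.const {k : ℕ} (c : ℕ) : DefT k (fun _ _ _ => c) :=
  ⟨.const c, trivial, fun _ _ _ => rfl⟩

theorem DefT.add {k : ℕ} {F G : CT k} (hF : DefT k F) (hG : DefT k G) :
    DefT k (fun y n0 w => F y n0 w + G y n0 w) := by
  obtain ⟨s, hs, hs2⟩ := hF
  obtain ⟨t, ht, ht2⟩ := hG
  exact ⟨.add s t, ⟨hs, ht⟩, fun y v h => by simp only [Tm.val, hs2 y v h, ht2 y v h]⟩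

theorem DefT.mul {k : ℕ} {F G : CT k} (hF : DefT k F) (hG : DefT k G) :
    DefT k (fun y n0 w => F y n0 w * G y n0 w) := by
  obtain ⟨s, hs, hs2⟩ := hF
  obtain ⟨t, ht, ht2⟩ := hG
  exact ⟨.mul s t, ⟨hs, ht⟩, fun y v h => by simp only [Tm.val, hs2 y v h, ht2 y v h]⟩

theorem DefT.poly {k : ℕ} (P : Polynomial ℕ) {F : CT k} (hF : DefT k F) :
    DefT k (fun y n0 w => P.eval (F y n0 w)) := by
  induction P using Polynomial.induction_on' with
  | add p q hp hq => simpa only [Polynomial.eval_add] using hp.add hq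
  | monomial m c =>
    induction m with
    | zero => simpa using DefT.const (k := k) c
    | succ m ih =>
      have h := ih.mul hF
      simp only [Polynomial.eval_monomial] at h ⊢
      simpa only [pow_succ, mul_assoc] using h

/-- a function of the length given by a polynomial -/
theorem DefT.polyLen {k : ℕ} (P : Polynomial ℕ) : DefT k (fun _ n0 _ => P.eval n0) :=
  DefT.poly P DefT.len

/-- weakening: adding a new variable -/
theorem DefT.init {k : ℕ} {F : CT k} (hF : DefT k F) :
    DefT (k + 1) (fun y n0 w => F y n0 (Fin.init w)) := by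
  obtain ⟨s, hs, hs2⟩ := hF
  exact ⟨s, bd_mono_T hs (by omega), hs2⟩

/-- the new variable -/
theorem DefT.last {k : ℕ} : DefT (k + 1) (fun _ _ w => w (Fin.last k)) := DefT.var _

theorem DefT.congr {k : ℕ} {F G : CT k} (hF : DefT k F) (h : ∀ y n0 w, F y n0 w = G y n0 w) :
    DefT k G := by
  have : F = G := by funext y n0 w; exact h y n0 w
  rwa [← this]

/-! ## formulas -/

theorem DefF.congr {k : ℕ} {P Q : CP k} (hP : DefF k P) (h : ∀ y n0 w, P y n0 w ↔ Q y n0 w) :
    DefF k Q := by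
  have : P = Q := by funext y n0 w; exact propext (h y n0 w)
  rwa [← this]

theorem DefF.lt {k : ℕ} {F G : CT k} (hF : DefT k F) (hG : DefT k G) :
    DefF k (fun y n0 w => F y n0 w < G y n0 w) := by
  obtain ⟨s, hs, hs2⟩ := hF
  obtain ⟨t, ht, ht2⟩ := hG
  exact ⟨.lt s t, ⟨hs, ht⟩, fun y v h => by simp only [Fm.sat, hs2 y v h, ht2 y v h]⟩

theorem DefF.neg {k : ℕ} {P : CP k} (hP : DefF k P) : DefF k (fun y n0 w => ¬ P y n0 w) := by
  obtain ⟨s, hs, hs2⟩ := hP
  exact ⟨.neg s, hs, fun y v h => by simp only [Fm.sat, hs2 y v h]⟩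

theorem DefF.and {k : ℕ} {P Q : CP k} (hP : DefF k P) (hQ : DefF k Q) :
    DefF k (fun y n0 w => P y n0 w ∧ Q y n0 w) := by
  obtain ⟨s, hs, hs2⟩ := hP
  obtain ⟨t, ht, ht2⟩ := hQ
  exact ⟨.conj s t, ⟨hs, ht⟩, fun y v h => by simp only [Fm.sat, hs2 y v h, ht2 y v h]⟩

theorem DefF.or {k : ℕ} {P Q : CP k} (hP : DefF k P) (hQ : DefF k Q) :
    DefF k (fun y n0 w => P y n0 w ∨ Q y n0 w) :=
  (hP.neg.and hQ.neg).neg.congr (fun y n0 w => by tauto)

theorem DefF.imp {k : ℕ} {P Q : CP k} (hP : DefF k P) (hQ : DefF k Q) :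
    DefF k (fun y n0 w => P y n0 w → Q y n0 w) :=
  (hP.and hQ.neg).neg.congr (fun y n0 w => by tauto)

theorem DefF.iff {k : ℕ} {P Q : CP k} (hP : DefF k P) (hQ : DefF k Q) :
    DefF k (fun y n0 w => P y n0 w ↔ Q y n0 w) :=
  ((hP.imp hQ).and (hQ.imp hP)).congr (fun y n0 w => by tauto)

theorem DefF.le {k : ℕ} {F G : CT k} (hF : DefT k F) (hG : DefT k G) :
    DefF k (fun y n0 w => F y n0 w ≤ G y n0 w) :=
  (DefF.lt hG hF).neg.congr (fun y n0 w => by omega)

theorem DefF.eq {k : ℕ} {F G : CT k} (hF : DefT k F) (hG : DefT k G) :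
    DefF k (fun y n0 w => F y n0 w = G y n0 w) :=
  ((DefF.lt hF hG).neg.and (DefF.lt hG hF).neg).congr (fun y n0 w => by omega)

theorem DefF.true' {k : ℕ} : DefF k (fun _ _ _ => True) :=
  (DefF.lt (k := k) (DefT.const 0) (DefT.const 1)).congr (fun y n0 w => by simp)

/-- a condition that does not depend on anything -/
theorem DefF.prop {k : ℕ} (p : Prop) : DefF k (fun _ _ _ => p) := by
  by_cases h : p
  · exact (DefF.true' (k := k)).congr (fun y n0 w => by simp [h])
  · exact (DefF.true' (k := k)).neg.congr (fun y n0 w => by simp [h])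

theorem DefF.ite {k : ℕ} {C P Q : CP k} (hC : DefF k C) (hP : DefF k P) (hQ : DefF k Q)
    [∀ y n0 w, Decidable (C y n0 w)] :
    DefF k (fun y n0 w => if C y n0 w then P y n0 w else Q y n0 w) :=
  ((hC.imp hP).and (hC.neg.imp hQ)).congr (fun y n0 w => by
    by_cases h : C y n0 w <;> simp [h])

/-- finite disjunctions -/
theorem DefF.exF {k : ℕ} {ι : Type*} [Finite ι] {P : ι → CP k} (h : ∀ i, DefF k (P i)) :
    DefF k (fun y n0 w => ∃ i, P i y n0 w) := by
  classical
  cases nonempty_fintype ι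
  have : ∀ s : Finset ι, DefF k (fun y n0 w => ∃ i ∈ s, P i y n0 w) := by
    intro s
    induction s using Finset.induction_on with
    | empty => exact (DefF.prop False).congr (fun y n0 w => by simp)
    | insert a s ha ih => exact ((h a).or ih).congr (fun y n0 w => by simp)
  exact (this Finset.univ).congr (fun y n0 w => by simp)

/-- finite conjunctions -/
theorem DefF.allF {k : ℕ} {ι : Type*} [Finite ι] {P : ι → CP k} (h : ∀ i, DefF k (P i)) :
    DefF k (fun y n0 w => ∀ i, P i y n0 w) :=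
  (DefF.exF (fun i => (h i).neg)).neg.congr (fun y n0 w => by simp)

/-- finite disjunctions over a list -/
theorem DefF.exL {k : ℕ} {α : Type*} (l : List α) {P : α → CP k} (h : ∀ a ∈ l, DefF k (P a)) :
    DefF k (fun y n0 w => ∃ a ∈ l, P a y n0 w) := by
  induction l with
  | nil => exact (DefF.prop False).congr (fun y n0 w => by simp)
  | cons a l ih =>
    exact ((h a (by simp)).or (ih (fun b hb => h b (by simp [hb])))).congr
      (fun y n0 w => by simp)

theorem init_upd {k : ℕ} (v : ℕ → ℕ) (i : ℕ) :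
    (Fin.init (fun j : Fin (k + 1) => update v (k + 2) i (j.1 + 2)) : Fin k → ℕ) =
      fun j => v (j.1 + 2) := by
  funext j
  have := j.2
  simp only [Fin.init, Fin.val_castSucc]
  exact update_of_ne (by omega) _ _

/-- bounded existential quantifier -/
theorem DefF.ex {k : ℕ} {B : CT k} {P : List Bool → ℕ → (Fin k → ℕ) → ℕ → Prop} (hB : DefT k B)
    (hP : DefF (k + 1) (fun y n0 w => P y n0 (Fin.init w) (w (Fin.last k)))) :
    DefF k (fun y n0 w => ∃ i < B y n0 w, P y n0 w i) := by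
  obtain ⟨b, hb, hb2⟩ := hB
  obtain ⟨f, hf, hf2⟩ := hP
  refine ⟨.ex b f, ⟨hb, hf⟩, ?_⟩
  intro y v h1
  simp only [Fm.sat, hb2 y v h1]
  have key : ∀ i, f.sat y (k + 2 + 1) (update v (k + 2) i) ↔
      P y (v 0) (fun j => v (j.1 + 2)) i := by
    intro i
    have := hf2 y (update v (k + 2) i) (by rw [update_of_ne (by omega), h1])
    beta_reduce at this
    rw [init_upd, update_of_ne (by omega : (0 : ℕ) ≠ k + 2)] at this
    simp only [Fin.val_last, update_self] at this
    exact this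
  constructor
  · rintro ⟨i, hi, h⟩
    exact ⟨i, hi, (key i).1 h⟩
  · rintro ⟨i, hi, h⟩
    exact ⟨i, hi, (key i).2 h⟩

/-- bounded universal quantifier -/
theorem DefF.all {k : ℕ} {B : CT k} {P : List Bool → ℕ → (Fin k → ℕ) → ℕ → Prop} (hB : DefT k B)
    (hP : DefF (k + 1) (fun y n0 w => P y n0 (Fin.init w) (w (Fin.last k)))) :
    DefF k (fun y n0 w => ∀ i < B y n0 w, P y n0 w i) :=
  (DefF.ex (P := fun y n0 w i => ¬ P y n0 w i) hB hP.neg).neg.congr
    (fun y n0 w => by push Not; rfl)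

/-- substitution of a quotient and a remainder -/
theorem DefF.divmod {k : ℕ} {A B : CT k} {P : List Bool → ℕ → (Fin k → ℕ) → ℕ → ℕ → Prop}
    (hA : DefT k A) (hB : DefT k B) (hB0 : ∀ y n0 w, 0 < B y n0 w)
    (hP : DefF (k + 2) (fun y n0 w => P y n0 (Fin.init (Fin.init w))
      ((Fin.init w : Fin (k + 1) → ℕ) (Fin.last k)) (w (Fin.last (k + 1))))) :
    DefF k (fun y n0 w => P y n0 w (A y n0 w / B y n0 w) (A y n0 w % B y n0 w)) := by
  have h : DefF k (fun y n0 w => ∃ q < A y n0 w + 1, ∃ r < B y n0 w,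
      A y n0 w = q * B y n0 w + r ∧ P y n0 w q r) := by
    refine DefF.ex (hA.add (DefT.const 1)) ?_
    refine DefF.ex (P := fun y n0 w r => A y n0 (Fin.init w) = w (Fin.last k) * B y n0 (Fin.init w) + r ∧
      P y n0 (Fin.init w) (w (Fin.last k)) r) hB.init ?_
    exact (DefF.eq hA.init.init ((DefT.last.init.mul hB.init.init).add DefT.last)).and hP
  refine h.congr (fun y n0 w => ?_)
  have hb := hB0 y n0 w
  constructor
  · rintro ⟨q, -, r, hr, h1, h2⟩
    have e1 : A y n0 w / B y n0 w = q := by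
      rw [h1, Nat.mul_comm, Nat.mul_add_div hb, Nat.div_eq_of_lt hr, Nat.add_zero]
    have e2 : A y n0 w % B y n0 w = r := by
      rw [h1, Nat.mul_comm, Nat.mul_add_mod, Nat.mod_eq_of_lt hr]
    rwa [e1, e2]
  · intro h1
    refine ⟨A y n0 w / B y n0 w, ?_, A y n0 w % B y n0 w, Nat.mod_lt _ hb, ?_, h1⟩
    · have := Nat.div_le_self (A y n0 w) (B y n0 w)
      omega
    · rw [Nat.mul_comm]
      exact (Nat.div_add_mod _ _).symm

/-- A bit of the table (with positive number). -/
theorem DefF.bit {k : ℕ} {F : CT k} (hF : DefT k F) :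
    DefF k (fun y n0 w => 0 < F y n0 w ∧ y[F y n0 w]? = some true) := by
  have h : DefF k (fun y n0 w => ∃ j < F y n0 w, F y n0 w = 1 + j ∧ y[1 + j]? = some true) := by
    refine DefF.ex hF ((DefF.eq hF.init ((DefT.const 1).add DefT.last)).and ?_)
    refine ⟨.lt (.const 0) (.look (.var (k + 2))), ⟨trivial, by simp [Tm.bd]⟩, ?_⟩
    intro y v h1
    simp only [Fm.sat, Tm.val, look, h1, List.range_one, Fin.val_last]
    rw [Nat.mul_one, Nat.add_zero]
    by_cases h : y[1 + v (k + 2)]? = some true <;> simp [h]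
  refine h.congr (fun y n0 w => ?_)
  constructor
  · rintro ⟨j, hj, h1, h2⟩
    rw [h1]
    exact ⟨by omega, h2⟩
  · rintro ⟨h1, h2⟩
    refine ⟨F y n0 w - 1, by omega, by omega, ?_⟩
    rwa [show 1 + (F y n0 w - 1) = F y n0 w by omega]

end Pool.Agent.LIH
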