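import Pool.Agent.LIH.Net

/-!
# Numbering the vertices of the graph of a network, for `V = Fin h`

The vertex `(k, s)` gets the number `siteNum s + 4 * (h + 3) * k`.
-/

namespace Pool.Agent.LIH

open Sum

/-- number of a site -/
def siteNum {h : ℕ} : Site (Fin h) → ℕ
  | (ρ, inl u) => u.1 + (h + 3) * ρ.1
  | (ρ, inr r) => h + r.1 + (h + 3) * ρ.1

/-- adjacency in terms of numbers -/
def AdjNum {h : ℕ} (K : ℕ) (side : ℕ → Bool) (pal : ℕ → Fin 3 → Prop)
    (link : ℕ → Fin 3 → ℕ → Fin 3 → Prop) (H : SimpleGraph (Fin h)) (x y : Fin h)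
    (c : Fin 3 → Fin h) (a b : ℕ) : Prop :=
  ∃ s t : Site (Fin h), ∃ k < K, ∃ l < K, a = siteNum s + 4 * (h + 3) * k ∧
    b = siteNum t + 4 * (h + 3) * l ∧ ¬ (k = l ∧ s = t) ∧
      (Half K side pal link H x y c k l s t ∨ Half K side pal link H x y c l k t s)

/-- the numbering -/
def numE (h K : ℕ) : Fin K × Site (Fin h) ≃ Fin (K * (4 * (h + 3))) :=
  (Equiv.prodCongr (Equiv.refl (Fin K)) ((Equiv.prodCongr (Equiv.refl (Fin 4))
    finSumFinEquiv).trans finProdFinEquiv)).trans finProdFinEquiv

theorem numE_val (h K : ℕ) (k : Fin K) (s : Site (Fin h)) :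
    (numE h K (k, s)).1 = siteNum s + 4 * (h + 3) * k.1 := by
  obtain ⟨ρ, u | r⟩ := s
  · simp [numE, siteNum, finProdFinEquiv]
  · simp [numE, siteNum, finProdFinEquiv]

/-- Proof: transport `netG` along
`Fin K × (Fin 4 × (Fin h ⊕ Fin 3)) ≃ Fin (K * (4 * (h + 3)))` (`finSumFinEquiv`,
`finProdFinEquiv`). -/
theorem exists_numG {h : ℕ} (H : SimpleGraph (Fin h)) (x y : Fin h) (c : Fin 3 → Fin h)
    (N : Net) : ∃ G : SimpleGraph (Fin (N.K * (4 * (h + 3)))),
      (∀ a b, G.Adj a b ↔ AdjNum N.K N.side N.pal N.link H x y c a.1 b.1) ∧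
      ((∃ f, LocInj G H f) ↔ ∃ f, LocInj (netG H x y c N) H f) := by
  refine ⟨(netG H x y c N).comap (numE h N.K).symm, ?_, ?_⟩
  · intro a b
    obtain ⟨⟨k, s⟩, rfl⟩ := (numE h N.K).surjective a
    obtain ⟨⟨l, t⟩, rfl⟩ := (numE h N.K).surjective b
    rw [SimpleGraph.comap_adj, Equiv.symm_apply_apply, Equiv.symm_apply_apply, netG,
      SimpleGraph.fromRel_adj]
    constructor
    · rintro ⟨hne, hh⟩
      refine ⟨s, t, k.1, k.2, l.1, l.2, numE_val _ _ _ _, numE_val _ _ _ _, ?_, hh⟩
      rintro ⟨h1, rfl⟩
      exact hne (by rw [Fin.ext h1])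
    · rintro ⟨s', t', k', hk', l', hl', h1, h2, h3, h4⟩
      rw [← numE_val h N.K ⟨k', hk'⟩ s'] at h1
      rw [← numE_val h N.K ⟨l', hl'⟩ t'] at h2
      have e1 := (numE h N.K).injective (Fin.ext h1)
      have e2 := (numE h N.K).injective (Fin.ext h2)
      rw [Prod.mk.injEq] at e1 e2
      obtain ⟨rfl, rfl⟩ := e1
      obtain ⟨rfl, rfl⟩ := e2
      refine ⟨?_, h4⟩
      intro h5
      rw [Prod.mk.injEq] at h5
      exact h3 ⟨congrArg Fin.val h5.1, h5.2⟩
  · constructor
    · rintro ⟨f, hf1, hf2⟩
      refine ⟨fun v => f (numE h N.K v), ?_, ?_⟩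
      · intro u v huv
        apply hf1
        rw [SimpleGraph.comap_adj, Equiv.symm_apply_apply, Equiv.symm_apply_apply]
        exact huv
      · intro v a ha b hb hab
        have := @hf2 (numE h N.K v) (numE h N.K a)
          (by
            rw [SimpleGraph.mem_neighborSet, SimpleGraph.comap_adj, Equiv.symm_apply_apply,
              Equiv.symm_apply_apply]
            exact ha) (numE h N.K b)
          (by
            rw [SimpleGraph.mem_neighborSet, SimpleGraph.comap_adj, Equiv.symm_apply_apply,
              Equiv.symm_apply_apply]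
            exact hb) hab
        exact (numE h N.K).injective this
    · rintro ⟨f, hf1, hf2⟩
      refine ⟨fun v => f ((numE h N.K).symm v), ?_, ?_⟩
      · intro u v huv
        exact hf1 _ _ huv
      · intro v a ha b hb hab
        have := @hf2 ((numE h N.K).symm v) ((numE h N.K).symm a) ha
          ((numE h N.K).symm b) hb hab
        exact (numE h N.K).symm.injective this

/-- the adjacency matrix as a concatenation of rows -/
theorem matrix_eq {n : ℕ} (G : SimpleGraph (Fin n)) (P : ℕ → ℕ → Prop)
    [∀ a b, Decidable (P a b)] (h : ∀ a b : Fin n, G.Adj a b ↔ P a b) :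
    matrix G = (List.range n).flatMap (fun a => (List.range n).flatMap
      (fun b => if P a b then [true] else [false])) := by
  classical
  have h1 : ∀ a, (List.range n).flatMap (fun b => if P a b then [true] else [false]) =
      (List.range n).map (fun b => decide (P a b)) := by
    intro a
    rw [List.map_eq_flatMap]
    congr 1
    funext b
    by_cases hp : P a b <;> simp [hp]
  simp only [h1]
  have hlen : ∀ k, ((List.range k).flatMap (fun a => (List.range n).map
      (fun b => decide (P a b)))).length = k * n := by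
    intro k
    simp [List.length_flatMap]
  apply List.ext_getElem
  · rw [hlen, matrix, List.length_ofFn]
  · intro q hq1 hq2
    have hq : q < n * n := by rw [hlen] at hq2; exact hq2
    have hn : 0 < n := by
      rcases Nat.eq_zero_or_pos n with h0 | h0
      · rw [h0] at hq; simp at hq
      · exact h0
    simp only [matrix, List.getElem_ofFn]
    have key : ∀ k, ∀ q (hq : q < k * n), ((List.range k).flatMap (fun a => (List.range n).map
        (fun b => decide (P a b))))[q]? = some (decide (P (q / n) (q % n))) := by
      intro k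
      induction k with
      | zero => intro q hq; simp at hq
      | succ k ih =>
        intro q hq
        rw [List.range_succ, List.flatMap_append]
        by_cases h2 : q < k * n
        · rw [List.getElem?_append_left (by rw [hlen]; exact h2)]
          exact ih q h2
        · rw [List.getElem?_append_right (by rw [hlen]; omega), hlen]
          have h3 : q - k * n < n := by
            rw [Nat.succ_mul] at hq
            omega
          have e1 : q = n * k + (q - k * n) := by
            rw [Nat.mul_comm]
            omega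
          have e2 : q / n = k := by
            rw [e1, Nat.mul_add_div hn, Nat.div_eq_of_lt h3, Nat.add_zero]
          have e3 : q % n = q - k * n := by
            conv_lhs => rw [e1]
            rw [Nat.mul_add_mod, Nat.mod_eq_of_lt h3]
          rw [e2, e3]
          simp [h3]
    have hk := key n q hq
    rw [List.getElem?_eq_getElem hq2] at hk
    rw [Option.some.inj hk]
    congr 1
    rw [h]
    rfl

end Pool.Agent.LIH
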