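import Pool.Agent.LIH.Net

/-!
# The network of a CNF formula

A formula has variables `v < Nv`, clauses `j < J` and in each clause `m` literals; the literals are
numbered by `τ < L = J * m` (the `i`-th literal of clause `j` has number `j * m + i`) and the
literal number `τ` is given by the number `lit τ < 2 * Nv`: it is the variable `lit τ / 2`, negated
iff `lit τ` is odd.

Nodes of the network are triples `(v, t, κ)` with `v ≤ Nv`, `t ≤ 2 * L`, `κ < 3`, numbered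
`(v * (2 * L + 1) + t) * 3 + κ`.
-/

namespace Pool.Agent.LIH

/-- The formula is satisfiable. -/
def SatOK (J m : ℕ) (lit : ℕ → ℕ) : Prop :=
  ∃ s : ℕ → Bool, ∀ j < J, ∃ i < m, s (lit (j * m + i) / 2) = decide (lit (j * m + i) % 2 = 0)

/-- palettes in terms of the triple `(v, t, κ)` -/
def palT (Nv L m v t κ : ℕ) (i : Fin 3) : Prop :=
  -- F, x-type
  (κ = 0 ∧ v < Nv) ∨
  -- N1, x-type
  (κ = 0 ∧ v = Nv ∧ t < L ∧ (i = 1 → t % m ≠ 0)) ∨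
  -- D, y-type
  (κ = 1 ∧ v < Nv ∧ (i.1 = t % 2 ∨ i.1 = t % 2 + 1)) ∨
  -- N2, y-type
  (κ = 1 ∧ v = Nv ∧ t < L ∧ (i = 0 → (t + 1) % m ≠ 0)) ∨
  -- C, y-type
  (κ = 2 ∧ v < Nv ∧ i ≠ 1)

/-- links in terms of the triples -/
def linkT (Nv L m : ℕ) (lit : ℕ → ℕ) (v t κ : ℕ) (i : Fin 3) (v' t' κ' : ℕ) (i' : Fin 3) : Prop :=
  -- F - D
  (κ = 0 ∧ v < Nv ∧ i ≠ 2 ∧ v' = v ∧ κ' = 1 ∧ t' % 2 = i.1 ∧
    ((t' = t ∧ i'.1 = i.1 + 1) ∨ (t' = t + 1 ∧ i' = i))) ∨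
  -- F - C
  (κ = 0 ∧ v < Nv ∧ i = 2 ∧ v' = v ∧ κ' = 2 ∧ t' = t ∧ i' = 0) ∨
  -- N1 - C
  (κ = 0 ∧ v = Nv ∧ t < L ∧ i = 0 ∧ v' = lit t / 2 ∧ κ' = 2 ∧ t' = 2 * t + lit t % 2 ∧ i' = 2) ∨
  -- N1 - N2
  (κ = 0 ∧ v = Nv ∧ t < L ∧ i = 2 ∧ v' = Nv ∧ κ' = 1 ∧ t' = t ∧ i' = 1) ∨
  -- N1 - previous N2
  (κ = 0 ∧ v = Nv ∧ t < L ∧ t % m ≠ 0 ∧ i = 1 ∧ v' = Nv ∧ κ' = 1 ∧ t' + 1 = t ∧ i' = 0)

/-- number of nodes -/
def satK (Nv L : ℕ) : ℕ := (Nv + 1) * (2 * L + 1) * 3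

/-- palettes -/
def satPal (Nv L m k : ℕ) (i : Fin 3) : Prop :=
  palT Nv L m (k / 3 / (2 * L + 1)) (k / 3 % (2 * L + 1)) (k % 3) i

/-- links -/
def satLink (Nv L m : ℕ) (lit : ℕ → ℕ) (k : ℕ) (i : Fin 3) (l : ℕ) (j : Fin 3) : Prop :=
  k < satK Nv L ∧ l < satK Nv L ∧
    linkT Nv L m lit (k / 3 / (2 * L + 1)) (k / 3 % (2 * L + 1)) (k % 3) i
      (l / 3 / (2 * L + 1)) (l / 3 % (2 * L + 1)) (l % 3) j

/-- number of the node `(v, t, κ)` -/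
def nod (L v t κ : ℕ) : ℕ := (v * (2 * L + 1) + t) * 3 + κ

theorem nod_dec (L v t κ : ℕ) (ht : t ≤ 2 * L) (hκ : κ < 3) :
    nod L v t κ / 3 / (2 * L + 1) = v ∧ nod L v t κ / 3 % (2 * L + 1) = t ∧
      nod L v t κ % 3 = κ := by
  unfold nod
  have h1 : ((v * (2 * L + 1) + t) * 3 + κ) / 3 = v * (2 * L + 1) + t := by omega
  rw [h1]
  refine ⟨?_, ?_, by omega⟩
  · rw [Nat.mul_comm, Nat.mul_add_div (by omega), Nat.div_eq_of_lt (by omega), Nat.add_zero]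
  · rw [Nat.mul_comm, Nat.mul_add_mod, Nat.mod_eq_of_lt (by omega)]

theorem nod_eta (L k : ℕ) : nod L (k / 3 / (2 * L + 1)) (k / 3 % (2 * L + 1)) (k % 3) = k := by
  unfold nod
  have h1 := Nat.div_add_mod (k / 3) (2 * L + 1)
  have h2 := Nat.div_add_mod k 3
  rw [Nat.mul_comm (k / 3 / (2 * L + 1)), h1]
  omega

theorem nod_lt (Nv L v t κ : ℕ) (hv : v ≤ Nv) (ht : t ≤ 2 * L) (hκ : κ < 3) :
    nod L v t κ < satK Nv L := by
  unfold nod satK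
  have h1 : v * (2 * L + 1) ≤ Nv * (2 * L + 1) := Nat.mul_le_mul_right _ hv
  have h2 : (Nv + 1) * (2 * L + 1) = Nv * (2 * L + 1) + (2 * L + 1) := by ring
  omega

theorem satNet_v0 : ((0 : Fin 3) : ℕ) = 0 := rfl

theorem satNet_v1 : ((1 : Fin 3) : ℕ) = 1 := rfl

theorem satNet_v2 : ((2 : Fin 3) : ℕ) = 2 := rfl

theorem satLink_dom (Nv L m : ℕ) (lit : ℕ → ℕ) (hlit : ∀ τ < L, lit τ < 2 * Nv) (k : ℕ) (i : Fin 3)
    (l : ℕ) (j : Fin 3) (h : satLink Nv L m lit k i l j) :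
    k < satK Nv L ∧ l < satK Nv L ∧ decide (k % 3 = 0) = true ∧ decide (l % 3 = 0) = false ∧
      satPal Nv L m k i ∧ satPal Nv L m l j := by
  obtain ⟨hk, hl, h⟩ := h
  refine ⟨hk, hl, ?_⟩
  unfold satPal
  generalize k / 3 / (2 * L + 1) = v at h ⊢
  generalize k / 3 % (2 * L + 1) = t at h ⊢
  generalize k % 3 = κ at h ⊢
  generalize l / 3 / (2 * L + 1) = v' at h ⊢
  generalize l / 3 % (2 * L + 1) = t' at h ⊢
  generalize l % 3 = κ' at h ⊢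
  rcases h with ⟨h1, h2, h3, h4, h5, h6, h7⟩ | ⟨h1, h2, h3, h4, h5, h6, h7⟩ |
    ⟨h1, h2, h3, h4, h5, h6, h7, h8⟩ | ⟨h1, h2, h3, h4, h5, h6, h7, h8⟩ |
    ⟨h1, h2, h3, h4, h5, h6, h7, h8, h9⟩
  · subst h1; subst h4; subst h5
    refine ⟨by simp, by simp, Or.inl ⟨rfl, h2⟩, Or.inr (Or.inr (Or.inl ⟨rfl, h2, ?_⟩))⟩
    rcases h7 with ⟨_, h8⟩ | ⟨_, h8⟩
    · right
      omega
    · left
      rw [h8]
      omega
  · subst h1; subst h4; subst h5; subst h7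
    exact ⟨by simp, by simp, Or.inl ⟨rfl, h2⟩, Or.inr (Or.inr (Or.inr (Or.inr ⟨rfl, h2, by decide⟩)))⟩
  · subst h1; subst h4; subst h6; subst h8
    have hv : v' < Nv := by
      have := hlit t h3
      omega
    exact ⟨by simp, by simp, Or.inr (Or.inl ⟨rfl, h2, h3, fun h => absurd h (by decide)⟩),
      Or.inr (Or.inr (Or.inr (Or.inr ⟨rfl, hv, by decide⟩)))⟩
  · subst h1; subst h4; subst h6; subst h8; subst h7
    exact ⟨by simp, by simp, Or.inr (Or.inl ⟨rfl, h2, h3, fun h => absurd h (by decide)⟩),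
      Or.inr (Or.inr (Or.inr (Or.inl ⟨rfl, h5, h3, fun h => absurd h (by decide)⟩)))⟩
  · subst h1; subst h5; subst h7; subst h9; subst h8
    exact ⟨by simp, by simp, Or.inr (Or.inl ⟨rfl, h2, h3, fun _ => h4⟩),
      Or.inr (Or.inr (Or.inr (Or.inl ⟨rfl, h6, by omega, fun _ => h4⟩)))⟩

theorem satNet_fun_aux (Nv L m : ℕ) (lit : ℕ → ℕ) (v t κ : ℕ) (i : Fin 3) (v1 t1 κ1 : ℕ)
    (j1 : Fin 3) (v2 t2 κ2 : ℕ) (j2 : Fin 3) (h : linkT Nv L m lit v t κ i v1 t1 κ1 j1)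
    (h' : linkT Nv L m lit v t κ i v2 t2 κ2 j2) :
    v1 = v2 ∧ t1 = t2 ∧ κ1 = κ2 ∧ j1 = j2 := by
  unfold linkT at h h'
  simp only [ne_eq, Fin.ext_iff, satNet_v0, satNet_v1, satNet_v2] at h h' ⊢
  rcases h with h | h | h | h | h <;> rcases h' with h' | h' | h' | h' | h' <;> omega

theorem satNet_inj_aux (Nv L m : ℕ) (lit : ℕ → ℕ) (hlit : ∀ τ < L, lit τ < 2 * Nv)
    (v1 t1 κ1 : ℕ) (i1 : Fin 3) (v2 t2 κ2 : ℕ) (i2 : Fin 3) (v t κ : ℕ)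
    (j : Fin 3) (h : linkT Nv L m lit v1 t1 κ1 i1 v t κ j)
    (h' : linkT Nv L m lit v2 t2 κ2 i2 v t κ j) :
    v1 = v2 ∧ t1 = t2 ∧ κ1 = κ2 ∧ i1 = i2 := by
  unfold linkT at h h'
  have hl1 := hlit t1
  have hl2 := hlit t2
  simp only [ne_eq, Fin.ext_iff, satNet_v0, satNet_v1, satNet_v2] at h h' ⊢
  rcases h with h | h | h | h | h <;> rcases h' with h' | h' | h' | h' | h' <;> omega

theorem satLink_fun (Nv L m : ℕ) (lit : ℕ → ℕ) (k : ℕ) (i : Fin 3) (l : ℕ) (j : Fin 3) (l' : ℕ)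
    (j' : Fin 3) (h : satLink Nv L m lit k i l j) (h' : satLink Nv L m lit k i l' j') :
    l = l' ∧ j = j' := by
  obtain ⟨h1, h2, h3, h4⟩ := satNet_fun_aux _ _ _ _ _ _ _ _ _ _ _ _ _ _ _ _ h.2.2 h'.2.2
  refine ⟨?_, h4⟩
  rw [← nod_eta L l, ← nod_eta L l', h1, h2, h3]

theorem satLink_inj (Nv L m : ℕ) (lit : ℕ → ℕ) (hlit : ∀ τ < L, lit τ < 2 * Nv) (k : ℕ) (i : Fin 3)
    (k' : ℕ) (i' : Fin 3) (l : ℕ) (j : Fin 3) (h : satLink Nv L m lit k i l j)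
    (h' : satLink Nv L m lit k' i' l j) : k = k' ∧ i = i' := by
  obtain ⟨h1, h2, h3, h4⟩ := satNet_inj_aux _ _ _ _ hlit _ _ _ _ _ _ _ _ _ _ _ _ h.2.2 h'.2.2
  refine ⟨?_, h4⟩
  rw [← nod_eta L k, ← nod_eta L k', h1, h2, h3]

/-- The network of a formula. -/
def satNet (Nv L m : ℕ) (lit : ℕ → ℕ) (hNv : 0 < Nv) (hlit : ∀ τ < L, lit τ < 2 * Nv) : Net where
  K := satK Nv L
  side k := decide (k % 3 = 0)
  pal := satPal Nv L m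
  link := satLink Nv L m lit
  two_le := by
    unfold satK
    have : 1 ≤ (Nv + 1) * (2 * L + 1) := Nat.one_le_iff_ne_zero.2 (by positivity)
    omega
  full := by
    refine ⟨nod L 0 0 0, nod_lt _ _ _ _ _ (by omega) (by omega) (by omega), fun i => ?_⟩
    obtain ⟨h1, h2, h3⟩ := nod_dec L 0 0 0 (by omega) (by omega)
    unfold satPal
    rw [h1, h2, h3]
    exact Or.inl ⟨rfl, hNv⟩
  link_dom := satLink_dom Nv L m lit hlit
  link_fun := satLink_fun Nv L m lit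
  link_inj := satLink_inj Nv L m lit hlit

end Pool.Agent.LIH
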