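import Pool.Agent.LIH.Dfn
import Pool.Agent.LIH.SatNet
import Pool.Agent.LIH.Num

/-!
# The adjacency relation of the graph of a formula is definable
-/

namespace Pool.Agent.LIH

open Sum

/-- a uniformly definable function of a number -/
def Unif (lit : List Bool → ℕ → ℕ → ℕ) : Prop :=
  ∀ (k : ℕ) (F G : CT k), DefT k F → DefT k G →
    DefF k (fun y n0 w => lit y n0 (F y n0 w) = G y n0 w)

theorem def_mod {k : ℕ} {F : CT k} (hF : DefT k F) {m : ℕ} (hm : 0 < m) (r : ℕ) :
    DefF k (fun y n0 w => F y n0 w % m = r) :=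
  DefF.divmod (P := fun _ _ _ _ r' => r' = r) hF (DefT.const m) (fun _ _ _ => hm)
    (DefF.eq DefT.last (DefT.const r))

theorem def_palT (Nv J : Polynomial ℕ) {m : ℕ} (hm : 0 < m) (i : Fin 3) {k : ℕ} {V T Q : CT k}
    (hV : DefT k V) (hT : DefT k T) (hQ : DefT k Q) :
    DefF k (fun y n0 w => palT (Nv.eval n0) (J.eval n0 * m) m (V y n0 w) (T y n0 w)
      (Q y n0 w) i) := by
  have hN : DefT k (fun _ n0 _ => Nv.eval n0) := DefT.polyLen Nv
  have hL : DefT k (fun _ n0 _ => J.eval n0 * m) := (DefT.polyLen J).mul (DefT.const m)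
  unfold palT
  refine DefF.or ?_ (DefF.or ?_ (DefF.or ?_ (DefF.or ?_ ?_)))
  · exact (DefF.eq hQ (DefT.const 0)).and (DefF.lt hV hN)
  · exact (DefF.eq hQ (DefT.const 0)).and ((DefF.eq hV hN).and ((DefF.lt hT hL).and
      ((DefF.prop _).imp (def_mod hT hm 0).neg)))
  · refine (DefF.eq hQ (DefT.const 1)).and ((DefF.lt hV hN).and (DefF.or ?_ ?_))
    · exact (def_mod hT (by omega : 0 < 2) i.1).congr (fun y n0 w => by rw [eq_comm])
    · refine (DefF.or ((def_mod hT (by omega : 0 < 2) 0).and (DefF.prop (i.1 = 1)))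
        ((def_mod hT (by omega : 0 < 2) 1).and (DefF.prop (i.1 = 2)))).congr (fun y n0 w => ?_)
      omega
  · exact (DefF.eq hQ (DefT.const 1)).and ((DefF.eq hV hN).and ((DefF.lt hT hL).and
      ((DefF.prop _).imp (def_mod (hT.add (DefT.const 1)) hm 0).neg)))
  · exact (DefF.eq hQ (DefT.const 2)).and ((DefF.lt hV hN).and (DefF.prop _))

theorem def_linkT (Nv J : Polynomial ℕ) {m : ℕ} (hm : 0 < m) {lit : List Bool → ℕ → ℕ → ℕ}
    (hlit : Unif lit) (i i' : Fin 3) {k : ℕ} {V T Q V' T' Q' : CT k}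
    (hV : DefT k V) (hT : DefT k T) (hQ : DefT k Q)
    (hV' : DefT k V') (hT' : DefT k T') (hQ' : DefT k Q') :
    DefF k (fun y n0 w => linkT (Nv.eval n0) (J.eval n0 * m) m (lit y n0) (V y n0 w) (T y n0 w)
      (Q y n0 w) i (V' y n0 w) (T' y n0 w) (Q' y n0 w) i') := by
  have hN : DefT k (fun _ n0 _ => Nv.eval n0) := DefT.polyLen Nv
  have hL : DefT k (fun _ n0 _ => J.eval n0 * m) := (DefT.polyLen J).mul (DefT.const m)
  unfold linkT
  refine DefF.or ?_ (DefF.or ?_ (DefF.or ?_ (DefF.or ?_ ?_)))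
  · exact (DefF.eq hQ (DefT.const 0)).and ((DefF.lt hV hN).and ((DefF.prop _).and
      ((DefF.eq hV' hV).and ((DefF.eq hQ' (DefT.const 1)).and
      ((def_mod hT' (by omega : 0 < 2) i.1).and
      (((DefF.eq hT' hT).and (DefF.prop _)).or
        ((DefF.eq hT' (hT.add (DefT.const 1))).and (DefF.prop _))))))))
  · exact (DefF.eq hQ (DefT.const 0)).and ((DefF.lt hV hN).and ((DefF.prop _).and
      ((DefF.eq hV' hV).and ((DefF.eq hQ' (DefT.const 2)).and ((DefF.eq hT' hT).and
      (DefF.prop _))))))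
  · have h1 : DefF k (fun y n0 w => V' y n0 w = lit y n0 (T y n0 w) / 2 ∧
        Q' y n0 w = 2 ∧ T' y n0 w = 2 * T y n0 w + lit y n0 (T y n0 w) % 2 ∧ i' = 2) := by
      have a0 : DefF k (fun y n0 w => lit y n0 (T y n0 w) = 2 * V' y n0 w) :=
        hlit k T (fun y n0 w => 2 * V' y n0 w) hT ((DefT.const 2).mul hV')
      have a1 : DefF k (fun y n0 w => lit y n0 (T y n0 w) = 2 * V' y n0 w + 1) :=
        hlit k T (fun y n0 w => 2 * V' y n0 w + 1) hT
          (((DefT.const 2).mul hV').add (DefT.const 1))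
      have b0 : DefF k (fun y n0 w => T' y n0 w = 2 * T y n0 w) :=
        DefF.eq hT' ((DefT.const 2).mul hT)
      have b1 : DefF k (fun y n0 w => T' y n0 w = 2 * T y n0 w + 1) :=
        DefF.eq hT' (((DefT.const 2).mul hT).add (DefT.const 1))
      refine (((a0.and b0).or (a1.and b1)).and ((DefF.eq hQ' (DefT.const 2)).and
        (DefF.prop (i' = 2)))).congr (fun y n0 w => ?_)
      omega
    exact (DefF.eq hQ (DefT.const 0)).and ((DefF.eq hV hN).and ((DefF.lt hT hL).and
      ((DefF.prop _).and h1)))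
  · exact (DefF.eq hQ (DefT.const 0)).and ((DefF.eq hV hN).and ((DefF.lt hT hL).and
      ((DefF.prop _).and ((DefF.eq hV' hN).and ((DefF.eq hQ' (DefT.const 1)).and
      ((DefF.eq hT' hT).and (DefF.prop _)))))))
  · exact (DefF.eq hQ (DefT.const 0)).and ((DefF.eq hV hN).and ((DefF.lt hT hL).and
      ((def_mod hT hm 0).neg.and ((DefF.prop _).and ((DefF.eq hV' hN).and
      ((DefF.eq hQ' (DefT.const 1)).and
      ((DefF.eq (hT'.add (DefT.const 1)) hT).and (DefF.prop _))))))))

/-- decoding a node number -/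
theorem def_dec (J : Polynomial ℕ) (m : ℕ) {k : ℕ}
    {P : List Bool → ℕ → (Fin k → ℕ) → ℕ → ℕ → ℕ → Prop} {A : CT k} (hA : DefT k A)
    (hP : DefF (k + 2 + 2) (fun y n0 w => P y n0 (Fin.init (Fin.init (Fin.init (Fin.init w))))
      ((Fin.init w : Fin (k + 3) → ℕ) (Fin.last (k + 2))) (w (Fin.last (k + 3)))
      ((Fin.init (Fin.init w : Fin (k + 3) → ℕ) : Fin (k + 2) → ℕ) (Fin.last (k + 1))))) :
    DefF k (fun y n0 w => P y n0 w (A y n0 w / 3 / (2 * (J.eval n0 * m) + 1))
      (A y n0 w / 3 % (2 * (J.eval n0 * m) + 1)) (A y n0 w % 3)) := by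
  have hL : DefT (k + 2) (fun _ n0 _ => 2 * (J.eval n0 * m) + 1) :=
    ((DefT.const 2).mul ((DefT.polyLen J).mul (DefT.const m))).add (DefT.const 1)
  refine DefF.divmod (P := fun y n0 w q r => P y n0 w (q / (2 * (J.eval n0 * m) + 1))
      (q % (2 * (J.eval n0 * m) + 1)) r) hA (DefT.const 3) (fun _ _ _ => by omega) ?_
  exact DefF.divmod (k := k + 2) (P := fun y n0 w v t => P y n0 (Fin.init (Fin.init w)) v t
      (w (Fin.last (k + 1)))) (A := fun _ _ w => (Fin.init w : Fin (k + 1) → ℕ) (Fin.last k))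
      DefT.last.init hL (fun _ _ _ => by omega) hP

theorem def_satPal (Nv J : Polynomial ℕ) {m : ℕ} (hm : 0 < m) (i : Fin 3) {k : ℕ} {A : CT k}
    (hA : DefT k A) :
    DefF k (fun y n0 w => satPal (Nv.eval n0) (J.eval n0 * m) m (A y n0 w) i) := by
  unfold satPal
  exact def_dec J m (P := fun _ n0 _ v t q => palT (Nv.eval n0) (J.eval n0 * m) m v t q i) hA
    (def_palT Nv J hm i DefT.last.init DefT.last DefT.last.init.init)

theorem def_satLink (Nv J : Polynomial ℕ) {m : ℕ} (hm : 0 < m) {lit : List Bool → ℕ → ℕ → ℕ}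
    (hlit : Unif lit) (i j : Fin 3) {k : ℕ} {A B : CT k} (hA : DefT k A) (hB : DefT k B) :
    DefF k (fun y n0 w => satLink (Nv.eval n0) (J.eval n0 * m) m (lit y n0) (A y n0 w) i
      (B y n0 w) j) := by
  unfold satLink
  have hK : DefT k (fun _ n0 _ => satK (Nv.eval n0) (J.eval n0 * m)) := by
    unfold satK
    exact (((DefT.polyLen Nv).add (DefT.const 1)).mul (((DefT.const 2).mul
      ((DefT.polyLen J).mul (DefT.const m))).add (DefT.const 1))).mul (DefT.const 3)
  refine (DefF.lt hA hK).and ((DefF.lt hB hK).and ?_)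
  refine def_dec J m (P := fun y n0 w v t q => linkT (Nv.eval n0) (J.eval n0 * m) m (lit y n0)
    v t q i (B y n0 w / 3 / (2 * (J.eval n0 * m) + 1)) (B y n0 w / 3 % (2 * (J.eval n0 * m) + 1))
    (B y n0 w % 3) j) hA ?_
  refine def_dec J m (P := fun y n0 w v t q => linkT (Nv.eval n0) (J.eval n0 * m) m (lit y n0)
    ((Fin.init w : Fin (k + 3) → ℕ) (Fin.last (k + 2))) (w (Fin.last (k + 3)))
      ((Fin.init (Fin.init w : Fin (k + 3) → ℕ) : Fin (k + 2) → ℕ) (Fin.last (k + 1))) i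
    v t q j) hB.init.init.init.init ?_
  exact def_linkT Nv J hm hlit i j DefT.last.init.init.init.init.init DefT.last.init.init.init.init
    DefT.last.init.init.init.init.init.init DefT.last.init DefT.last DefT.last.init.init

theorem def_K (Nv J : Polynomial ℕ) (m : ℕ) {k : ℕ} :
    DefT k (fun _ n0 _ => satK (Nv.eval n0) (J.eval n0 * m)) := by
  unfold satK
  exact (((DefT.polyLen Nv).add (DefT.const 1)).mul (((DefT.const 2).mul
    ((DefT.polyLen J).mul (DefT.const m))).add (DefT.const 1))).mul (DefT.const 3)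

/-- the type of a node -/
def sd (k : ℕ) : Bool := decide (k % 3 = 0)

theorem def_ctr {V : Type*} (x y : V) (p : V → Prop) {k : ℕ} {A : CT k} (hA : DefT k A) :
    DefF k (fun yy n0 w => p (ctr sd x y (A yy n0 w))) := by
  refine (((def_mod hA (by omega : 0 < 3) 0).and (DefF.prop (p x))).or
    ((def_mod hA (by omega : 0 < 3) 0).neg.and (DefF.prop (p y)))).congr (fun yy n0 w => ?_)
  unfold ctr sd
  by_cases h : A yy n0 w % 3 = 0 <;> simp [h]

theorem def_oth {V : Type*} (x y : V) (p : V → Prop) {k : ℕ} {A : CT k} (hA : DefT k A) :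
    DefF k (fun yy n0 w => p (oth sd x y (A yy n0 w))) := by
  refine (((def_mod hA (by omega : 0 < 3) 0).and (DefF.prop (p y))).or
    ((def_mod hA (by omega : 0 < 3) 0).neg.and (DefF.prop (p x)))).congr (fun yy n0 w => ?_)
  unfold oth sd
  by_cases h : A yy n0 w % 3 = 0 <;> simp [h]

theorem def_half {h : ℕ} (H : SimpleGraph (Fin h)) (x y : Fin h) (c : Fin 3 → Fin h)
    (Nv J : Polynomial ℕ) {m : ℕ} (hm : 0 < m) {lit : List Bool → ℕ → ℕ → ℕ}
    (hlit : Unif lit) (s t : Site (Fin h)) {k : ℕ} {A B : CT k} (hA : DefT k A) (hB : DefT k B) :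
    DefF k (fun yy n0 w => Half (satK (Nv.eval n0) (J.eval n0 * m)) sd
      (satPal (Nv.eval n0) (J.eval n0 * m) m) (satLink (Nv.eval n0) (J.eval n0 * m) m (lit yy n0))
      H x y c (A yy n0 w) (B yy n0 w) s t) := by
  have hp : ∀ i, DefF k (fun yy n0 w => satPal (Nv.eval n0) (J.eval n0 * m) m (A yy n0 w) i) :=
    fun i => def_satPal Nv J hm i hA
  have hs : DefF k (fun yy n0 w => sd (A yy n0 w) = true) :=
    (def_mod hA (by omega : 0 < 3) 0).congr (fun yy n0 w => by simp [sd])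
  have hleaf : ∀ v, DefF k (fun yy n0 w =>
      leaf (satPal (Nv.eval n0) (J.eval n0 * m) m) c (A yy n0 w) v) := by
    intro v
    unfold leaf
    exact DefF.exF (fun i => (hp i).and (DefF.prop _))
  unfold Half
  refine DefF.or ?_ (DefF.or ?_ (DefF.or ?_ (DefF.or ?_ (DefF.or ?_ (DefF.or ?_
    (DefF.or ?_ ?_))))))
  · refine DefF.exF (fun u => DefF.exF (fun v => (DefF.prop _).and ((DefF.prop _).and
      ((DefF.eq hA hB).and ((DefF.prop _).and ?_)))))
    unfold Cut
    exact (((def_ctr x y (fun z => u = z) hA).and (hleaf v)).or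
      ((def_ctr x y (fun z => v = z) hA).and (hleaf u))).neg
  · exact DefF.exF (fun i => DefF.exF (fun u => DefF.exF (fun v => (DefF.prop _).and
      ((DefF.prop _).and ((DefF.eq hA hB).and ((DefF.prop _).and (DefF.prop _)))))))
  · refine DefF.exF (fun i => (DefF.prop _).and ((def_ctr x y (fun z => t = (0, inl z)) hA).and
      ((DefF.eq hA hB).and ((hp i).and (hs.or ?_)))))
    refine (DefF.all (P := fun yy n0 w k' => ∀ j, ¬ satLink (Nv.eval n0) (J.eval n0 * m) m
      (lit yy n0) k' j (A yy n0 w) i) (def_K Nv J m) (DefF.allF (fun j =>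
        (def_satLink Nv J hm hlit j i DefT.last hA.init).neg))).congr (fun yy n0 w => ?_)
    constructor
    · intro h1 k' j h2
      exact h1 k' h2.1 j h2
    · intro h1 k' _ j
      exact h1 k' j
  · exact DefF.exF (fun i => DefF.exF (fun j => (DefF.prop _).and ((DefF.prop _).and
      (def_satLink Nv J hm hlit i j hA hB))))
  · exact DefF.exF (fun i => (DefF.prop _).and ((def_ctr x y (fun z => t = (i.succ, inl z))
      hA).and ((DefF.eq hA hB).and (hp i))))
  · refine DefF.exF (fun i => (DefF.prop _).and ((def_oth x y (fun z => t = (i.succ, inl z))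
      hB).and ?_))
    refine (((DefF.lt (hA.add (DefT.const 1)) (def_K Nv J m)).and
      (DefF.eq hB (hA.add (DefT.const 1)))).or
      ((DefF.lt (hA.add (DefT.const 1)) (def_K Nv J m)).neg.and
      (DefF.eq hB (DefT.const 0)))).congr (fun yy n0 w => ?_)
    unfold nxt
    split_ifs <;> omega
  · exact DefF.exF (fun i => (DefF.prop _).and ((DefF.prop _).and (DefF.eq hA hB)))
  · exact DefF.exF (fun i => (DefF.prop _).and ((def_ctr x y (fun z => t = (i.succ, inl z))
      hA).and ((DefF.eq hA hB).and (hp i).neg)))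

theorem def_adj {h : ℕ} (H : SimpleGraph (Fin h)) (x y : Fin h) (c : Fin 3 → Fin h)
    (Nv J : Polynomial ℕ) {m : ℕ} (hm : 0 < m) {lit : List Bool → ℕ → ℕ → ℕ}
    (hlit : Unif lit) :
    DefF 2 (fun yy n0 w => AdjNum (satK (Nv.eval n0) (J.eval n0 * m)) sd
      (satPal (Nv.eval n0) (J.eval n0 * m) m)
      (satLink (Nv.eval n0) (J.eval n0 * m) m (lit yy n0)) H x y c (w 0) (w 1)) := by
  unfold AdjNum
  refine DefF.exF (fun s => DefF.exF (fun t => ?_))
  have hk : DefT 4 (fun _ _ w => (Fin.init w : Fin 3 → ℕ) (Fin.last 2)) := DefT.last.init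
  have hl : DefT 4 (fun _ _ w => w (Fin.last 3)) := DefT.last
  have h0 : DefT 4 (fun _ _ w => (Fin.init (Fin.init w : Fin 3 → ℕ) : Fin 2 → ℕ) 0) :=
    (DefT.var 0).init.init
  have h1 : DefT 4 (fun _ _ w => (Fin.init (Fin.init w : Fin 3 → ℕ) : Fin 2 → ℕ) 1) :=
    (DefT.var 1).init.init
  refine DefF.ex (P := fun yy n0 w a => ∃ b < satK (Nv.eval n0) (J.eval n0 * m),
    w 0 = siteNum s + 4 * (h + 3) * a ∧ w 1 = siteNum t + 4 * (h + 3) * b ∧ ¬ (a = b ∧ s = t) ∧
      (Half (satK (Nv.eval n0) (J.eval n0 * m)) sd (satPal (Nv.eval n0) (J.eval n0 * m) m)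
        (satLink (Nv.eval n0) (J.eval n0 * m) m (lit yy n0)) H x y c a b s t ∨
      Half (satK (Nv.eval n0) (J.eval n0 * m)) sd (satPal (Nv.eval n0) (J.eval n0 * m) m)
        (satLink (Nv.eval n0) (J.eval n0 * m) m (lit yy n0)) H x y c b a t s))
    (def_K Nv J m) ?_
  refine DefF.ex (P := fun yy n0 w b =>
    (Fin.init w : Fin 2 → ℕ) 0 = siteNum s + 4 * (h + 3) * w (Fin.last 2) ∧
    (Fin.init w : Fin 2 → ℕ) 1 = siteNum t + 4 * (h + 3) * b ∧ ¬ (w (Fin.last 2) = b ∧ s = t) ∧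
      (Half (satK (Nv.eval n0) (J.eval n0 * m)) sd (satPal (Nv.eval n0) (J.eval n0 * m) m)
        (satLink (Nv.eval n0) (J.eval n0 * m) m (lit yy n0)) H x y c (w (Fin.last 2)) b s t ∨
      Half (satK (Nv.eval n0) (J.eval n0 * m)) sd (satPal (Nv.eval n0) (J.eval n0 * m) m)
        (satLink (Nv.eval n0) (J.eval n0 * m) m (lit yy n0)) H x y c b (w (Fin.last 2)) t s))
    (def_K Nv J m) ?_
  exact (DefF.eq h0 ((DefT.const _).add ((DefT.const _).mul hk))).and
    ((DefF.eq h1 ((DefT.const _).add ((DefT.const _).mul hl))).and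
    ((DefF.and (DefF.eq hk hl) (DefF.prop (s = t))).neg.and
    ((def_half H x y c Nv J hm hlit s t hk hl).or (def_half H x y c Nv J hm hlit t s hl hk))))

end Pool.Agent.LIH
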