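import Mathlib
import Pool.Agent.NPC.Defs

/-!
# Locally injective homomorphisms: definitions
-/

namespace Pool.Agent.LIH

open NPC

/-- `f` is a locally injective homomorphism from `G` to `H`: it maps edges to edges and is
injective on the neighbourhood of every vertex. -/
def LocInj {W V : Type*} (G : SimpleGraph W) (H : SimpleGraph V) (f : W → V) : Prop :=
  (∀ u v, G.Adj u v → H.Adj (f u) (f v)) ∧ ∀ v, Set.InjOn f (G.neighborSet v)

open Classical in
/-- The adjacency matrix of a graph on `0, …, n - 1`, written row by row as a bit string of length
`n * n`: the bit with index `i * n + j` is `1` if and only if `i` and `j` are adjacent. -/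
noncomputable def matrix {n : ℕ} (G : SimpleGraph (Fin n)) : List Bool :=
  List.ofFn fun k : Fin (n * n) => decide (G.Adj k.divNat k.modNat)

/-- The decision problem `H`-LIHOM, as a set of bit strings: the adjacency matrices of the graphs
that admit a locally injective homomorphism to `H`. -/
def LIHOM {V : Type*} (H : SimpleGraph V) : Set (List Bool) :=
  {x | ∃ (n : ℕ) (G : SimpleGraph (Fin n)), x = matrix G ∧ ∃ f : Fin n → V, LocInj G H f}

/-- `L` is NP-complete: it is in NP and every language in NP is polynomial-time many-one reducible
to it. -/
def NPComplete (L : Set (List Bool)) : Prop :=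
  L ∈ NP ∧ ∀ L' ∈ NP, Reduces L' L

/-- Every two distinct vertices have at least four common neighbours. -/
def Rich {V : Type*} (H : SimpleGraph V) : Prop :=
  ∀ u v, u ≠ v → 4 ≤ (H.commonNeighbors u v).ncard

/-- `H` is bipartite, and every two distinct vertices in the same part have at least four common
neighbours. -/
def RichBip {V : Type*} (H : SimpleGraph V) : Prop :=
  ∃ p : V → Bool, (∀ u v, H.Adj u v → p u ≠ p v) ∧
    ∀ u v, u ≠ v → p u = p v → 4 ≤ (H.commonNeighbors u v).ncard

/-- Every two distinct vertices have at least four common neighbours, or the graph is bipartite and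
this holds for every two distinct vertices in the same part. -/
def Rich4 {V : Type*} (H : SimpleGraph V) : Prop := Rich H ∨ RichBip H

/-! ## Removing a star -/

/-- The edge `u v` is one of the edges from the centre `z` to a leaf in `S`. -/
def Cut {V : Type*} (z : V) (S : V → Prop) (u v : V) : Prop := (u = z ∧ S v) ∨ (v = z ∧ S u)

/-- Every map from `V` to `V` that is a locally injective homomorphism from `H` minus the star
`(z, S)` to `H` is injective. -/
def Tight {V : Type*} (H : SimpleGraph V) (z : V) (S : V → Prop) : Prop :=
  ∀ g : V → V, (∀ u v, H.Adj u v → ¬ Cut z S u v → H.Adj (g u) (g v)) →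
    (∀ u v w, H.Adj u v → ¬ Cut z S u v → H.Adj u w → ¬ Cut z S u w → g v = g w → v = w) →
    Function.Injective g

end Pool.Agent.LIH
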