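import Pool.Agent.LIH.Dfn
import Pool.Agent.NPC.Wrap

/-!
# Programs printing a definable 0-1 matrix
-/

namespace Pool.Agent.LIH

open NPC Function

open Classical in
/-- the printed matrix -/
noncomputable def printed (n : ℕ) (P : ℕ → ℕ → Prop) : List Bool :=
  (List.range n).flatMap (fun a => (List.range n).flatMap
    (fun b => if P a b then [true] else [false]))

/-- test a formula, then run `A` or `B` -/
def emit_cond (f : Fm) (s : ℕ → ℕ) (n K : ℕ) (A B : Em) : Em :=
  .lett (.const []) (.lett (f.test s n (K + 2)) (.ifLt K (K + 1) A B))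

open Classical in
theorem emit_cond_eval (y : List Bool) (f : Fm) (s : ℕ → ℕ) (n K : ℕ) (hn : 1 < n) (A B : Em)
    (w : ℕ → ℕ) (hf : f.bd n) (hs : ∀ j < n, s j < K) : ∃ T : ℕ,
    (emit_cond f s n K A B).eval y K w =
      if f.sat y n (fun j => w (s j)) then A.eval y (K + 2) (update (update w K 0) (K + 1) T)
      else B.eval y (K + 2) (update (update w K 0) (K + 1) T) := by
  have hR : Rel s n (K + 2) (fun j => w (s j)) (update w K 0) := by
    intro j hj
    have := hs j hj
    exact ⟨by rw [update_of_ne (by omega)], by omega⟩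
  have h1 := Fm.test_eval y f s n hn (fun j => w (s j)) (K + 2) (update w K 0) hf hR
  refine ⟨((f.test s n (K + 2)).eval y (K + 2) (update w K 0)).length, ?_⟩
  have e1 : (emit_cond f s n K A B).eval y K w = (Em.ifLt K (K + 1) A B).eval y (K + 2)
      (update (update w K 0) (K + 1) ((f.test s n (K + 2)).eval y (K + 2) (update w K 0)).length) := rfl
  rw [e1, Fm.ifLt_eval y K (K + 1) A B (K + 2) _ 0
    ((f.test s n (K + 2)).eval y (K + 2) (update w K 0)).length
    (by rw [update_of_ne (by omega), update_self]) (by rw [update_self])]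
  by_cases h : f.sat y n (fun j => w (s j))
  · rw [if_pos h, if_pos (List.length_pos_iff.2 (h1.2 h))]
  · rw [if_neg h, if_neg]
    intro h2
    exact h (h1.1 (List.length_pos_iff.1 h2))

open Classical in
theorem emit_cond_const (y : List Bool) (f : Fm) (s : ℕ → ℕ) (n K : ℕ) (hn : 1 < n) (a b : List Bool)
    (w : ℕ → ℕ) (hf : f.bd n) (hs : ∀ j < n, s j < K) :
    (emit_cond f s n K (.const a) (.const b)).eval y K w =
      if f.sat y n (fun j => w (s j)) then a else b := by
  obtain ⟨T, hT⟩ := emit_cond_eval y f s n K hn (.const a) (.const b) w hf hs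
  rw [hT]
  rfl

/-- A program printing the `M × M` matrix of a definable relation. The formula variables `2, 3` are
the row and the column. -/
theorem exists_print (M : Polynomial ℕ) {P : CP 2} (hP : DefF 2 P) :
    ∃ e : Em, ∀ x : List Bool, e.fn x =
      printed (M.eval (x.length + 1)) (fun a b => P (prep x) (x.length + 1) ![a, b]) := by
  classical
  obtain ⟨f, hf, hf2⟩ := hP
  obtain ⟨p, hp, hp2⟩ := PE.exists_of_polynomial M
  refine ⟨.lett (p.emit 2) (.loop 1 (.loop 1 (.lett (.const [true])
    (emit_cond f (update id 1 4) 4 5 (.const [true]) (.const [false]))))), ?_⟩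
  intro x
  have e0 : (p.emit 2).eval (prep x) 2 (v0 x) = List.replicate (M.eval (x.length + 1)) true := by
    rw [PE.emit_eval (prep x) p 2 (v0 x) (hp.mono (by omega)), hp2]
    rw [v0, update_self]
  obtain ⟨m, hm⟩ : ∃ m, m = M.eval (x.length + 1) := ⟨_, rfl⟩
  rw [← hm] at e0 ⊢
  obtain ⟨w1, hw1⟩ : ∃ w1, w1 = update (v0 x) 1 m := ⟨_, rfl⟩
  have h0 : w1 0 = x.length + 1 := by rw [hw1, update_of_ne (by omega), v0, update_self]
  have h1 : w1 1 = m := by rw [hw1, update_self]
  have hbody : ∀ a b : ℕ, (Em.lett (.const [true])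
      (emit_cond f (update id 1 4) 4 5 (.const [true]) (.const [false]))).eval (prep x) 4
        (update (update w1 2 a) 3 b) =
      if P (prep x) (x.length + 1) ![a, b] then [true] else [false] := by
    intro a b
    have e1 : (Em.lett (.const [true])
      (emit_cond f (update id 1 4) 4 5 (.const [true]) (.const [false]))).eval (prep x) 4
        (update (update w1 2 a) 3 b) = (emit_cond f (update id 1 4) 4 5 (.const [true]) (.const [false])).eval
          (prep x) 5 (update (update (update w1 2 a) 3 b) 4 1) := rfl
    rw [e1, emit_cond_const (prep x) f (update id 1 4) 4 5 (by omega) [true] [false] _ hf (by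
      intro j hj
      by_cases h : j = 1
      · subst h; rw [update_self]; omega
      · rw [update_of_ne h]; simp only [id]; omega)]
    have h2 := hf2 (prep x) (fun j => update (update (update w1 2 a) 3 b) 4 1 (update id 1 4 j)) (by
      simp only [update_self])
    have h3 : (fun j => update (update (update w1 2 a) 3 b) 4 1 (update id 1 4 j)) 0 = x.length + 1 := by
      simp only []
      rw [update_of_ne (by omega : (0 : ℕ) ≠ 1)]
      simp only [id]
      rw [update_of_ne (by omega), update_of_ne (by omega), update_of_ne (by omega), h0]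
    have h4 : (fun i : Fin 2 => (fun j => update (update (update w1 2 a) 3 b) 4 1 (update id 1 4 j)) (i.1 + 2)) =
        ![a, b] := by
      funext i
      fin_cases i
      · simp
      · simp
    beta_reduce at h2 h3 h4
    rw [h3, h4] at h2
    by_cases h5 : P (prep x) (x.length + 1) ![a, b]
    · rw [if_pos h5, if_pos (h2.2 h5)]
    · rw [if_neg h5, if_neg (fun h6 => h5 (h2.1 h6))]
  have hrow : ∀ a : ℕ, (Em.loop 1 (.lett (.const [true])
      (emit_cond f (update id 1 4) 4 5 (.const [true]) (.const [false])))).eval (prep x) 3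
        (update w1 2 a) = (List.range m).flatMap (fun b => if P (prep x) (x.length + 1) ![a, b] then
          [true] else [false]) := by
    intro a
    have e1 : (Em.loop 1 (.lett (.const [true])
      (emit_cond f (update id 1 4) 4 5 (.const [true]) (.const [false])))).eval (prep x) 3
        (update w1 2 a) = (List.range (update w1 2 a 1)).flatMap (fun b => (Em.lett (.const [true])
      (emit_cond f (update id 1 4) 4 5 (.const [true]) (.const [false]))).eval (prep x) 4
        (update (update w1 2 a) 3 b)) := rfl
    rw [e1, update_of_ne (by omega), h1]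
    simp only [hbody]
  have e2 : (Em.lett (p.emit 2) (.loop 1 (.loop 1 (.lett (.const [true])
    (emit_cond f (update id 1 4) 4 5 (.const [true]) (.const [false])))))).fn x =
      (List.range (update (v0 x) 1 ((p.emit 2).eval (prep x) 2 (v0 x)).length 1)).flatMap (fun a =>
      (Em.loop 1 (.lett (.const [true])
      (emit_cond f (update id 1 4) 4 5 (.const [true]) (.const [false])))).eval (prep x) 3
        (update (update (v0 x) 1 ((p.emit 2).eval (prep x) 2 (v0 x)).length) 2 a)) := rfl
  rw [e2, e0, List.length_replicate, ← hw1, h1]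
  simp only [hrow]
  rfl

/-- A program that computes the number `n` of the `j < |w| + 1` satisfying a definable condition,
tests a definable condition on `n` and then prints a one and the `n × n` matrix of a definable
relation, or else prints nothing. -/
theorem exists_verifier {Q : CP 1} {C : CP 1} {P : CP 3} (hQ : DefF 1 Q) (hC : DefF 1 C)
    (hP : DefF 3 P) :
    ∃ e : Em, ∀ (w : List Bool) (n : ℕ),
      {j | j < w.length + 1 ∧ Q (prep w) (w.length + 1) ![j]}.ncard = n →
      (C (prep w) (w.length + 1) ![n] → e.fn w =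
        true :: printed n (fun a b => P (prep w) (w.length + 1) ![n, a, b])) ∧
      (¬ C (prep w) (w.length + 1) ![n] → e.fn w = []) := by
  classical
  obtain ⟨fQ, hfQ, hQ2⟩ := hQ
  obtain ⟨fC, hfC, hC2⟩ := hC
  obtain ⟨fP, hfP, hP2⟩ := hP
  obtain ⟨E1, hE1⟩ : ∃ E1 : Em, E1 = .loop 0 (.lett (.const [true])
    (emit_cond fQ (update id 1 3) 3 4 (.const [true]) (.const []))) := ⟨_, rfl⟩
  obtain ⟨s2, hs2⟩ : ∃ s2 : ℕ → ℕ, s2 = update (update id 1 2) 2 1 := ⟨_, rfl⟩
  obtain ⟨s3, hs3⟩ : ∃ s3 : ℕ → ℕ, s3 = update (update (update (update id 1 2) 2 1) 3 5) 4 6 := ⟨_, rfl⟩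
  obtain ⟨E3, hE3⟩ : ∃ E3 : Em, E3 = emit_cond fP s3 5 7 (.const [true]) (.const [false]) := ⟨_, rfl⟩
  obtain ⟨E2, hE2⟩ : ∃ E2 : Em, E2 = .seq (.const [true]) (.loop 1 (.loop 1 E3)) := ⟨_, rfl⟩
  refine ⟨.lett E1 (.lett (.const [true]) (emit_cond fC s2 3 3 E2 (.const []))), ?_⟩
  intro x n hn
  have hv0 : v0 x 0 = x.length + 1 := by rw [v0, update_self]
  -- the count
  have hb1 : ∀ j : ℕ, (Em.lett (.const [true])
      (emit_cond fQ (update id 1 3) 3 4 (.const [true]) (.const []))).eval (prep x) 3
        (update (v0 x) 2 j) = if Q (prep x) (x.length + 1) ![j] then [true] else [] := by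
    intro j
    have e1 : (Em.lett (.const [true])
      (emit_cond fQ (update id 1 3) 3 4 (.const [true]) (.const []))).eval (prep x) 3
        (update (v0 x) 2 j) = (emit_cond fQ (update id 1 3) 3 4 (.const [true]) (.const [])).eval
          (prep x) 4 (update (update (v0 x) 2 j) 3 1) := rfl
    rw [e1, emit_cond_const (prep x) fQ (update id 1 3) 3 4 (by omega) [true] [] _ hfQ (by
      intro j hj
      by_cases h : j = 1
      · subst h; rw [update_self]; omega
      · rw [update_of_ne h]; simp only [id]; omega)]
    have h2 := hQ2 (prep x) (fun i => update (update (v0 x) 2 j) 3 1 (update id 1 3 i)) (by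
      simp only [update_self])
    have h3 : (fun i => update (update (v0 x) 2 j) 3 1 (update id 1 3 i)) 0 = x.length + 1 := by
      simp only []
      rw [update_of_ne (by omega : (0 : ℕ) ≠ 1)]
      simp only [id]
      rw [update_of_ne (by omega), update_of_ne (by omega), hv0]
    have h4 : (fun i : Fin 1 => (fun i => update (update (v0 x) 2 j) 3 1 (update id 1 3 i)) (i.1 + 2)) =
        ![j] := by
      funext i
      fin_cases i
      simp
    beta_reduce at h2 h3 h4
    rw [h3, h4] at h2
    by_cases h5 : Q (prep x) (x.length + 1) ![j]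
    · rw [if_pos h5, if_pos (h2.2 h5)]
    · rw [if_neg h5, if_neg (fun h6 => h5 (h2.1 h6))]
  have hE1' : E1.eval (prep x) 2 (v0 x) = List.replicate n true := by
    have e1 : E1.eval (prep x) 2 (v0 x) = (List.range (v0 x 0)).flatMap (fun j => (Em.lett (.const [true])
      (emit_cond fQ (update id 1 3) 3 4 (.const [true]) (.const []))).eval (prep x) 3
        (update (v0 x) 2 j)) := by rw [hE1]; rfl
    rw [e1, hv0]
    simp only [hb1]
    rw [flatMap_ite]
    congr 1
    rw [← hn]
    have h6 : {j | j < x.length + 1 ∧ Q (prep x) (x.length + 1) ![j]} =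
        (((List.range (x.length + 1)).filter (fun c => decide (Q (prep x) (x.length + 1) ![c]))).toFinset : Set ℕ) := by
      ext j
      simp
    rw [h6, Set.ncard_coe_finset, List.toFinset_card_of_nodup (List.Nodup.filter _ List.nodup_range)]
  obtain ⟨w1, hw1⟩ : ∃ w1, w1 = update (update (v0 x) 1 n) 2 1 := ⟨_, rfl⟩
  have h0 : w1 0 = x.length + 1 := by
    rw [hw1, update_of_ne (by omega), update_of_ne (by omega), hv0]
  have h1 : w1 1 = n := by rw [hw1, update_of_ne (by omega), update_self]
  have h2 : w1 2 = 1 := by rw [hw1, update_self]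
  have eF : (Em.lett E1 (.lett (.const [true]) (emit_cond fC s2 3 3 E2 (.const [])))).fn x =
      (emit_cond fC s2 3 3 E2 (.const [])).eval (prep x) 3 w1 := by
    have e1 : (Em.lett E1 (.lett (.const [true]) (emit_cond fC s2 3 3 E2 (.const [])))).fn x =
      (emit_cond fC s2 3 3 E2 (.const [])).eval (prep x) 3
        (update (update (v0 x) 1 (E1.eval (prep x) 2 (v0 x)).length) 2 1) := rfl
    rw [e1, hE1', List.length_replicate, ← hw1]
  rw [eF]
  obtain ⟨T, hT⟩ := emit_cond_eval (prep x) fC s2 3 3 (by omega) E2 (.const []) w1 hfC (by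
    intro j hj
    rw [hs2]
    interval_cases j <;> simp)
  rw [hT]
  have hsat : fC.sat (prep x) 3 (fun j => w1 (s2 j)) ↔ C (prep x) (x.length + 1) ![n] := by
    have h3 := hC2 (prep x) (fun j => w1 (s2 j)) (by
      simp only [hs2]
      simp [h2])
    have h4 : (fun j => w1 (s2 j)) 0 = x.length + 1 := by
      simp only [hs2]
      simp [h0]
    have h5 : (fun i : Fin 1 => (fun j => w1 (s2 j)) (i.1 + 2)) = ![n] := by
      funext i
      fin_cases i
      simp only [hs2]
      simp [h1]
    beta_reduce at h3 h4 h5
    rw [h4, h5] at h3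
    exact h3
  constructor
  · intro hc
    rw [if_pos (hsat.2 hc)]
    obtain ⟨w2, hw2⟩ : ∃ w2, w2 = update (update w1 3 0) (3 + 1) T := ⟨_, rfl⟩
    rw [← hw2]
    have g0 : w2 0 = x.length + 1 := by
      rw [hw2, update_of_ne (by omega), update_of_ne (by omega), h0]
    have g1 : w2 1 = n := by
      rw [hw2, update_of_ne (by omega), update_of_ne (by omega), h1]
    have g2 : w2 2 = 1 := by
      rw [hw2, update_of_ne (by omega), update_of_ne (by omega), h2]
    have hbody : ∀ a b : ℕ, E3.eval (prep x) 7 (update (update w2 5 a) 6 b) =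
        if P (prep x) (x.length + 1) ![n, a, b] then [true] else [false] := by
      intro a b
      rw [hE3, emit_cond_const (prep x) fP s3 5 7 (by omega) [true] [false] _ hfP (by
        intro j hj
        rw [hs3]
        interval_cases j <;> simp)]
      have h3 := hP2 (prep x) (fun j => update (update w2 5 a) 6 b (s3 j)) (by
        simp only [hs3]
        simp [g2])
      have h4 : (fun j => update (update w2 5 a) 6 b (s3 j)) 0 = x.length + 1 := by
        simp only [hs3]
        simp [g0]
      have h5 : (fun i : Fin 3 => (fun j => update (update w2 5 a) 6 b (s3 j)) (i.1 + 2)) = ![n, a, b] := by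
        funext i
        fin_cases i <;> simp only [hs3] <;> simp [g1]
      beta_reduce at h3 h4 h5
      rw [h4, h5] at h3
      by_cases h6 : P (prep x) (x.length + 1) ![n, a, b]
      · rw [if_pos h6, if_pos (h3.2 h6)]
      · rw [if_neg h6, if_neg (fun h7 => h6 (h3.1 h7))]
    have hrow : ∀ a : ℕ, (Em.loop 1 E3).eval (prep x) 6 (update w2 5 a) =
        (List.range n).flatMap (fun b => if P (prep x) (x.length + 1) ![n, a, b] then [true] else [false]) := by
      intro a
      have e1 : (Em.loop 1 E3).eval (prep x) 6 (update w2 5 a) =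
        (List.range (update w2 5 a 1)).flatMap (fun b => E3.eval (prep x) 7 (update (update w2 5 a) 6 b)) := rfl
      rw [e1, update_of_ne (by omega), g1]
      simp only [hbody]
    have e2 : E2.eval (prep x) (3 + 2) w2 = [true] ++ (List.range (w2 1)).flatMap (fun a =>
        (Em.loop 1 E3).eval (prep x) 6 (update w2 5 a)) := by rw [hE2]; rfl
    rw [e2, g1]
    simp only [hrow]
    rfl
  · intro hc
    rw [if_neg (fun h => hc (hsat.1 h))]
    rfl

end Pool.Agent.LIH
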