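import Pool.Agent.LIH.Dfn
import Pool.Agent.LIH.SatNet
import Pool.Agent.NPC.Wrap

/-!
# Languages in NP as satisfiability of definable formulas

Proof. Take `a, al, Wr, P, N` from `NPC.np_grid`. We may assume `0 < a` (replace `a` by `a + 1`,
`al c s` by `s < a ∧ al c s` and `Wr` by itself; or treat `a = 0`, where `x ∉ L` always, since
`GSolves` fails at the cell `(0, 0)`, by a formula that is not satisfiable).
By `NPC.gsolves_iff`, with `y = prep x`, `n0 = |x| + 1`, `R = N.eval n0 + 2`,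
`x ∈ L` iff some `s : ℕ → Bool` satisfies all clauses
`C.map (glob a R t i)`, `C ∈ cellClauses a al Wr (cls n0 (n0 + 1 + P.eval n0) (N.eval n0) y t i)`.
Every list `cellClauses ...` has length `mcl a`; all its clauses are nonempty; let `m ≥ 1` be at
least the length of all of them (for the finitely many classes `c : Cl`). Put
`J = R * R * mcl a`, `Nv = R * R * a`, and for `τ < J * m`: `q = τ / m`, `k = τ % m`, `p = q / mcl a`,
`j = q % mcl a`, `t = p / R`, `i = p % R`, `C` = the clause number `j` for the class of the cell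
`(t, i)`, `l` = the literal number `k` of `C` if `k < C.length`, the first one otherwise,
`(u, b) = glob a R t i l`, `lit τ = 2 * u` if `b`, `2 * u + 1` otherwise.
Definability: three applications of `DefF.divmod` (`mcl a > 0`, `R > 0`, `m > 0`), then a finite
disjunction over the class, `j` and `k`; `cls ... = cl` is definable by unfolding the `if`s
(`DefF.ite`), using `DefF.bit` for `y[i]? = some true` (there `1 ≤ i`).
-/

namespace Pool.Agent.LIH

open NPC

/-- `np_grid` with a positive number of symbols -/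
theorem grid_pos {L : Set (List Bool)} (hL : L ∈ NP) :
    ∃ (a : ℕ) (al : Cl → ℕ → Prop) (Wr : ℕ → ℕ → ℕ → ℕ → Prop) (P N : Polynomial ℕ), 0 < a ∧
      ∀ x : List Bool, (x.length + 2 + P.eval (x.length + 1) ≤ N.eval (x.length + 1)) ∧
        (x ∈ L ↔ ∃ z, GSolves a al Wr (x.length + 1)
          (x.length + 2 + P.eval (x.length + 1)) (N.eval (x.length + 1)) (false :: x.reverse) z) := by
  obtain ⟨a, al, Wr, P, N, h⟩ := np_grid hL
  refine ⟨a + 1, fun c s => s < a ∧ al c s, Wr, P, N, by omega, ?_⟩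
  intro x
  obtain ⟨h1, h2⟩ := h x
  refine ⟨h1, ?_⟩
  rw [h2]
  constructor
  · rintro ⟨z, hz⟩
    refine ⟨z, fun t ht i hi => ?_⟩
    obtain ⟨g1, g2, g3⟩ := hz t ht i hi
    exact ⟨by omega, ⟨g1, g2⟩, g3⟩
  · rintro ⟨z, hz⟩
    refine ⟨z, fun t ht i hi => ?_⟩
    obtain ⟨_, ⟨g1, g2⟩, g3⟩ := hz t ht i hi
    exact ⟨g1, g2, g3⟩

/-- the list of all classes -/
def grid_cl : List Cl := [.c00, .cL, .cLl, .r0, .r1, .rsep, .rw, .rblank, .mid, .acc, .top, .cR]

theorem grid_mem_cl (c : Cl) : c ∈ grid_cl := by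
  cases c <;> simp [grid_cl]

/-- the clause number `j` of a class -/
noncomputable def grid_C (a : ℕ) (al : Cl → ℕ → Prop) (Wr : ℕ → ℕ → ℕ → ℕ → Prop) (c : Cl) (j : ℕ) :
    List LLit := (cellClauses a al Wr c).getD j []

/-- the literal number `k` of the clause number `j` of a class -/
noncomputable def grid_L (a : ℕ) (al : Cl → ℕ → Prop) (Wr : ℕ → ℕ → ℕ → ℕ → Prop) (c : Cl) (j k : ℕ) :
    LLit := (grid_C a al Wr c j).getD k ((grid_C a al Wr c j).getD 0 ((0, 0), 0, true))

theorem grid_clause {a : ℕ} (ha : 0 < a) (al : Cl → ℕ → Prop) (Wr : ℕ → ℕ → ℕ → ℕ → Prop) (c : Cl)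
    {C : List LLit} (hC : C ∈ cellClauses a al Wr c) :
    C ≠ [] ∧ C.length ≤ a + 4 ∧ ∀ l ∈ C, l.1.1 ≤ 1 ∧ l.1.2 ≤ 2 ∧ l.2.1 < a := by
  classical
  simp only [cellClauses, List.mem_cons, List.mem_append, List.mem_map, List.mem_range] at hC
  rcases hC with rfl | ⟨s, hs, rfl⟩ | ⟨q, hq, rfl⟩
  · refine ⟨?_, ?_, ?_⟩
    · intro h
      have := congrArg List.length h
      simp at this
      omega
    · simp
    · intro l hl
      rw [List.mem_map] at hl
      obtain ⟨s, hs, rfl⟩ := hl
      rw [List.mem_range] at hs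
      exact ⟨by simp, by simp, hs⟩
  · split_ifs with h
    · refine ⟨by simp, by simp, ?_⟩
      intro l hl
      simp only [List.mem_cons, List.not_mem_nil, or_false] at hl
      rcases hl with rfl | rfl <;> exact ⟨by simp, by simp, hs⟩
    · refine ⟨by simp, by simp, ?_⟩
      intro l hl
      simp only [List.mem_cons, List.not_mem_nil, or_false] at hl
      subst hl
      exact ⟨by simp, by simp, hs⟩
  · obtain ⟨q1, q2, q3, q4⟩ := mem_quads.1 hq
    split_ifs with h
    · refine ⟨by simp, by simp, ?_⟩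
      intro l hl
      simp only [List.mem_cons, List.not_mem_nil, or_false] at hl
      rcases hl with rfl | rfl | rfl | rfl <;> refine ⟨by simp, by simp, ?_⟩ <;> assumption
    · refine ⟨by simp, by simp, ?_⟩
      intro l hl
      simp only [List.mem_cons, List.not_mem_nil, or_false] at hl
      rcases hl with rfl | rfl <;> exact ⟨by simp, by simp, q1⟩

theorem grid_C_mem {a : ℕ} (al : Cl → ℕ → Prop) (Wr : ℕ → ℕ → ℕ → ℕ → Prop) (c : Cl)
    {j : ℕ} (hj : j < mcl a) : grid_C a al Wr c j ∈ cellClauses a al Wr c := by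
  unfold grid_C
  have h : j < (cellClauses a al Wr c).length := by rw [length_cellClauses]; exact hj
  rw [List.getD_eq_getElem _ _ h]
  exact List.getElem_mem h

theorem grid_L_mem {a : ℕ} (ha : 0 < a) (al : Cl → ℕ → Prop) (Wr : ℕ → ℕ → ℕ → ℕ → Prop) (c : Cl)
    {j : ℕ} (hj : j < mcl a) (k : ℕ) : grid_L a al Wr c j k ∈ grid_C a al Wr c j := by
  have h1 := (grid_clause ha al Wr c (grid_C_mem al Wr c hj)).1
  have h2 : 0 < (grid_C a al Wr c j).length := List.length_pos_iff.2 h1
  unfold grid_L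
  by_cases hk : k < (grid_C a al Wr c j).length
  · rw [List.getD_eq_getElem _ _ hk]
    exact List.getElem_mem hk
  · rw [List.getD_eq_default _ _ (not_lt.1 hk), List.getD_eq_getElem _ _ h2]
    exact List.getElem_mem h2

/-- the number of a local literal -/
def grid_num (a R t i : ℕ) (l : LLit) : ℕ :=
  2 * (((t + l.1.1) * R + (i + l.1.2)) * a + l.2.1) + (if l.2.2 then 0 else 1)

theorem grid_num_div (a R t i : ℕ) (l : LLit) : grid_num a R t i l / 2 = (glob a R t i l).1 := by
  unfold grid_num glob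
  split_ifs <;> simp only <;> omega

theorem grid_num_mod (a R t i : ℕ) (l : LLit) :
    decide (grid_num a R t i l % 2 = 0) = (glob a R t i l).2 := by
  unfold grid_num glob
  rcases l with ⟨⟨x, y⟩, s, b⟩
  cases b <;> simp <;> omega

/-- the class of a cell -/
def grid_cls (P N : Polynomial ℕ) (y : List Bool) (n0 t i : ℕ) : Cl :=
  cls n0 (n0 + 1 + P.eval n0) (N.eval n0) y t i

/-- the literals -/
noncomputable def grid_lit (a : ℕ) (al : Cl → ℕ → Prop) (Wr : ℕ → ℕ → ℕ → ℕ → Prop)
    (P N : Polynomial ℕ) (y : List Bool) (n0 τ : ℕ) : ℕ :=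
  grid_num a (N.eval n0 + 2) (τ / (a + 4) / mcl a / (N.eval n0 + 2))
    (τ / (a + 4) / mcl a % (N.eval n0 + 2))
    (grid_L a al Wr (grid_cls P N y n0 (τ / (a + 4) / mcl a / (N.eval n0 + 2))
      (τ / (a + 4) / mcl a % (N.eval n0 + 2))) (τ / (a + 4) % mcl a) (τ % (a + 4)))

theorem grid_mcl_pos (a : ℕ) : 0 < mcl a := by unfold mcl; omega

/-! definability -/

theorem grid_def_cls {k : ℕ} (P N : Polynomial ℕ) {T I : CT k} (hT : DefT k T) (hI : DefT k I) (c : Cl) :
    DefF k (fun y n0 w => grid_cls P N y n0 (T y n0 w) (I y n0 w) = c) := by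
  classical
  have c1 : DefF k (fun y n0 w => I y n0 w < 1) := DefF.lt hI (DefT.const 1)
  have c2 : DefF k (fun y n0 w => T y n0 w < 1) := DefF.lt hT (DefT.const 1)
  have c3 : DefF k (fun y n0 w => T y n0 w < N.eval n0 + 1) :=
    DefF.lt hT ((DefT.polyLen N).add (DefT.const 1))
  have c4 : DefF k (fun y n0 w => I y n0 w < N.eval n0) := DefF.lt hI (DefT.polyLen N)
  have c5 : DefF k (fun y n0 w => I y n0 w < n0) := DefF.lt hI DefT.len
  have c6 : DefF k (fun y n0 w => 0 < I y n0 w ∧ y[I y n0 w]? = some true) := DefF.bit hI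
  have c7 : DefF k (fun y n0 w => I y n0 w < n0 + 1) := DefF.lt hI (DefT.len.add (DefT.const 1))
  have c8 : DefF k (fun y n0 w => I y n0 w < n0 + 1 + P.eval n0) :=
    DefF.lt hI ((DefT.len.add (DefT.const 1)).add (DefT.polyLen P))
  have c9 : DefF k (fun y n0 w => I y n0 w < 2) := DefF.lt hI (DefT.const 2)
  have key := c1.ite (c2.ite (DefF.prop (Cl.c00 = c)) (c3.ite (DefF.prop (Cl.cL = c)) (DefF.prop (Cl.cLl = c))))
    (c4.ite (c2.ite (c5.ite (c6.ite (DefF.prop (Cl.r1 = c)) (DefF.prop (Cl.r0 = c)))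
      (c7.ite (DefF.prop (Cl.rsep = c)) (c8.ite (DefF.prop (Cl.rw = c)) (DefF.prop (Cl.rblank = c)))))
      (c3.ite (DefF.prop (Cl.mid = c)) (c9.ite (DefF.prop (Cl.acc = c)) (DefF.prop (Cl.top = c)))))
      (DefF.prop (Cl.cR = c)))
  refine key.congr (fun y n0 w => ?_)
  unfold grid_cls cls
  by_cases h1 : I y n0 w < 1
  · simp only [h1, if_true]
    split_ifs <;> rfl
  · have h0 : 0 < I y n0 w := by omega
    simp only [h1, if_false, h0, true_and]
    split_ifs <;> rfl

/-- the relation for the innermost function -/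
def grid_R3 (a : ℕ) (al : Cl → ℕ → Prop) (Wr : ℕ → ℕ → ℕ → ℕ → Prop) (P N : Polynomial ℕ)
    (y : List Bool) (n0 kk j t i g : ℕ) : Prop :=
  ∃ c ∈ grid_cl, ∃ j' : Fin (mcl a), ∃ k' : Fin (a + 4), grid_cls P N y n0 t i = c ∧ j = j'.1 ∧ kk = k'.1 ∧
    grid_num a (N.eval n0 + 2) t i (grid_L a al Wr c j'.1 k'.1) = g

theorem grid_def_R3 {k : ℕ} (a : ℕ) (al : Cl → ℕ → Prop) (Wr : ℕ → ℕ → ℕ → ℕ → Prop) (P N : Polynomial ℕ)
    {K J T I G : CT k} (hK : DefT k K) (hJ : DefT k J) (hT : DefT k T) (hI : DefT k I) (hG : DefT k G) :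
    DefF k (fun y n0 w => grid_R3 a al Wr P N y n0 (K y n0 w) (J y n0 w) (T y n0 w) (I y n0 w) (G y n0 w)) := by
  unfold grid_R3
  apply DefF.exL
  intro c _
  apply DefF.exF
  intro j'
  apply DefF.exF
  intro k'
  refine (grid_def_cls P N hT hI c).and ((DefF.eq hJ (DefT.const _)).and ((DefF.eq hK (DefT.const _)).and ?_))
  set l := grid_L a al Wr c j'.1 k'.1 with hl
  have h := DefF.eq ((((DefT.const 2).mul (((((hT.add (DefT.const l.1.1)).mul
    ((DefT.polyLen N).add (DefT.const 2))).add (hI.add (DefT.const l.1.2))).mul (DefT.const a)).add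
      (DefT.const l.2.1)))).add (DefT.const (if l.2.2 then 0 else 1))) hG
  exact h

theorem grid_R3_iff {a : ℕ} (al : Cl → ℕ → Prop) (Wr : ℕ → ℕ → ℕ → ℕ → Prop) (P N : Polynomial ℕ)
    (y : List Bool) (n0 kk j t i g : ℕ) (hk : kk < a + 4) (hj : j < mcl a) :
    grid_R3 a al Wr P N y n0 kk j t i g ↔
      grid_num a (N.eval n0 + 2) t i (grid_L a al Wr (grid_cls P N y n0 t i) j kk) = g := by
  unfold grid_R3
  constructor
  · rintro ⟨c, _, j', k', rfl, rfl, rfl, h⟩
    exact h
  · intro h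
    exact ⟨_, grid_mem_cl _, ⟨j, hj⟩, ⟨kk, hk⟩, rfl, rfl, rfl, h⟩

theorem grid_def {k : ℕ} (a : ℕ) (al : Cl → ℕ → Prop) (Wr : ℕ → ℕ → ℕ → ℕ → Prop) (P N : Polynomial ℕ)
    {F G : CT k} (hF : DefT k F) (hG : DefT k G) :
    DefF k (fun y n0 w => grid_lit a al Wr P N y n0 (F y n0 w) = G y n0 w) := by
  have h : DefF k (fun y n0 w => grid_R3 a al Wr P N y n0 (F y n0 w % (a + 4)) (F y n0 w / (a + 4) % mcl a)
      (F y n0 w / (a + 4) / mcl a / (N.eval n0 + 2)) (F y n0 w / (a + 4) / mcl a % (N.eval n0 + 2))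
      (G y n0 w)) := by
    refine DefF.divmod (P := fun y n0 w q kk => grid_R3 a al Wr P N y n0 kk (q % mcl a)
      (q / mcl a / (N.eval n0 + 2)) (q / mcl a % (N.eval n0 + 2)) (G y n0 w)) hF (DefT.const (a + 4))
      (fun _ _ _ => by omega) ?_
    refine DefF.divmod (A := fun y n0 w => (Fin.init w : Fin (k + 1) → ℕ) (Fin.last k))
      (P := fun y n0 w p j => grid_R3 a al Wr P N y n0 (w (Fin.last (k + 1))) j
      (p / (N.eval n0 + 2)) (p % (N.eval n0 + 2)) (G y n0 (Fin.init (Fin.init w)))) (DefT.last.init)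
      (DefT.const (mcl a)) (fun _ _ _ => grid_mcl_pos a) ?_
    refine DefF.divmod (A := fun y n0 w => (Fin.init w : Fin (k + 3) → ℕ) (Fin.last (k + 2)))
      (B := fun y n0 w => N.eval n0 + 2)
      (P := fun y n0 w t i => grid_R3 a al Wr P N y n0 ((Fin.init (Fin.init w) : Fin (k + 2) → ℕ) (Fin.last (k + 1)))
        (w (Fin.last (k + 3))) t i (G y n0 (Fin.init (Fin.init (Fin.init (Fin.init w)))))) (DefT.last.init)
      ((DefT.polyLen N).add (DefT.const 2)) (fun _ _ _ => by omega) ?_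
    exact grid_def_R3 a al Wr P N DefT.last.init.init.init.init DefT.last.init.init DefT.last.init DefT.last
      hG.init.init.init.init.init.init
  refine h.congr (fun y n0 w => ?_)
  rw [grid_R3_iff al Wr P N y n0 _ _ _ _ _ (Nat.mod_lt _ (by omega)) (Nat.mod_lt _ (grid_mcl_pos a))]
  rfl

theorem np_sat {L : Set (List Bool)} (hL : L ∈ NP) :
    ∃ (m : ℕ) (Nv J : Polynomial ℕ) (lit : List Bool → ℕ → ℕ → ℕ), 0 < m ∧
      (∀ n0, 0 < Nv.eval n0) ∧
      (∀ x : List Bool, ∀ τ < J.eval (x.length + 1) * m,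
        lit (prep x) (x.length + 1) τ < 2 * Nv.eval (x.length + 1)) ∧
      (∀ x : List Bool, x ∈ L ↔
        SatOK (J.eval (x.length + 1)) m (lit (prep x) (x.length + 1))) ∧
      ∀ (k : ℕ) (F G : CT k), DefT k F → DefT k G →
        DefF k (fun y n0 w => lit y n0 (F y n0 w) = G y n0 w) := by
  obtain ⟨a, al, Wr, P, N, ha, h⟩ := grid_pos hL
  have hmcl := grid_mcl_pos a
  refine ⟨a + 4, ((N + 2) * (N + 2) + (N + 2) + 2) * Polynomial.C a, (N + 2) * (N + 2) * Polynomial.C (mcl a),
    grid_lit a al Wr P N, by omega, ?_, ?_, ?_, fun k F G hF hG => grid_def a al Wr P N hF hG⟩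
  · intro n0
    simp only [Polynomial.eval_mul, Polynomial.eval_add, Polynomial.eval_C, Polynomial.eval_ofNat]
    positivity
  · intro x τ hτ
    simp only [Polynomial.eval_mul, Polynomial.eval_add, Polynomial.eval_C, Polynomial.eval_ofNat] at hτ ⊢
    unfold grid_lit
    set n0 := x.length + 1
    set R := N.eval n0 + 2 with hR
    have h1 : τ / (a + 4) < R * R * mcl a := Nat.div_lt_of_lt_mul (by rw [mul_comm]; exact hτ)
    have h2 : τ / (a + 4) / mcl a < R * R := Nat.div_lt_of_lt_mul (by rw [mul_comm]; exact h1)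
    have h3 : τ / (a + 4) / mcl a / R < R := Nat.div_lt_of_lt_mul h2
    have h4 : τ / (a + 4) / mcl a % R < R := Nat.mod_lt _ (by omega)
    have h5 : τ / (a + 4) % mcl a < mcl a := Nat.mod_lt _ hmcl
    set t := τ / (a + 4) / mcl a / R
    set i := τ / (a + 4) / mcl a % R
    set j := τ / (a + 4) % mcl a
    set l := grid_L a al Wr (grid_cls P N (prep x) n0 t i) j (τ % (a + 4)) with hl
    obtain ⟨g1, g2, g3⟩ := (grid_clause ha al Wr _ (grid_C_mem al Wr _ h5)).2.2 l
      (grid_L_mem ha al Wr _ h5 _)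
    unfold grid_num
    have h6 : (t + l.1.1) * R ≤ R * R := Nat.mul_le_mul_right R (by omega)
    have h7 : ((t + l.1.1) * R + (i + l.1.2)) * a ≤ (R * R + R + 1) * a := Nat.mul_le_mul_right a (by omega)
    have h8 : (R * R + R + 2) * a = (R * R + R + 1) * a + a := by ring
    have h9 : (if l.2.2 = true then 0 else 1) ≤ 1 := by split_ifs <;> omega
    omega
  · intro x
    obtain ⟨h1, h2⟩ := h x
    have hN : 0 < N.eval (x.length + 1) := by omega
    rw [h2, gsolves_iff a al Wr _ _ _ hN]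
    simp only [Polynomial.eval_mul, Polynomial.eval_add, Polynomial.eval_C, Polynomial.eval_ofNat]
    unfold SatOK
    set n0 := x.length + 1 with hn0
    set R := N.eval n0 + 2 with hR
    have hcl : ∀ t i, cls n0 (x.length + 2 + P.eval n0) (N.eval n0) (false :: x.reverse) t i =
        grid_cls P N (prep x) n0 t i := by
      intro t i
      unfold grid_cls
      rw [show n0 + 1 + P.eval n0 = x.length + 2 + P.eval n0 by omega]
      rfl
    simp only [hcl]
    constructor
    · rintro ⟨s, hs⟩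
      refine ⟨s, fun j0 hj0 => ?_⟩
      have e2 : j0 / mcl a < R * R := Nat.div_lt_of_lt_mul (by rw [mul_comm]; exact hj0)
      have e3 : j0 / mcl a / R < R := Nat.div_lt_of_lt_mul e2
      have e4 : j0 / mcl a % R < R := Nat.mod_lt _ (by omega)
      have e5 : j0 % mcl a < mcl a := Nat.mod_lt _ hmcl
      obtain ⟨l, hl, hl2⟩ := hs _ e3 _ e4 _ (grid_C_mem al Wr (grid_cls P N (prep x) n0 (j0 / mcl a / R) (j0 / mcl a % R)) e5)
      rw [List.mem_map] at hl
      obtain ⟨l', hl', rfl⟩ := hl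
      obtain ⟨k, hk, hk2⟩ := List.getElem_of_mem hl'
      have hlen := (grid_clause ha al Wr _ (grid_C_mem al Wr (grid_cls P N (prep x) n0 (j0 / mcl a / R) (j0 / mcl a % R)) e5)).2.1
      refine ⟨k, lt_of_lt_of_le hk hlen, ?_⟩
      have d1 : (j0 * (a + 4) + k) / (a + 4) = j0 := by
        rw [Nat.mul_comm, Nat.mul_add_div (by omega), Nat.div_eq_of_lt (by omega), Nat.add_zero]
      have d2 : (j0 * (a + 4) + k) % (a + 4) = k := by
        rw [Nat.mul_comm, Nat.mul_add_mod, Nat.mod_eq_of_lt (by omega)]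
      have hlit : grid_lit a al Wr P N (prep x) n0 (j0 * (a + 4) + k) =
          grid_num a R (j0 / mcl a / R) (j0 / mcl a % R) l' := by
        unfold grid_lit
        rw [d1, d2]
        congr 1
        unfold grid_L
        rw [List.getD_eq_getElem _ _ hk, hk2]
      rw [hlit, grid_num_div, grid_num_mod]
      exact hl2
    · rintro ⟨s, hs⟩
      refine ⟨s, fun t ht i hi C hC => ?_⟩
      obtain ⟨j, hj, hj2⟩ := List.getElem_of_mem hC
      rw [length_cellClauses] at hj
      have b1 : t * R + i < R * R := by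
        have : t * R + R ≤ R * R := by
          have := Nat.mul_le_mul_right R (show t + 1 ≤ R by omega)
          linarith
        omega
      have b2 : (t * R + i) * mcl a + j < R * R * mcl a := by
        have := Nat.mul_le_mul_right (mcl a) (show t * R + i + 1 ≤ R * R by omega)
        have h3 : (t * R + i + 1) * mcl a = (t * R + i) * mcl a + mcl a := by ring
        omega
      obtain ⟨k, hk, hk2⟩ := hs _ b2
      set j0 := (t * R + i) * mcl a + j with hj0
      have d1 : (j0 * (a + 4) + k) / (a + 4) = j0 := by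
        rw [Nat.mul_comm, Nat.mul_add_div (by omega), Nat.div_eq_of_lt (by omega), Nat.add_zero]
      have d2 : (j0 * (a + 4) + k) % (a + 4) = k := by
        rw [Nat.mul_comm, Nat.mul_add_mod, Nat.mod_eq_of_lt (by omega)]
      have d3 : j0 / mcl a = t * R + i := by
        rw [hj0, Nat.mul_comm, Nat.mul_add_div hmcl, Nat.div_eq_of_lt hj, Nat.add_zero]
      have d4 : j0 % mcl a = j := by
        rw [hj0, Nat.mul_comm, Nat.mul_add_mod, Nat.mod_eq_of_lt hj]
      have d5 : (t * R + i) / R = t := by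
        rw [Nat.mul_comm, Nat.mul_add_div (by omega), Nat.div_eq_of_lt (by omega), Nat.add_zero]
      have d6 : (t * R + i) % R = i := by
        rw [Nat.mul_comm, Nat.mul_add_mod, Nat.mod_eq_of_lt (by omega)]
      have hCj : grid_C a al Wr (grid_cls P N (prep x) n0 t i) j = C := by
        unfold grid_C
        rw [List.getD_eq_getElem _ _ (by rw [length_cellClauses]; exact hj), hj2]
      have hlit : grid_lit a al Wr P N (prep x) n0 (j0 * (a + 4) + k) =
          grid_num a R t i (grid_L a al Wr (grid_cls P N (prep x) n0 t i) j k) := by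
        unfold grid_lit
        rw [d1, d2, d3, d4, d5, d6]
      rw [hlit, grid_num_div, grid_num_mod] at hk2
      refine ⟨glob a R t i (grid_L a al Wr (grid_cls P N (prep x) n0 t i) j k), ?_, hk2⟩
      rw [List.mem_map]
      refine ⟨_, ?_, rfl⟩
      rw [← hCj]
      exact grid_L_mem ha al Wr _ hj k

end Pool.Agent.LIH
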