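import Pool.Agent.LIH.Net

/-!
# A solution of a network gives a locally injective homomorphism

Proof. `f (k, ρ, inl v) = v`; `f (k, 0, inr i) = c (col k i)`; `f (k, i + 1, inr 0) = ctr (nxt k)`;
`f (k, i + 1, inr 1) = c i`; `f (k, i + 1, inr 2)` is arbitrary (isolated vertex). Check the eight
kinds of edges, and for each vertex that its neighbours have distinct colours: inside a copy, the
neighbours of `v` have as colours the vertices adjacent to `v` in `H` minus the star; the other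
neighbours of `(k, ρ, inl v)` are
* `ρ = 0`, `v = c i`, `pal k i`: `(k, i + 1, inl (ctr k))`, colour `ctr k`;
* `ρ = 0`, `v = ctr k`: for `pal k i` the vertex `(k, 0, inr i)` (x-type or not linked; y-type and
  `link l j k i`: `(l, 0, inr j)`), colour `c (col k i)`, different for different `i`;
* `ρ = i + 1`, `v = c i`: `(nxt k, i + 1, inl (oth (nxt k)))`, colour `oth (nxt k)`, and
  `(k, i + 1, inr 0)`, colour `ctr (nxt k)`;
* `ρ = i + 1`, `v = ctr k`: `(k, 0, inl (c i))` if `pal k i`, `(k, i + 1, inr 1)` otherwise,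
  colour `c i`;
* `ρ = i + 1`, `v = oth k`: `(k', i + 1, inl (c i))` where `nxt k' = k`, colour `c i`.
The neighbours of `(k, 0, inr i)` are `(k, 0, inl (ctr k))` and, if `link k i l j`, also
`(l, 0, inl y)` (then `ctr k = x`).
-/

namespace Pool.Agent.LIH

open Sum

section
variable {V : Type*} {H : SimpleGraph V} {x y : V} {c : Fin 3 → V}

theorem NetComplete_cut_symm {z : V} {S : V → Prop} {u v : V} (h : Cut z S u v) : Cut z S v u := by
  rcases h with h | h
  · exact Or.inr h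
  · exact Or.inl h

theorem NetComplete_ctr_adj (hF : Frame H x y c) (side : ℕ → Bool) (k : ℕ) (i : Fin 3) :
    H.Adj (ctr side x y k) (c i) := by
  unfold ctr
  split_ifs
  · exact hF.adjx i
  · exact hF.adjy i

theorem NetComplete_oth_adj (hF : Frame H x y c) (side : ℕ → Bool) (k : ℕ) (i : Fin 3) :
    H.Adj (oth side x y k) (c i) := by
  unfold oth
  split_ifs
  · exact hF.adjy i
  · exact hF.adjx i

theorem NetComplete_ctr_xy (side : ℕ → Bool) (k : ℕ) :
    ctr side x y k = x ∨ ctr side x y k = y := by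
  unfold ctr
  split_ifs
  · exact Or.inl rfl
  · exact Or.inr rfl

theorem NetComplete_oth_xy (side : ℕ → Bool) (k : ℕ) :
    oth side x y k = x ∨ oth side x y k = y := by
  unfold oth
  split_ifs
  · exact Or.inr rfl
  · exact Or.inl rfl

theorem NetComplete_ctr_ne_oth (hF : Frame H x y c) (side : ℕ → Bool) (k : ℕ) :
    ctr side x y k ≠ oth side x y k := by
  unfold ctr oth
  split_ifs
  · exact hF.ne
  · exact hF.ne.symm

theorem NetComplete_nxt_inj {K k k' : ℕ} (hk : k < K) (hk' : k' < K) (h : nxt K k = nxt K k') :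
    k = k' := by
  unfold nxt at h
  split_ifs at h <;> omega

/-- neighbours of the vertices of the main copies -/
theorem NetComplete_nb0 (hF : Frame H x y c) (N : Net) (k l : ℕ) (v : V) (t : Site V)
    (h : Half N.K N.side N.pal N.link H x y c k l (0, inl v) t ∨
      Half N.K N.side N.pal N.link H x y c l k t (0, inl v)) :
    (l = k ∧ ∃ w, t = (0, inl w) ∧ ¬ Cut (ctr N.side x y k) (leaf N.pal c k) v w) ∨
    (∃ i, v = ctr N.side x y k ∧ N.pal k i ∧
      ((l = k ∧ t = (0, inr i) ∧ (N.side k = true ∨ ∀ k' j, ¬ N.link k' j k i)) ∨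
        (∃ j, t = (0, inr j) ∧ N.link l j k i))) ∨
    (∃ i : Fin 3, v = c i ∧ N.pal k i ∧ l = k ∧ t = (i.succ, inl (ctr N.side x y k))) := by
  rcases h with h | h
  · rcases h with ⟨u, w, h1, h2, h3, h4, h5⟩ | ⟨i, u, w, h1, h2, h3, h4, h5⟩ | ⟨i, h1, h2, h3, h4, h5⟩ |
      ⟨i, j, h1, h2, h3⟩ | ⟨i, h1, h2, h3, h4⟩ | ⟨i, h1, h2, h3⟩ | ⟨i, h1, h2, h3⟩ | ⟨i, h1, h2, h3, h4⟩
    · left
      rw [Prod.mk.injEq, Sum.inl.injEq] at h1
      refine ⟨h3.symm, w, h2, ?_⟩
      rw [h1.2]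
      exact h5
    · rw [Prod.mk.injEq] at h1
      exact absurd h1.1 (Fin.succ_ne_zero i).symm
    · rw [Prod.mk.injEq] at h1
      exact absurd h1.2 (by simp)
    · rw [Prod.mk.injEq] at h1
      exact absurd h1.2 (by simp)
    · right; right
      rw [Prod.mk.injEq, Sum.inl.injEq] at h1
      exact ⟨i, h1.2, h4, h3.symm, h2⟩
    · rw [Prod.mk.injEq] at h1
      exact absurd h1.1 (Fin.succ_ne_zero i).symm
    · rw [Prod.mk.injEq] at h1
      exact absurd h1.1 (Fin.succ_ne_zero i).symm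
    · rw [Prod.mk.injEq] at h1
      exact absurd h1.1 (Fin.succ_ne_zero i).symm
  · rcases h with ⟨u, w, h1, h2, h3, h4, h5⟩ | ⟨i, u, w, h1, h2, h3, h4, h5⟩ | ⟨i, h1, h2, h3, h4, h5⟩ |
      ⟨i, j, h1, h2, h3⟩ | ⟨i, h1, h2, h3, h4⟩ | ⟨i, h1, h2, h3⟩ | ⟨i, h1, h2, h3⟩ | ⟨i, h1, h2, h3, h4⟩
    · left
      rw [Prod.mk.injEq, Sum.inl.injEq] at h2
      subst h3
      refine ⟨rfl, u, h1, fun hc => h5 ?_⟩
      rw [← h2.2]
      exact NetComplete_cut_symm hc
    · rw [Prod.mk.injEq] at h2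
      exact absurd h2.1 (Fin.succ_ne_zero i).symm
    · right; left
      rw [Prod.mk.injEq, Sum.inl.injEq] at h2
      subst h3
      exact ⟨i, h2.2, h4, Or.inl ⟨rfl, h1, h5⟩⟩
    · right; left
      rw [Prod.mk.injEq, Sum.inl.injEq] at h2
      obtain ⟨_, _, _, d4, _, d6⟩ := N.link_dom _ _ _ _ h3
      refine ⟨j, ?_, d6, Or.inr ⟨i, h1, h3⟩⟩
      rw [h2.2]
      unfold ctr
      rw [d4]
      simp
    · rw [Prod.mk.injEq] at h2
      exact absurd h2.1 (Fin.succ_ne_zero i).symm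
    · rw [Prod.mk.injEq] at h2
      exact absurd h2.1 (Fin.succ_ne_zero i).symm
    · rw [Prod.mk.injEq] at h2
      exact absurd h2.1 (Fin.succ_ne_zero i).symm
    · rw [Prod.mk.injEq] at h2
      exact absurd h2.1 (Fin.succ_ne_zero i).symm

/-- neighbours of the vertices of the other copies -/
theorem NetComplete_nb1 (hF : Frame H x y c) (N : Net) (k l : ℕ) (i : Fin 3) (v : V) (t : Site V)
    (h : Half N.K N.side N.pal N.link H x y c k l (i.succ, inl v) t ∨
      Half N.K N.side N.pal N.link H x y c l k t (i.succ, inl v)) :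
    (l = k ∧ ∃ w, t = (i.succ, inl w) ∧ ¬ Cut (c i) (fun w => w = x ∨ w = y) v w) ∨
    (v = ctr N.side x y k ∧ l = k ∧
      ((N.pal k i ∧ t = (0, inl (c i))) ∨ (¬ N.pal k i ∧ t = (i.succ, inr 1)))) ∨
    (v = oth N.side x y k ∧ k = nxt N.K l ∧ t = (i.succ, inl (c i))) ∨
    (v = c i ∧ l = nxt N.K k ∧ t = (i.succ, inl (oth N.side x y l))) ∨
    (v = c i ∧ l = k ∧ t = (i.succ, inr 0)) := by
  rcases h with h | h
  · rcases h with ⟨u, w, h1, h2, h3, h4, h5⟩ | ⟨i', u, w, h1, h2, h3, h4, h5⟩ | ⟨i', h1, h2, h3, h4, h5⟩ |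
      ⟨i', j, h1, h2, h3⟩ | ⟨i', h1, h2, h3, h4⟩ | ⟨i', h1, h2, h3⟩ | ⟨i', h1, h2, h3⟩ | ⟨i', h1, h2, h3, h4⟩
    · rw [Prod.mk.injEq] at h1
      exact absurd h1.1 (Fin.succ_ne_zero i)
    · left
      rw [Prod.mk.injEq, Sum.inl.injEq, Fin.succ_inj] at h1
      obtain ⟨e1, e2⟩ := h1
      subst e1
      subst e2
      exact ⟨h3.symm, w, h2, h5⟩
    · rw [Prod.mk.injEq] at h1
      exact absurd h1.1 (Fin.succ_ne_zero i)
    · rw [Prod.mk.injEq] at h1
      exact absurd h1.1 (Fin.succ_ne_zero i)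
    · rw [Prod.mk.injEq] at h1
      exact absurd h1.1 (Fin.succ_ne_zero i)
    · rw [Prod.mk.injEq, Sum.inl.injEq, Fin.succ_inj] at h1
      obtain ⟨e1, e2⟩ := h1
      subst e1
      right; right; right; left
      exact ⟨e2, h3, h2⟩
    · rw [Prod.mk.injEq] at h1
      exact absurd h1.2 (by simp)
    · rw [Prod.mk.injEq] at h1
      exact absurd h1.2 (by simp)
  · rcases h with ⟨u, w, h1, h2, h3, h4, h5⟩ | ⟨i', u, w, h1, h2, h3, h4, h5⟩ | ⟨i', h1, h2, h3, h4, h5⟩ |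
      ⟨i', j, h1, h2, h3⟩ | ⟨i', h1, h2, h3, h4⟩ | ⟨i', h1, h2, h3⟩ | ⟨i', h1, h2, h3⟩ | ⟨i', h1, h2, h3, h4⟩
    · rw [Prod.mk.injEq] at h2
      exact absurd h2.1 (Fin.succ_ne_zero i)
    · left
      rw [Prod.mk.injEq, Sum.inl.injEq, Fin.succ_inj] at h2
      obtain ⟨e1, e2⟩ := h2
      subst e1
      subst e2
      exact ⟨h3, u, h1, fun hc => h5 (NetComplete_cut_symm hc)⟩
    · rw [Prod.mk.injEq] at h2
      exact absurd h2.1 (Fin.succ_ne_zero i)
    · rw [Prod.mk.injEq] at h2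
      exact absurd h2.1 (Fin.succ_ne_zero i)
    · rw [Prod.mk.injEq, Sum.inl.injEq, Fin.succ_inj] at h2
      obtain ⟨e1, e2⟩ := h2
      subst e1
      subst h3
      right; left
      exact ⟨e2, rfl, Or.inl ⟨h4, h1⟩⟩
    · rw [Prod.mk.injEq, Sum.inl.injEq, Fin.succ_inj] at h2
      obtain ⟨e1, e2⟩ := h2
      subst e1
      right; right; left
      exact ⟨e2, h3, h1⟩
    · rw [Prod.mk.injEq, Sum.inl.injEq, Fin.succ_inj] at h2
      obtain ⟨e1, e2⟩ := h2
      subst e1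
      right; right; right; right
      exact ⟨e2, h3, h1⟩
    · rw [Prod.mk.injEq, Sum.inl.injEq, Fin.succ_inj] at h2
      obtain ⟨e1, e2⟩ := h2
      subst e1
      subst h3
      right; left
      exact ⟨e2, rfl, Or.inr ⟨h4, h1⟩⟩

/-- neighbours of the port vertices -/
theorem NetComplete_nb2 (N : Net) (k l : ℕ) (i : Fin 3) (t : Site V)
    (h : Half N.K N.side N.pal N.link H x y c k l (0, inr i) t ∨
      Half N.K N.side N.pal N.link H x y c l k t (0, inr i)) :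
    (l = k ∧ t = (0, inl (ctr N.side x y k))) ∨
    (∃ j, t = (0, inl y) ∧ N.link k i l j) := by
  rcases h with h | h
  · rcases h with ⟨u, w, h1, h2, h3, h4, h5⟩ | ⟨i', u, w, h1, h2, h3, h4, h5⟩ | ⟨i', h1, h2, h3, h4, h5⟩ |
      ⟨i', j, h1, h2, h3⟩ | ⟨i', h1, h2, h3, h4⟩ | ⟨i', h1, h2, h3⟩ | ⟨i', h1, h2, h3⟩ | ⟨i', h1, h2, h3, h4⟩
    · rw [Prod.mk.injEq] at h1
      exact absurd h1.2 (by simp)
    · rw [Prod.mk.injEq] at h1
      exact absurd h1.2 (by simp)
    · exact Or.inl ⟨h3.symm, h2⟩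
    · rw [Prod.mk.injEq, Sum.inr.injEq] at h1
      rw [h1.2]
      exact Or.inr ⟨j, h2, h3⟩
    · rw [Prod.mk.injEq] at h1
      exact absurd h1.2 (by simp)
    · rw [Prod.mk.injEq] at h1
      exact absurd h1.2 (by simp)
    · rw [Prod.mk.injEq] at h1
      exact absurd h1.1 (Fin.succ_ne_zero i').symm
    · rw [Prod.mk.injEq] at h1
      exact absurd h1.1 (Fin.succ_ne_zero i').symm
  · rcases h with ⟨u, w, h1, h2, h3, h4, h5⟩ | ⟨i', u, w, h1, h2, h3, h4, h5⟩ | ⟨i', h1, h2, h3, h4, h5⟩ |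
      ⟨i', j, h1, h2, h3⟩ | ⟨i', h1, h2, h3, h4⟩ | ⟨i', h1, h2, h3⟩ | ⟨i', h1, h2, h3⟩ | ⟨i', h1, h2, h3, h4⟩ <;>
    · rw [Prod.mk.injEq] at h2
      exact absurd h2.2 (by simp)

/-- neighbours of the pendant vertices -/
theorem NetComplete_nb3 (N : Net) (k l : ℕ) (i : Fin 3) (j : Fin 3) (t : Site V)
    (h : Half N.K N.side N.pal N.link H x y c k l (i.succ, inr j) t ∨
      Half N.K N.side N.pal N.link H x y c l k t (i.succ, inr j)) :
    (j = 0 ∧ l = k ∧ t = (i.succ, inl (c i))) ∨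
    (j = 1 ∧ l = k ∧ t = (i.succ, inl (ctr N.side x y k))) := by
  rcases h with h | h
  · rcases h with ⟨u, w, h1, h2, h3, h4, h5⟩ | ⟨i', u, w, h1, h2, h3, h4, h5⟩ | ⟨i', h1, h2, h3, h4, h5⟩ |
      ⟨i', j, h1, h2, h3⟩ | ⟨i', h1, h2, h3, h4⟩ | ⟨i', h1, h2, h3⟩ | ⟨i', h1, h2, h3⟩ | ⟨i', h1, h2, h3, h4⟩
    · rw [Prod.mk.injEq] at h1
      exact absurd h1.2 (by simp)
    · rw [Prod.mk.injEq] at h1
      exact absurd h1.2 (by simp)
    · rw [Prod.mk.injEq] at h1
      exact absurd h1.1 (Fin.succ_ne_zero i)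
    · rw [Prod.mk.injEq] at h1
      exact absurd h1.1 (Fin.succ_ne_zero i)
    · rw [Prod.mk.injEq] at h1
      exact absurd h1.2 (by simp)
    · rw [Prod.mk.injEq] at h1
      exact absurd h1.2 (by simp)
    · rw [Prod.mk.injEq, Sum.inr.injEq, Fin.succ_inj] at h1
      obtain ⟨e1, e2⟩ := h1
      subst e1
      exact Or.inl ⟨e2, h3.symm, h2⟩
    · rw [Prod.mk.injEq, Sum.inr.injEq, Fin.succ_inj] at h1
      obtain ⟨e1, e2⟩ := h1
      subst e1
      exact Or.inr ⟨e2, h3.symm, h2⟩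
  · rcases h with ⟨u, w, h1, h2, h3, h4, h5⟩ | ⟨i', u, w, h1, h2, h3, h4, h5⟩ | ⟨i', h1, h2, h3, h4, h5⟩ |
      ⟨i', j, h1, h2, h3⟩ | ⟨i', h1, h2, h3, h4⟩ | ⟨i', h1, h2, h3⟩ | ⟨i', h1, h2, h3⟩ | ⟨i', h1, h2, h3, h4⟩ <;>
    · rw [Prod.mk.injEq] at h2
      exact absurd h2.2 (by simp)

/-- the colouring -/
def NetComplete_f (N : Net) (x y : V) (c : Fin 3 → V) (col : ℕ → Fin 3 → Fin 3) (k : ℕ) : Site V → V
  | (_, inl v) => v
  | (⟨0, _⟩, inr i) => c (col k i)
  | (⟨n + 1, h⟩, inr i) =>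
      if i = 0 then ctr N.side x y (nxt N.K k)
      else if i = 1 then c ⟨n, Nat.lt_of_succ_lt_succ h⟩
      else x

theorem NetComplete_f_inl (N : Net) (col : ℕ → Fin 3 → Fin 3) (k : ℕ) (ρ : Fin 4) (v : V) :
    NetComplete_f N x y c col k (ρ, inl v) = v := by
  obtain ⟨n, hn⟩ := ρ
  cases n <;> rfl

theorem NetComplete_f_port (N : Net) (col : ℕ → Fin 3 → Fin 3) (k : ℕ) (i : Fin 3) :
    NetComplete_f N x y c col k (0, inr i) = c (col k i) := rfl

theorem NetComplete_f_pen0 (N : Net) (col : ℕ → Fin 3 → Fin 3) (k : ℕ) (i : Fin 3) :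
    NetComplete_f N x y c col k (i.succ, inr 0) = ctr N.side x y (nxt N.K k) := rfl

theorem NetComplete_f_pen1 (N : Net) (col : ℕ → Fin 3 → Fin 3) (k : ℕ) (i : Fin 3) :
    NetComplete_f N x y c col k (i.succ, inr 1) = c i := rfl

theorem NetComplete_hom (hF : Frame H x y c) (N : Net) {col : ℕ → Fin 3 → Fin 3} (k l : ℕ)
    (s t : Site V) (h : Half N.K N.side N.pal N.link H x y c k l s t) :
    H.Adj (NetComplete_f N x y c col k s) (NetComplete_f N x y c col l t) := by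
  rcases h with ⟨u, w, h1, h2, h3, h4, h5⟩ | ⟨i, u, w, h1, h2, h3, h4, h5⟩ | ⟨i, h1, h2, h3, h4, h5⟩ |
      ⟨i, j, h1, h2, h3⟩ | ⟨i, h1, h2, h3, h4⟩ | ⟨i, h1, h2, h3⟩ | ⟨i, h1, h2, h3⟩ | ⟨i, h1, h2, h3, h4⟩
  · rw [h1, h2, NetComplete_f_inl, NetComplete_f_inl]
    exact h4
  · rw [h1, h2, NetComplete_f_inl, NetComplete_f_inl]
    exact h4
  · rw [h1, h2, NetComplete_f_inl, NetComplete_f_port]
    exact (NetComplete_ctr_adj hF _ _ _).symm
  · rw [h1, h2, NetComplete_f_inl, NetComplete_f_port]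
    exact (hF.adjy _).symm
  · rw [h1, h2, NetComplete_f_inl, NetComplete_f_inl]
    exact (NetComplete_ctr_adj hF _ _ _).symm
  · rw [h1, h2, NetComplete_f_inl, NetComplete_f_inl]
    exact (NetComplete_oth_adj hF _ _ _).symm
  · rw [h1, h2, NetComplete_f_inl, NetComplete_f_pen0]
    exact NetComplete_ctr_adj hF _ _ _
  · rw [h1, h2, NetComplete_f_inl, NetComplete_f_pen1]
    exact (NetComplete_ctr_adj hF _ _ _).symm

theorem NetComplete_inj0 (hF : Frame H x y c) (N : Net) {col : ℕ → Fin 3 → Fin 3} (hc : N.Sol col)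
    (k l l' : ℕ) (hk : k < N.K) (v : V) (t t' : Site V)
    (h : Half N.K N.side N.pal N.link H x y c k l (0, inl v) t ∨
      Half N.K N.side N.pal N.link H x y c l k t (0, inl v))
    (h' : Half N.K N.side N.pal N.link H x y c k l' (0, inl v) t' ∨
      Half N.K N.side N.pal N.link H x y c l' k t' (0, inl v))
    (e : NetComplete_f N x y c col l t = NetComplete_f N x y c col l' t') : l = l' ∧ t = t' := by
  have key : ∀ (l : ℕ) (t : Site V) (i : Fin 3),
      ((l = k ∧ t = (0, inr i) ∧ (N.side k = true ∨ ∀ k' j, ¬ N.link k' j k i)) ∨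
        (∃ j, t = (0, inr j) ∧ N.link l j k i)) →
      NetComplete_f N x y c col l t = c (col k i) := by
    intro l t i hh
    rcases hh with ⟨h1, h2, _⟩ | ⟨j, h1, h2⟩
    · rw [h1, h2, NetComplete_f_port]
    · rw [h1, NetComplete_f_port, hc.link _ _ _ _ h2]
  have hcc : ∀ i, c i ≠ ctr N.side x y k := by
    intro i hi
    have := NetComplete_ctr_adj hF N.side k i
    rw [hi] at this
    exact H.irrefl this
  rcases NetComplete_nb0 hF N k l v t h with ⟨a1, w, a2, a3⟩ | ⟨i, a1, a2, a3⟩ | ⟨i, a1, a2, a3, a4⟩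
  · rcases NetComplete_nb0 hF N k l' v t' h' with ⟨b1, w', b2, b3⟩ | ⟨i', b1, b2, b3⟩ | ⟨i', b1, b2, b3, b4⟩
    · rw [a2, b2, NetComplete_f_inl, NetComplete_f_inl] at e
      rw [a1, b1, a2, b2, e]
      exact ⟨rfl, rfl⟩
    · rw [key l' t' i' b3, a2, NetComplete_f_inl] at e
      exact absurd (Or.inl ⟨b1, col k i', hc.mem k hk i' b2, e⟩) a3
    · rw [a2, b4, NetComplete_f_inl, NetComplete_f_inl] at e
      exact absurd (Or.inr ⟨e, i', b2, b1⟩) a3
  · rcases NetComplete_nb0 hF N k l' v t' h' with ⟨b1, w', b2, b3⟩ | ⟨i', b1, b2, b3⟩ | ⟨i', b1, b2, b3, b4⟩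
    · rw [key l t i a3, b2, NetComplete_f_inl] at e
      exact absurd (Or.inl ⟨a1, col k i, hc.mem k hk i a2, e.symm⟩) b3
    · rw [key l t i a3, key l' t' i' b3] at e
      have e2 := hc.inj k hk i i' a2 b2 (hF.inj e)
      subst e2
      rcases a3 with ⟨p1, p2, p3⟩ | ⟨j, p1, p2⟩
      · rcases b3 with ⟨q1, q2, q3⟩ | ⟨j', q1, q2⟩
        · rw [p1, q1, p2, q2]
          exact ⟨rfl, rfl⟩
        · exfalso
          rcases p3 with p3 | p3
          · have := (N.link_dom _ _ _ _ q2).2.2.2.1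
            rw [p3] at this
            exact Bool.noConfusion this
          · exact p3 _ _ q2
      · rcases b3 with ⟨q1, q2, q3⟩ | ⟨j', q1, q2⟩
        · exfalso
          rcases q3 with q3 | q3
          · have := (N.link_dom _ _ _ _ p2).2.2.2.1
            rw [q3] at this
            exact Bool.noConfusion this
          · exact q3 _ _ p2
        · obtain ⟨r1, r2⟩ := N.link_inj _ _ _ _ _ _ p2 q2
          rw [p1, q1, r1, r2]
          exact ⟨rfl, rfl⟩
    · exact absurd (b1.symm.trans a1) (hcc i')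
  · rcases NetComplete_nb0 hF N k l' v t' h' with ⟨b1, w', b2, b3⟩ | ⟨i', b1, b2, b3⟩ | ⟨i', b1, b2, b3, b4⟩
    · rw [b2, a4, NetComplete_f_inl, NetComplete_f_inl] at e
      exact absurd (Or.inr ⟨e.symm, i, a2, a1⟩) b3
    · exact absurd (a1.symm.trans b1) (hcc i)
    · have e2 := hF.inj (a1.symm.trans b1)
      subst e2
      rw [a3, b3, a4, b4]
      exact ⟨rfl, rfl⟩

theorem NetComplete_inj1 (hF : Frame H x y c) (N : Net) {col : ℕ → Fin 3 → Fin 3}
    (k l l' : ℕ) (hl : l < N.K) (hl' : l' < N.K) (i : Fin 3) (v : V) (t t' : Site V)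
    (h : Half N.K N.side N.pal N.link H x y c k l (i.succ, inl v) t ∨
      Half N.K N.side N.pal N.link H x y c l k t (i.succ, inl v))
    (h' : Half N.K N.side N.pal N.link H x y c k l' (i.succ, inl v) t' ∨
      Half N.K N.side N.pal N.link H x y c l' k t' (i.succ, inl v))
    (e : NetComplete_f N x y c col l t = NetComplete_f N x y c col l' t') : l = l' ∧ t = t' := by
  have hcx : ∀ z, (z = x ∨ z = y) → z ≠ c i := by
    rintro z (rfl | rfl) hz
    · have := hF.adjx i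
      rw [← hz] at this
      exact H.irrefl this
    · have := hF.adjy i
      rw [← hz] at this
      exact H.irrefl this
  have hctr : ctr N.side x y k ≠ c i := hcx _ (NetComplete_ctr_xy _ _)
  have hoth : oth N.side x y k ≠ c i := hcx _ (NetComplete_oth_xy _ _)
  have hco : ctr N.side x y k ≠ oth N.side x y k := NetComplete_ctr_ne_oth hF _ _
  -- colours of the outer neighbours
  have hB : ∀ (l : ℕ) (t : Site V), ((N.pal k i ∧ t = (0, inl (c i))) ∨ (¬ N.pal k i ∧ t = (i.succ, inr 1))) →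
      NetComplete_f N x y c col l t = c i := by
    intro l t hh
    rcases hh with ⟨_, h1⟩ | ⟨_, h1⟩
    · rw [h1, NetComplete_f_inl]
    · rw [h1, NetComplete_f_pen1]
  rcases NetComplete_nb1 hF N k l i v t h with ⟨a1, w, a2, a3⟩ | ⟨a1, a2, a3⟩ | ⟨a1, a2, a3⟩ | ⟨a1, a2, a3⟩ | ⟨a1, a2, a3⟩
  · rcases NetComplete_nb1 hF N k l' i v t' h' with ⟨b1, w', b2, b3⟩ | ⟨b1, b2, b3⟩ | ⟨b1, b2, b3⟩ | ⟨b1, b2, b3⟩ | ⟨b1, b2, b3⟩
    · rw [a2, b2, NetComplete_f_inl, NetComplete_f_inl] at e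
      rw [a1, b1, a2, b2, e]
      exact ⟨rfl, rfl⟩
    · rw [hB l' t' b3, a2, NetComplete_f_inl] at e
      refine absurd (Or.inr ⟨e, ?_⟩) a3
      rw [b1]; exact NetComplete_ctr_xy _ _
    · rw [a2, b3, NetComplete_f_inl, NetComplete_f_inl] at e
      refine absurd (Or.inr ⟨e, ?_⟩) a3
      rw [b1]; exact NetComplete_oth_xy _ _
    · rw [a2, b3, NetComplete_f_inl, NetComplete_f_inl] at e
      refine absurd (Or.inl ⟨b1, ?_⟩) a3
      rw [e]; exact NetComplete_oth_xy _ _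
    · rw [a2, b3, NetComplete_f_inl, NetComplete_f_pen0] at e
      refine absurd (Or.inl ⟨b1, ?_⟩) a3
      rw [e]; exact NetComplete_ctr_xy _ _
  · rcases NetComplete_nb1 hF N k l' i v t' h' with ⟨b1, w', b2, b3⟩ | ⟨b1, b2, b3⟩ | ⟨b1, b2, b3⟩ | ⟨b1, b2, b3⟩ | ⟨b1, b2, b3⟩
    · rw [hB l t a3, b2, NetComplete_f_inl] at e
      refine absurd (Or.inr ⟨e.symm, ?_⟩) b3
      rw [a1]; exact NetComplete_ctr_xy _ _
    · rcases a3 with ⟨p1, p2⟩ | ⟨p1, p2⟩
      · rcases b3 with ⟨q1, q2⟩ | ⟨q1, q2⟩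
        · rw [a2, b2, p2, q2]; exact ⟨rfl, rfl⟩
        · exact absurd p1 q1
      · rcases b3 with ⟨q1, q2⟩ | ⟨q1, q2⟩
        · exact absurd q1 p1
        · rw [a2, b2, p2, q2]; exact ⟨rfl, rfl⟩
    · exact absurd (a1.symm.trans b1) hco
    · exact absurd (a1.symm.trans b1) hctr
    · exact absurd (a1.symm.trans b1) hctr
  · rcases NetComplete_nb1 hF N k l' i v t' h' with ⟨b1, w', b2, b3⟩ | ⟨b1, b2, b3⟩ | ⟨b1, b2, b3⟩ | ⟨b1, b2, b3⟩ | ⟨b1, b2, b3⟩
    · rw [b2, a3, NetComplete_f_inl, NetComplete_f_inl] at e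
      refine absurd (Or.inr ⟨e.symm, ?_⟩) b3
      rw [a1]; exact NetComplete_oth_xy _ _
    · exact absurd (b1.symm.trans a1) hco
    · have := NetComplete_nxt_inj hl hl' (a2.symm.trans b2)
      rw [a3, b3, this]
      exact ⟨rfl, rfl⟩
    · exact absurd (a1.symm.trans b1) hoth
    · exact absurd (a1.symm.trans b1) hoth
  · rcases NetComplete_nb1 hF N k l' i v t' h' with ⟨b1, w', b2, b3⟩ | ⟨b1, b2, b3⟩ | ⟨b1, b2, b3⟩ | ⟨b1, b2, b3⟩ | ⟨b1, b2, b3⟩
    · rw [b2, a3, NetComplete_f_inl, NetComplete_f_inl] at e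
      refine absurd (Or.inl ⟨a1, ?_⟩) b3
      rw [← e]; exact NetComplete_oth_xy _ _
    · exact absurd (b1.symm.trans a1) hctr
    · exact absurd (b1.symm.trans a1) hoth
    · have : l = l' := a2.trans b2.symm
      subst this
      rw [a3, b3]
      exact ⟨rfl, rfl⟩
    · exfalso
      rw [a3, b3, NetComplete_f_inl, NetComplete_f_pen0, b2, ← a2] at e
      exact NetComplete_ctr_ne_oth hF _ _ e.symm
  · rcases NetComplete_nb1 hF N k l' i v t' h' with ⟨b1, w', b2, b3⟩ | ⟨b1, b2, b3⟩ | ⟨b1, b2, b3⟩ | ⟨b1, b2, b3⟩ | ⟨b1, b2, b3⟩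
    · rw [b2, a3, NetComplete_f_inl, NetComplete_f_pen0] at e
      refine absurd (Or.inl ⟨a1, ?_⟩) b3
      rw [← e]; exact NetComplete_ctr_xy _ _
    · exact absurd (b1.symm.trans a1) hctr
    · exact absurd (b1.symm.trans a1) hoth
    · exfalso
      rw [a3, b3, NetComplete_f_inl, NetComplete_f_pen0, a2, ← b2] at e
      exact NetComplete_ctr_ne_oth hF _ _ e
    · rw [a2, b2, a3, b3]
      exact ⟨rfl, rfl⟩

theorem NetComplete_inj2 (hF : Frame H x y c) (N : Net) {col : ℕ → Fin 3 → Fin 3}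
    (k l l' : ℕ) (i : Fin 3) (t t' : Site V)
    (h : Half N.K N.side N.pal N.link H x y c k l (0, inr i) t ∨
      Half N.K N.side N.pal N.link H x y c l k t (0, inr i))
    (h' : Half N.K N.side N.pal N.link H x y c k l' (0, inr i) t' ∨
      Half N.K N.side N.pal N.link H x y c l' k t' (0, inr i))
    (e : NetComplete_f N x y c col l t = NetComplete_f N x y c col l' t') : l = l' ∧ t = t' := by
  have hx : ∀ l j, N.link k i l j → ctr N.side x y k = x := by
    intro l j hh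
    have := (N.link_dom _ _ _ _ hh).2.2.1
    unfold ctr
    rw [this]
    simp
  rcases NetComplete_nb2 N k l i t h with ⟨a1, a2⟩ | ⟨j, a1, a2⟩
  · rcases NetComplete_nb2 N k l' i t' h' with ⟨b1, b2⟩ | ⟨j', b1, b2⟩
    · rw [a1, b1, a2, b2]; exact ⟨rfl, rfl⟩
    · rw [a2, b1, NetComplete_f_inl, NetComplete_f_inl, hx _ _ b2] at e
      exact absurd e hF.ne
  · rcases NetComplete_nb2 N k l' i t' h' with ⟨b1, b2⟩ | ⟨j', b1, b2⟩
    · rw [a1, b2, NetComplete_f_inl, NetComplete_f_inl, hx _ _ a2] at e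
      exact absurd e.symm hF.ne
    · obtain ⟨r1, _⟩ := N.link_fun _ _ _ _ _ _ a2 b2
      rw [a1, b1, r1]; exact ⟨rfl, rfl⟩

theorem NetComplete_inj3 (N : Net)
    (k l l' : ℕ) (i j : Fin 3) (t t' : Site V)
    (h : Half N.K N.side N.pal N.link H x y c k l (i.succ, inr j) t ∨
      Half N.K N.side N.pal N.link H x y c l k t (i.succ, inr j))
    (h' : Half N.K N.side N.pal N.link H x y c k l' (i.succ, inr j) t' ∨
      Half N.K N.side N.pal N.link H x y c l' k t' (i.succ, inr j)) : l = l' ∧ t = t' := by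
  rcases NetComplete_nb3 N k l i j t h with ⟨a1, a2, a3⟩ | ⟨a1, a2, a3⟩
  · rcases NetComplete_nb3 N k l' i j t' h' with ⟨b1, b2, b3⟩ | ⟨b1, b2, b3⟩
    · rw [a2, b2, a3, b3]; exact ⟨rfl, rfl⟩
    · exact absurd (a1.symm.trans b1) (by decide)
  · rcases NetComplete_nb3 N k l' i j t' h' with ⟨b1, b2, b3⟩ | ⟨b1, b2, b3⟩
    · exact absurd (b1.symm.trans a1) (by decide)
    · rw [a2, b2, a3, b3]; exact ⟨rfl, rfl⟩

end

theorem net_complete {V : Type*} {H : SimpleGraph V} {x y : V} {c : Fin 3 → V}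
    (hF : Frame H x y c) (N : Net) {col : ℕ → Fin 3 → Fin 3} (hc : N.Sol col) :
    ∃ f : Fin N.K × Site V → V, LocInj (netG H x y c N) H f := by
  refine ⟨fun a => NetComplete_f N x y c col a.1 a.2, ?_, ?_⟩
  · intro a b hab
    unfold netG at hab
    rw [SimpleGraph.fromRel_adj] at hab
    rcases hab.2 with h | h
    · exact NetComplete_hom hF N _ _ _ _ h
    · exact (NetComplete_hom hF N _ _ _ _ h).symm
  · rintro ⟨k, s⟩ ⟨l, t⟩ hb ⟨l', t'⟩ hb' e
    rw [SimpleGraph.mem_neighborSet] at hb hb'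
    unfold netG at hb hb'
    rw [SimpleGraph.fromRel_adj] at hb hb'
    have g := hb.2
    have g' := hb'.2
    have e' : NetComplete_f N x y c col l t = NetComplete_f N x y c col l' t' := e
    simp only at g g'
    have hfin : (l : ℕ) = l' ∧ t = t' := by
      obtain ⟨ρ, z⟩ := s
      rcases Fin.eq_zero_or_eq_succ ρ with h0 | ⟨i, h0⟩
      · subst h0
        rcases z with v | i
        · exact NetComplete_inj0 hF N hc k l l' k.2 v t t' g g' e'
        · exact NetComplete_inj2 hF N k l l' i t t' g g' e'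
      · subst h0
        rcases z with v | j
        · exact NetComplete_inj1 hF N k l l' l.2 l'.2 i v t t' g g' e'
        · exact NetComplete_inj3 N k l l' i j t t' g g'
    rw [Prod.mk.injEq]
    exact ⟨Fin.ext hfin.1, hfin.2⟩

end Pool.Agent.LIH
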