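import Pool.Agent.LIH.Defs

/-!
# The copy lemma

A copy of `H` minus the star with centre `z` and leaves `s i` sits in `G`; the leaf `s i` has an
additional neighbour `e i`, the centre has additional neighbours `w i`. If every locally injective
homomorphism from `H` minus the star to `H` is injective, a locally injective homomorphism from `G`
to `H` acts on the copy as an automorphism `σ` of `H`, all `e i` are mapped to `σ z`, and the `w i`
are mapped bijectively to the `σ (s i)`.

Proof. `g = f ∘ ι` satisfies the hypotheses of `Tight`, so it is injective, hence bijective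
(`V` finite). For every `v` there is an injection from `N_H(v)` to `N_H(g v)`: for `v ≠ z`, not a
leaf: `u ↦ g u`; for `v = s i`: `u ↦ g u` for `u ≠ z`, `z ↦ f (e i)` (note `s i ≠ s j` may be
adjacent, these edges are not removed); for `v = z`: `u ↦ g u` for `u` not a leaf,
`s i ↦ f (w i)`; injectivity by `LocInj` at `ι v` (all these are images of distinct neighbours of
`ι v`). So `deg v ≤ deg (g v)`. Summing over `v` (`g` is a bijection) gives equality for all `v`, so
these injections are surjective. Now:
* (a) for `v` neither `z` nor a leaf: `N_H(g v) = g (N_H(v))`.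
* (b) for each `i` and any `t` with `f (w i) = g t` (`g` is surjective): `g t` is adjacent to `g z`
  and `t` is not in `N_H(z) \ leaves` (injectivity of `f` on the neighbourhood of `ι z`). If `t` is
  neither `z` nor a leaf then by (a) at `t`, `g z ∈ N_H(g t) = g (N_H(t))`, so `z ∈ N_H(t)`,
  `t ∈ N_H(z) \ leaves`, a contradiction. `t = z` is impossible (no loops). So `t` is a leaf.
* The map `i ↦ t` is an injective self-map of the (finite) set of leaves, so surjective; hence
  `g z` is adjacent to `g (s j)` for all `j`.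
* So `g` preserves all edges of `H`; as a bijection of a finite graph preserving edges it is an
  automorphism `σ` (the number of edges, or: degrees are equal).
* `f (e i)`: it is adjacent to `g (s i)`; `N_H(g (s i)) = g (N_H(s i))`, and it is not `g u` for
  `u ∈ N_H(s i)`, `u ≠ z`, so it is `g z`.
-/

namespace Pool.Agent.LIH

theorem copy_ext {V W I : Type*} {H : SimpleGraph V} {G : SimpleGraph W} {z : V}
    {S : V → Prop} (s : I → V) (hs : Function.Injective s) (hS : ∀ v, S v ↔ ∃ i, v = s i)
    (hz : ∀ i, H.Adj z (s i))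
    (ι : V → W) (hι : Function.Injective ι)
    (h1 : ∀ u v, H.Adj u v → ¬ Cut z S u v → G.Adj (ι u) (ι v))
    (e : I → W) (he : ∀ i, G.Adj (ι (s i)) (e i))
    (he' : ∀ i v, H.Adj (s i) v → v ≠ z → e i ≠ ι v)
    (w : I → W) (hw : ∀ i, G.Adj (ι z) (w i)) (hw' : ∀ i v, H.Adj z v → ¬ S v → w i ≠ ι v)
    (hwi : Function.Injective w) (v : V) :
    ∃ x : V → W, (∀ u, H.Adj v u → G.Adj (ι v) (x u)) ∧
      (∀ u u', H.Adj v u → H.Adj v u' → x u = x u' → u = u') ∧
      (∀ u, H.Adj v u → ¬ Cut z S v u → x u = ι u) := by
  classical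
  have hSz : ¬ S z := by
    intro h
    obtain ⟨i, hi⟩ := (hS z).1 h
    have := hz i
    rw [← hi] at this
    exact this.ne rfl
  by_cases hvz : v = z
  · subst hvz
    have hidx : ∀ u, ∃ i : Option I, S u → ∃ j, i = some j ∧ u = s j := by
      intro u
      by_cases hu : S u
      · obtain ⟨i, hi⟩ := (hS u).1 hu
        exact ⟨some i, fun _ => ⟨i, rfl, hi⟩⟩
      · exact ⟨none, fun h => absurd h hu⟩
    choose idx hidx using hidx
    refine ⟨fun u => if S u then (match idx u with | some j => w j | none => ι u) else ι u,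
      ?_, ?_, ?_⟩
    · intro u hu
      show G.Adj (ι v) (if S u then (match idx u with | some j => w j | none => ι u) else ι u)
      by_cases hSu : S u
      · rw [if_pos hSu]
        obtain ⟨j, hj, _⟩ := hidx u hSu
        rw [hj]
        exact hw j
      · rw [if_neg hSu]
        apply h1 v u hu
        rintro (⟨_, h⟩ | ⟨_, h⟩)
        · exact hSu h
        · exact hSz h
    · intro u u' hu hu' heq
      simp only at heq
      by_cases hSu : S u
      · rw [if_pos hSu] at heq
        obtain ⟨j, hj, hj2⟩ := hidx u hSu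
        rw [hj] at heq
        by_cases hSu' : S u'
        · rw [if_pos hSu'] at heq
          obtain ⟨j', hj', hj2'⟩ := hidx u' hSu'
          rw [hj'] at heq
          have h3 : j = j' := hwi heq
          rw [hj2, hj2', h3]
        · rw [if_neg hSu'] at heq
          exact absurd heq (hw' j u' hu' hSu')
      · rw [if_neg hSu] at heq
        by_cases hSu' : S u'
        · rw [if_pos hSu'] at heq
          obtain ⟨j', hj', hj2'⟩ := hidx u' hSu'
          rw [hj'] at heq
          exact absurd heq.symm (hw' j' u hu hSu)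
        · rw [if_neg hSu'] at heq
          exact hι heq
    · intro u hu hc
      have hSu : ¬ S u := fun h => hc (Or.inl ⟨rfl, h⟩)
      show (if S u then (match idx u with | some j => w j | none => ι u) else ι u) = ι u
      rw [if_neg hSu]
  · by_cases hSv : S v
    · obtain ⟨i, hi⟩ := (hS v).1 hSv
      refine ⟨fun u => if u = z then e i else ι u, ?_, ?_, ?_⟩
      · intro u hu
        show G.Adj (ι v) (if u = z then e i else ι u)
        by_cases huz : u = z
        · rw [if_pos huz, hi]
          exact he i
        · rw [if_neg huz]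
          apply h1 v u hu
          rintro (⟨h, _⟩ | ⟨h, _⟩)
          · exact hvz h
          · exact huz h
      · intro u u' hu hu' heq
        simp only at heq
        rw [hi] at hu hu'
        by_cases huz : u = z
        · rw [if_pos huz] at heq
          by_cases huz' : u' = z
          · rw [huz, huz']
          · rw [if_neg huz'] at heq
            exact absurd heq (he' i u' hu' huz')
        · rw [if_neg huz] at heq
          by_cases huz' : u' = z
          · rw [if_pos huz'] at heq
            exact absurd heq.symm (he' i u hu huz)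
          · rw [if_neg huz'] at heq
            exact hι heq
      · intro u hu hc
        have huz : u ≠ z := fun h => hc (Or.inr ⟨h, hSv⟩)
        show (if u = z then e i else ι u) = ι u
        rw [if_neg huz]
    · refine ⟨ι, ?_, fun u u' _ _ h => hι h, fun _ _ _ => rfl⟩
      intro u hu
      apply h1 v u hu
      rintro (⟨h, _⟩ | ⟨_, h⟩)
      · exact hvz h
      · exact hSv h

theorem copy_lemma {V W I : Type*} [Finite V] {H : SimpleGraph V} {G : SimpleGraph W} {z : V}
    {S : V → Prop} (s : I → V) (hs : Function.Injective s) (hS : ∀ v, S v ↔ ∃ i, v = s i)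
    (hz : ∀ i, H.Adj z (s i)) (ht : Tight H z S) {f : W → V} (hf : LocInj G H f)
    (ι : V → W) (hι : Function.Injective ι)
    (h1 : ∀ u v, H.Adj u v → ¬ Cut z S u v → G.Adj (ι u) (ι v))
    (e : I → W) (he : ∀ i, G.Adj (ι (s i)) (e i))
    (he' : ∀ i v, H.Adj (s i) v → v ≠ z → e i ≠ ι v)
    (w : I → W) (hw : ∀ i, G.Adj (ι z) (w i)) (hw' : ∀ i v, H.Adj z v → ¬ S v → w i ≠ ι v)
    (hwi : Function.Injective w) :
    ∃ σ : H ≃g H, (∀ v, f (ι v) = σ v) ∧ (∀ i, f (e i) = σ z) ∧ (∀ i, ∃ j, f (w i) = σ (s j)) ∧
      Function.Injective (fun i => f (w i)) := by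
  classical
  haveI : Fintype V := Fintype.ofFinite V
  obtain ⟨hf1, hf2⟩ := hf
  have hSz : ¬ S z := by
    intro h
    obtain ⟨i, hi⟩ := (hS z).1 h
    have := hz i
    rw [← hi] at this
    exact this.ne rfl
  set g : V → V := fun v => f (ι v) with hg
  have hT1 : ∀ u v, H.Adj u v → ¬ Cut z S u v → H.Adj (g u) (g v) :=
    fun u v h hc => hf1 _ _ (h1 u v h hc)
  have hginj : Function.Injective g := by
    apply ht g hT1
    intro u v v' h hc h' hc' heq
    exact hι (hf2 (ι u) (h1 u v h hc) (h1 u v' h' hc') heq)
  have hgsurj : Function.Surjective g := Finite.surjective_of_injective hginj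
  -- the injections of neighbourhoods
  have hex := fun v => copy_ext (H := H) (G := G) (z := z) (S := S) s hs hS hz ι hι h1 e he he' w hw hw'
    hwi v
  choose x hx1 hx2 hx3 using hex
  have himg : ∀ v, (fun u => f (x v u)) '' (H.neighborSet v) ⊆ H.neighborSet (g v) := by
    intro v y hy
    obtain ⟨u, hu, rfl⟩ := hy
    exact hf1 _ _ (hx1 v u hu)
  have hinj : ∀ v, Set.InjOn (fun u => f (x v u)) (H.neighborSet v) := by
    intro v u hu u' hu' heq
    exact hx2 v u u' hu hu' (hf2 (ι v) (hx1 v u hu) (hx1 v u' hu') heq)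
  have hcard : ∀ v, (H.neighborSet v).ncard ≤ (H.neighborSet (g v)).ncard := by
    intro v
    rw [← Set.ncard_image_of_injOn (hinj v)]
    exact Set.ncard_le_ncard (himg v) (Set.toFinite _)
  have hsum : ∑ v, (H.neighborSet v).ncard = ∑ v, (H.neighborSet (g v)).ncard := by
    have := Equiv.sum_comp (Equiv.ofBijective g ⟨hginj, hgsurj⟩)
      (fun v => (H.neighborSet v).ncard)
    exact this.symm
  have hcardeq : ∀ v, (H.neighborSet v).ncard = (H.neighborSet (g v)).ncard := by
    have h := (Finset.sum_eq_sum_iff_of_le (s := Finset.univ) (fun v _ => hcard v)).1 hsum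
    exact fun v => h v (Finset.mem_univ v)
  have himgeq : ∀ v, (fun u => f (x v u)) '' (H.neighborSet v) = H.neighborSet (g v) := by
    intro v
    apply Set.eq_of_subset_of_ncard_le (himg v) _ (Set.toFinite _)
    rw [Set.ncard_image_of_injOn (hinj v), hcardeq v]
  -- (a)
  have ha : ∀ v, v ≠ z → ¬ S v → ∀ y, H.Adj (g v) y → ∃ u, H.Adj v u ∧ y = g u := by
    intro v hvz hSv y hy
    have hy' : y ∈ (fun u => f (x v u)) '' (H.neighborSet v) := by rw [himgeq v]; exact hy
    obtain ⟨u, hu, rfl⟩ := hy'
    refine ⟨u, hu, ?_⟩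
    show f (x v u) = f (ι u)
    rw [hx3 v u hu]
    rintro (⟨h, _⟩ | ⟨_, h⟩)
    · exact hvz h
    · exact hSv h
  -- (b)
  have hb : ∀ i, ∃ j, f (w i) = g (s j) := by
    intro i
    obtain ⟨t, ht⟩ := hgsurj (f (w i))
    have hadj : H.Adj (g z) (g t) := by
      rw [ht]
      exact hf1 _ _ (hw i)
    by_cases htz : t = z
    · rw [htz] at hadj
      exact absurd rfl hadj.ne
    by_cases hSt : S t
    · obtain ⟨j, hj⟩ := (hS t).1 hSt
      exact ⟨j, by rw [← ht, hj]⟩
    · exfalso
      obtain ⟨u, hu, huz⟩ := ha t htz hSt (g z) hadj.symm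
      have h2 : z = u := hginj huz
      rw [← h2] at hu
      have h3 : G.Adj (ι z) (ι t) := by
        apply h1 z t hu.symm
        rintro (⟨_, h⟩ | ⟨_, h⟩)
        · exact hSt h
        · exact hSz h
      have h4 : ι t = w i := hf2 (ι z) h3 (hw i) ht
      exact hw' i t hu.symm hSt h4.symm
  have hwinj : Function.Injective (fun i => f (w i)) := by
    intro i i' h
    exact hwi (hf2 (ι z) (hw i) (hw i') h)
  -- (c)
  haveI : Finite I := Finite.of_injective s hs
  choose j hj using hb
  have hjinj : Function.Injective j := by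
    intro i i' h
    apply hwinj
    show f (w i) = f (w i')
    rw [hj i, hj i', h]
  have hjsurj : Function.Surjective j := Finite.surjective_of_injective hjinj
  have hc : ∀ k, H.Adj (g z) (g (s k)) := by
    intro k
    obtain ⟨i, hi⟩ := hjsurj k
    rw [← hi, ← hj i]
    exact hf1 _ _ (hw i)
  -- (d)
  have hd : ∀ u v, H.Adj u v → H.Adj (g u) (g v) := by
    intro u v huv
    by_cases hcut : Cut z S u v
    · rcases hcut with ⟨h, h'⟩ | ⟨h, h'⟩
      · obtain ⟨k, hk⟩ := (hS v).1 h'
        rw [h, hk]
        exact hc k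
      · obtain ⟨k, hk⟩ := (hS u).1 h'
        rw [h, hk]
        exact (hc k).symm
    · exact hT1 u v huv hcut
  -- (e)
  have hgimg : ∀ v, g '' (H.neighborSet v) = H.neighborSet (g v) := by
    intro v
    apply Set.eq_of_subset_of_ncard_le _ _ (Set.toFinite _)
    · rintro y ⟨u, hu, rfl⟩
      exact hd v u hu
    · rw [Set.ncard_image_of_injective _ hginj, hcardeq v]
  have hrefl : ∀ u v, H.Adj (g u) (g v) ↔ H.Adj u v := by
    intro u v
    constructor
    · intro h
      have h2 : g v ∈ g '' (H.neighborSet u) := by rw [hgimg u]; exact h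
      obtain ⟨v', hv', hvv⟩ := h2
      rw [← hginj hvv]
      exact hv'
    · exact hd u v
  refine ⟨⟨Equiv.ofBijective g ⟨hginj, hgsurj⟩, ?_⟩, fun v => rfl, ?_, fun i => ⟨j i, hj i⟩, hwinj⟩
  · intro a b
    exact hrefl a b
  · intro i
    show f (e i) = g z
    obtain ⟨u, hu⟩ := hgsurj (f (e i))
    have h2 : H.Adj (g (s i)) (g u) := by
      rw [hu]
      exact hf1 _ _ (he i)
    rw [hrefl] at h2
    by_cases huz : u = z
    · rw [← hu, huz]
    · exfalso
      have h3 : G.Adj (ι (s i)) (ι u) := by
        apply h1 (s i) u h2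
        rintro (⟨h, _⟩ | ⟨h, _⟩)
        · exact (hz i).ne h.symm
        · exact huz h
      have h4 : ι u = e i := hf2 (ι (s i)) h3 (he i) hu
      exact he' i u h2 huz h4.symm

end Pool.Agent.LIH
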