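import Pool.Agent.LIH.Net
import Pool.Agent.LIH.Copy

/-!
# A locally injective homomorphism from the graph of a network gives a solution

Proof. Apply `copy_lemma`
* to the copy number `0` of node `k` (`ι v = (k, 0, inl v)`, centre `ctr k`, leaves `c i` for
  `i` in the palette: `I = {i // pal k i}`), with `e i = (k, i + 1, inl (ctr k))` and
  `w i = (k, 0, inr i)`, except that for a y-type node with `link l j k i`, `w i = (l, 0, inr j)`.
  It gives `σ_k`.
* to the copy number `i + 1` of node `k` (centre `c i`, leaves `x, y`, `I = Bool` say), with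
  `e (ctr k) = (k, 0, inl (c i))` if `pal k i` and `(k, i + 1, inr 1)` otherwise,
  `e (oth k) = (prev k, i + 1, inl (c i))` where `nxt K (prev k) = k`,
  `w = (nxt K k, i + 1, inl (oth (nxt K k)))` and `(k, i + 1, inr 0)`. It gives `τ_{k, i}`.
From the first: `f (k, 0, inl (c i)) = σ_k (c i)`. From the second:
`f (k, i + 1, inl v) = τ_{k, i} v`; `f (k, 0, inl (c i)) = τ_{k, i} (c i)` if `pal k i`;
`f (prev k, i + 1, inl (c i)) = τ_{k, i} (c i)`, and the left side is `τ_{prev k, i} (c i)`. So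
`τ_{k, i} (c i)` does not depend on `k < K`: call it `γ i`, and `σ_k (c i) = γ i` if `pal k i`.
`γ` is injective by `full` (`σ_k` is injective). By `copy_lemma`, `f (w i) = σ_k (c j) = γ j` for
some `j` with `pal k j`: let `col k i` be this `j`. It is injective in `i`; for a link
`link k i l j`, the vertex `w j` of the node `l` is `(k, 0, inr i)`, which is the vertex `w i` of the
node `k` (x-type). (`link_inj` gives that `w` is injective and well defined.)
-/

namespace Pool.Agent.LIH

open Sum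

section aux
variable {V : Type*} {H : SimpleGraph V} {x y : V} {c : Fin 3 → V}

theorem netSound_adj (hF : Frame H x y c) (N : Net) {k l : Fin N.K} {s t : Site V}
    (h : Half N.K N.side N.pal N.link H x y c k l s t) :
    (netG H x y c N).Adj (k, s) (l, t) := by
  rw [netG, SimpleGraph.fromRel_adj]
  refine ⟨?_, Or.inl h⟩
  intro he
  rw [Prod.mk.injEq] at he
  obtain ⟨h1, h2⟩ := he
  subst h2
  rcases h with ⟨u, v, e1, e2, -, h3, -⟩ | ⟨i, u, v, e1, e2, -, h3, -⟩ | ⟨i, e1, e2, -⟩ |
    ⟨i, j, e1, e2, -⟩ | ⟨i, e1, e2, -⟩ | ⟨i, e1, e2, -⟩ | ⟨i, e1, e2, -⟩ | ⟨i, e1, e2, -⟩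
  · rw [e1] at e2
    simp only [Prod.mk.injEq, inl.injEq, true_and] at e2
    exact h3.ne e2
  · rw [e1] at e2
    simp only [Prod.mk.injEq, inl.injEq, true_and] at e2
    exact h3.ne e2
  · rw [e1] at e2
    simp at e2
  · rw [e1] at e2
    simp at e2
  · rw [e1] at e2
    simp only [Prod.mk.injEq] at e2
    exact absurd e2.1.symm (Fin.succ_ne_zero i)
  · rw [e1] at e2
    simp only [Prod.mk.injEq, inl.injEq, true_and] at e2
    unfold oth at e2
    split_ifs at e2
    · exact (hF.adjy i).ne e2.symm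
    · exact (hF.adjx i).ne e2.symm
  · rw [e1] at e2
    simp at e2
  · rw [e1] at e2
    simp at e2

/-- the vertex at the port `(k, i)` -/
def NetSoundPV (V : Type*) (N : Net) (k : Fin N.K) (i : Fin 3) (v : Fin N.K × Site V) : Prop :=
  (N.side k = true ∧ v = (k, 0, inr i)) ∨
  (N.side k = false ∧ ∃ (l : Fin N.K) (j : Fin 3), N.link l j k i ∧ v = (l, 0, inr j)) ∨
  (N.side k = false ∧ (∀ k' j, ¬ N.link k' j k i) ∧ v = (k, 0, inr i))

theorem netSound_pv_exists (N : Net) (k : Fin N.K) (i : Fin 3) : ∃ v, NetSoundPV V N k i v := by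
  by_cases hs : N.side k = true
  · exact ⟨_, Or.inl ⟨hs, rfl⟩⟩
  · have hs' : N.side k = false := by simpa using hs
    by_cases hl : ∃ k' j, N.link k' j k i
    · obtain ⟨k', j, h⟩ := hl
      have hk := (N.link_dom _ _ _ _ h).1
      exact ⟨_, Or.inr (Or.inl ⟨hs', ⟨k', hk⟩, j, h, rfl⟩)⟩
    · push Not at hl
      exact ⟨_, Or.inr (Or.inr ⟨hs', hl, rfl⟩)⟩

theorem netSound_pv_unique (N : Net) (k : Fin N.K) (i : Fin 3) {v v' : Fin N.K × Site V}
    (h : NetSoundPV V N k i v) (h' : NetSoundPV V N k i v') : v = v' := by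
  rcases h with ⟨hs, rfl⟩ | ⟨hs, l, j, hl, rfl⟩ | ⟨hs, hn, rfl⟩
  · rcases h' with ⟨-, rfl⟩ | ⟨hs', -⟩ | ⟨hs', -⟩
    · rfl
    · rw [hs] at hs'; exact absurd hs' (by simp)
    · rw [hs] at hs'; exact absurd hs' (by simp)
  · rcases h' with ⟨hs', rfl⟩ | ⟨-, l', j', hl', rfl⟩ | ⟨-, hn, rfl⟩
    · rw [hs] at hs'; exact absurd hs' (by simp)
    · obtain ⟨h1, h2⟩ := N.link_inj _ _ _ _ _ _ hl hl'
      rw [Fin.ext h1, h2]
    · exact absurd hl (hn _ _)
  · rcases h' with ⟨hs', rfl⟩ | ⟨-, l', j', hl', rfl⟩ | ⟨-, -, rfl⟩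
    · rw [hs] at hs'
    · exact absurd hl' (hn _ _)
    · rfl

theorem netSound_pv_inj (N : Net) (k : Fin N.K) (i i' : Fin 3) {v : Fin N.K × Site V}
    (h : NetSoundPV V N k i v) (h' : NetSoundPV V N k i' v) : i = i' := by
  rcases h with ⟨hs, rfl⟩ | ⟨hs, l, j, hl, rfl⟩ | ⟨hs, hn, rfl⟩
  · rcases h' with ⟨-, h⟩ | ⟨hs', -⟩ | ⟨hs', -⟩
    · simpa using h
    · rw [hs] at hs'; exact absurd hs' (by simp)
    · rw [hs] at hs'; exact absurd hs' (by simp)
  · rcases h' with ⟨hs', -⟩ | ⟨-, l', j', hl', h⟩ | ⟨-, hn, h⟩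
    · rw [hs] at hs'; exact absurd hs' (by simp)
    · simp only [Prod.mk.injEq, inr.injEq, true_and] at h
      obtain ⟨h1, h2⟩ := h
      subst h1; subst h2
      exact (N.link_fun _ _ _ _ _ _ hl hl').2
    · simp only [Prod.mk.injEq, inr.injEq, true_and] at h
      have h3 := (N.link_dom _ _ _ _ hl).2.2.1
      rw [h.1, hs] at h3
      exact absurd h3 (by simp)
  · rcases h' with ⟨hs', -⟩ | ⟨-, l', j', hl', h⟩ | ⟨-, -, h⟩
    · rw [hs] at hs'; exact absurd hs' (by simp)
    · simp only [Prod.mk.injEq, inr.injEq, true_and] at h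
      have h3 := (N.link_dom _ _ _ _ hl').2.2.1
      rw [← h.1, hs] at h3
      exact absurd h3 (by simp)
    · simpa using h

theorem netSound_adj_ctr (hF : Frame H x y c) (N : Net) (k : Fin N.K) (i : Fin 3) :
    H.Adj (ctr N.side x y k) (c i) := by
  unfold ctr
  split_ifs
  · exact hF.adjx i
  · exact hF.adjy i

theorem netSound_node [Finite V] (hF : Frame H x y c) (N : Net) {f : Fin N.K × Site V → V}
    (hf : LocInj (netG H x y c N) H f) (k : Fin N.K) :
    ∃ σ : H ≃g H, (∀ v, f (k, 0, inl v) = σ v) ∧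
      (∀ i, N.pal k i → ∀ v, NetSoundPV V N k i v → ∃ j, N.pal k j ∧ f v = σ (c j)) ∧
      (∀ i j v v', N.pal k i → N.pal k j → NetSoundPV V N k i v → NetSoundPV V N k j v' → f v = f v' → i = j) := by
  classical
  choose w hw using fun i : {i // N.pal k i} => netSound_pv_exists (V := V) N k i
  have hτ := copy_lemma (H := H) (G := netG H x y c N) (z := ctr N.side x y k)
    (S := leaf N.pal c k) (I := {i // N.pal k i}) (fun i => c i)
    (fun i j h => Subtype.ext (hF.inj h))
    (fun v => ⟨fun ⟨i, hi, h⟩ => ⟨⟨i, hi⟩, h⟩, fun ⟨i, h⟩ => ⟨i, i.2, h⟩⟩)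
    (fun i => netSound_adj_ctr hF N k i)
    (by
      unfold ctr
      split_ifs
      · exact hF.tx _
      · exact hF.ty _) hf
    (fun v => (k, 0, inl v)) (fun u v h => by simpa using h)
    (fun u v h1 h2 => netSound_adj hF N (Or.inl ⟨u, v, rfl, rfl, rfl, h1, h2⟩))
    (fun i => (k, i.1.succ, inl (ctr N.side x y k)))
    (fun i => netSound_adj hF N
      (Or.inr (Or.inr (Or.inr (Or.inr (Or.inl ⟨i, rfl, rfl, rfl, i.2⟩))))))
    (fun i v _ _ h => by
      simp only [Prod.mk.injEq] at h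
      exact Fin.succ_ne_zero _ h.2.1)
    w
    (fun i => by
      refine SimpleGraph.Adj.symm ?_
      rcases hw i with ⟨hs, h⟩ | ⟨hs, l, j, hl, h⟩ | ⟨hs, hn, h⟩
      · rw [h]
        exact netSound_adj hF N (Or.inr (Or.inr (Or.inl ⟨i, rfl, rfl, rfl, i.2, Or.inl hs⟩)))
      · rw [h]
        refine netSound_adj hF N (Or.inr (Or.inr (Or.inr (Or.inl ⟨j, i, rfl, ?_, hl⟩))))
        unfold ctr
        rw [if_neg (by simp [hs])]
      · rw [h]
        exact netSound_adj hF N (Or.inr (Or.inr (Or.inl ⟨i, rfl, rfl, rfl, i.2, Or.inr hn⟩))))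
    (fun i v _ _ h => by
      rcases hw i with ⟨hs, h'⟩ | ⟨hs, l, j, hl, h'⟩ | ⟨hs, hn, h'⟩ <;>
      · rw [h'] at h
        simp at h)
    (fun i j h => by
      have h1 := hw i
      have h2 := hw j
      rw [h] at h1
      exact Subtype.ext (netSound_pv_inj N k _ _ h1 h2))
  obtain ⟨σ, h1, -, h3, h4⟩ := hτ
  refine ⟨σ, h1, ?_, ?_⟩
  · intro i hi v hv
    have : v = w ⟨i, hi⟩ := netSound_pv_unique N k i hv (hw ⟨i, hi⟩)
    obtain ⟨j, hj⟩ := h3 ⟨i, hi⟩
    exact ⟨j, j.2, by rw [this, hj]⟩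
  · intro i j v v' hi hj hv hv' h
    have e1 : v = w ⟨i, hi⟩ := netSound_pv_unique N k i hv (hw ⟨i, hi⟩)
    have e2 : v' = w ⟨j, hj⟩ := netSound_pv_unique N k j hv' (hw ⟨j, hj⟩)
    rw [e1, e2] at h
    have := h4 h
    simpa using this

theorem netSound_sync [Finite V] (hF : Frame H x y c) (N : Net) {f : Fin N.K × Site V → V}
    (hf : LocInj (netG H x y c N) H f) (k p : Fin N.K) (hp : nxt N.K p = k) (i : Fin 3) :
    (N.pal k i → f (k, 0, inl (c i)) = f (k, i.succ, inl (c i))) ∧
      f (p, i.succ, inl (c i)) = f (k, i.succ, inl (c i)) := by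
  classical
  have hnx : nxt N.K k < N.K := by
    unfold nxt
    have := N.two_le
    split_ifs <;> omega
  have hτ := copy_lemma (H := H) (G := netG H x y c N) (z := c i)
    (S := fun v => v = x ∨ v = y) (I := Bool)
    (fun b => if b = true then ctr N.side x y k else oth N.side x y k)
    (by
      intro a b h
      have hne := hF.ne
      cases a <;> cases b <;> simp [ctr, oth] at h ⊢ <;> split_ifs at h <;>
        first | exact hne h | exact hne h.symm)
    (by
      intro v
      constructor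
      · intro h
        by_cases hs : N.side k = true
        · rcases h with h | h
          · exact ⟨true, by simp [ctr, hs, h]⟩
          · exact ⟨false, by simp [oth, hs, h]⟩
        · rcases h with h | h
          · exact ⟨false, by simp [oth, hs, h]⟩
          · exact ⟨true, by simp [ctr, hs, h]⟩
      · rintro ⟨b, h⟩
        by_cases hs : N.side k = true
        · cases b
          · simp [oth, hs] at h; exact Or.inr h
          · simp [ctr, hs] at h; exact Or.inl h
        · cases b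
          · simp [oth, hs] at h; exact Or.inl h
          · simp [ctr, hs] at h; exact Or.inr h)
    (by
      intro b
      have h1 := (hF.adjx i).symm
      have h2 := (hF.adjy i).symm
      cases b <;> simp only [ctr, oth] <;> split_ifs <;> simp_all)
    (hF.tc i) hf
    (fun v => (k, i.succ, inl v)) (fun u v h => by simpa using h)
    (fun u v h1 h2 => netSound_adj hF N (Or.inr (Or.inl ⟨i, u, v, rfl, rfl, rfl, h1, h2⟩)))
    (fun b => if b = true then (if N.pal k i then (k, 0, inl (c i)) else (k, i.succ, inr 1))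
      else (p, i.succ, inl (c i)))
    (by
      intro b
      refine SimpleGraph.Adj.symm ?_
      cases b
      · simp only [Bool.false_eq_true, if_false]
        refine netSound_adj hF N (Or.inr (Or.inr (Or.inr (Or.inr (Or.inr (Or.inl
          ⟨i, rfl, rfl, ?_⟩))))))
        exact hp.symm
      · simp only [if_true]
        split_ifs with hpal
        · exact netSound_adj hF N (Or.inr (Or.inr (Or.inr (Or.inr (Or.inl
            ⟨i, rfl, rfl, rfl, hpal⟩)))))
        · exact netSound_adj hF N (Or.inr (Or.inr (Or.inr (Or.inr (Or.inr (Or.inr (Or.inr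
            ⟨i, rfl, rfl, rfl, hpal⟩))))))))
    (by
      intro b v _ hv h
      cases b
      · simp only [Bool.false_eq_true, if_false, Prod.mk.injEq, inl.injEq, true_and] at h
        exact hv h.2.symm
      · simp only [if_true] at h
        split_ifs at h
        · simp only [Prod.mk.injEq] at h
          exact Fin.succ_ne_zero _ h.2.1.symm
        · simp at h)
    (fun b => if b = true then (⟨nxt N.K k, hnx⟩, i.succ, inl (oth N.side x y (nxt N.K k)))
      else (k, i.succ, inr 0))
    (by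
      intro b
      cases b
      · simp only [Bool.false_eq_true, if_false]
        refine SimpleGraph.Adj.symm ?_
        exact netSound_adj hF N (Or.inr (Or.inr (Or.inr (Or.inr (Or.inr (Or.inr (Or.inl
            ⟨i, rfl, rfl, rfl⟩)))))))
      · simp only [if_true]
        exact netSound_adj hF N (Or.inr (Or.inr (Or.inr (Or.inr (Or.inr (Or.inl
          ⟨i, rfl, rfl, rfl⟩)))))))
    (by
      intro b v _ hv h
      cases b
      · simp at h
      · simp only [if_true, Prod.mk.injEq, inl.injEq, true_and] at h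
        apply hv
        rw [← h.2]
        unfold oth
        split_ifs
        · exact Or.inr rfl
        · exact Or.inl rfl)
    (by
      intro a b h
      cases a <;> cases b <;> simp at h ⊢)
  obtain ⟨τ, h1, h2, -, -⟩ := hτ
  constructor
  · intro hpal
    have := h2 true
    simp only [if_true, if_pos hpal] at this
    rw [this, h1]
  · have := h2 false
    simp only [Bool.false_eq_true, if_false] at this
    rw [this, h1]

end aux

theorem net_sound {V : Type*} [Finite V] {H : SimpleGraph V} {x y : V} {c : Fin 3 → V}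
    (hF : Frame H x y c) (N : Net) {f : Fin N.K × Site V → V} (hf : LocInj (netG H x y c N) H f) :
    ∃ col, N.Sol col := by
  classical
  have hK := N.two_le
  let o : Fin N.K := ⟨0, by omega⟩
  have hγ : ∀ (i : Fin 3) (n : ℕ) (hn : n < N.K),
      f (⟨n, hn⟩, i.succ, inl (c i)) = f (o, i.succ, inl (c i)) := by
    intro i n
    induction n with
    | zero => intro hn; rfl
    | succ n ih =>
      intro hn
      rw [← ih (by omega)]
      exact (netSound_sync hF N hf ⟨n + 1, hn⟩ ⟨n, by omega⟩ (by simp [nxt, hn]) i).2.symm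
  have hprev : ∀ k : Fin N.K, ∃ p : Fin N.K, nxt N.K p = k := by
    intro k
    rcases Nat.eq_zero_or_pos k.1 with h0 | h0
    · refine ⟨⟨N.K - 1, by omega⟩, ?_⟩
      simp only [nxt]
      rw [if_neg (by omega), h0]
    · refine ⟨⟨k.1 - 1, by omega⟩, ?_⟩
      simp only [nxt]
      rw [if_pos (by have := k.2; omega)]
      omega
  have hγ2 : ∀ (k : Fin N.K) (i : Fin 3), N.pal k i →
      f (k, 0, inl (c i)) = f (o, i.succ, inl (c i)) := by
    intro k i hi
    obtain ⟨p, hp⟩ := hprev k
    rw [(netSound_sync hF N hf k p hp i).1 hi, ← hγ i k.1 k.2]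
  have hγi : ∀ i j : Fin 3, f (o, i.succ, inl (c i)) = f (o, j.succ, inl (c j)) → i = j := by
    intro i j h
    obtain ⟨k, hk, hfull⟩ := N.full
    rw [← hγ2 ⟨k, hk⟩ i (hfull i), ← hγ2 ⟨k, hk⟩ j (hfull j)] at h
    obtain ⟨σ, h1, -, -⟩ := netSound_node hF N hf ⟨k, hk⟩
    rw [h1, h1] at h
    exact hF.inj (σ.injective h)
  choose σ h1 h2 h3 using fun k => netSound_node hF N hf k
  have hex : ∀ (k : ℕ) (i : Fin 3), ∃ j : Fin 3, ∀ (hk : k < N.K), N.pal k i →
      N.pal k j ∧ ∀ v, NetSoundPV V N ⟨k, hk⟩ i v → f v = f (o, j.succ, inl (c j)) := by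
    intro k i
    by_cases hk : k < N.K
    · by_cases hi : N.pal k i
      · obtain ⟨v, hv⟩ := netSound_pv_exists (V := V) N ⟨k, hk⟩ i
        obtain ⟨j, hj, hj2⟩ := h2 ⟨k, hk⟩ i hi v hv
        refine ⟨j, fun _ _ => ⟨hj, fun v' hv' => ?_⟩⟩
        rw [netSound_pv_unique N _ i hv' hv, hj2, ← h1, hγ2 ⟨k, hk⟩ j hj]
      · exact ⟨0, fun _ h => absurd h hi⟩
    · exact ⟨0, fun h => absurd h hk⟩
  choose col hcol using hex
  refine ⟨col, ?_, ?_, ?_⟩
  · intro k hk i hi
    exact (hcol k i hk hi).1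
  · intro k hk i j hi hj hij
    obtain ⟨v, hv⟩ := netSound_pv_exists (V := V) N ⟨k, hk⟩ i
    obtain ⟨v', hv'⟩ := netSound_pv_exists (V := V) N ⟨k, hk⟩ j
    refine h3 ⟨k, hk⟩ i j v v' hi hj hv hv' ?_
    rw [(hcol k i hk hi).2 v hv, (hcol k j hk hj).2 v' hv', hij]
  · intro k i l j hl
    obtain ⟨hk, hl', hs, hs', hi, hj⟩ := N.link_dom _ _ _ _ hl
    apply hγi
    have hv : NetSoundPV V N ⟨k, hk⟩ i (⟨k, hk⟩, 0, inr i) := Or.inl ⟨hs, rfl⟩
    have hv' : NetSoundPV V N ⟨l, hl'⟩ j (⟨k, hk⟩, 0, inr i) :=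
      Or.inr (Or.inl ⟨hs', ⟨k, hk⟩, i, hl, rfl⟩)
    rw [← (hcol k i hk hi).2 _ hv, ← (hcol l j hl' hj).2 _ hv']

end Pool.Agent.LIH
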