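import Pool.Agent.LIH.SatNet

/-!
# A satisfying assignment gives a solution of the network of a formula

Write `F v t = nod L v t 0`, `D v t = nod L v t 1`, `C v t = nod L v t 2` for `v < Nv` and
`N1 t = nod L Nv t 0`, `N2 t = nod L Nv t 1` for `t < L`, where `L = J * m`.

Proof. `B v t : Bool` is `s v` for even `t` and `! s v` for odd `t`. Colours:
* `F v t`: ports `0, 1, 2` get `0, 1, 2` if `B v t` and `1, 2, 0` otherwise.
* `D v t`, with `p = t % 2` and palette `{p, p + 1}`: the port `p + 1` gets the colour of the port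
  `p` of `F v t`, the port `p` the other colour of the palette (which is the colour of the port `p`
  of `F v (t - 1)` if `t > 0`).
* `C v t`: port `0` gets the colour of the port `2` of `F v t`, port `2` the other one of `{0, 2}`.
* `tr t` : the literal number `t` is true; `b t = 0` if `tr t`, `2` otherwise: port `0` of `N1 t`.
* `E t`, the colour of the port `2` of `N1 t` and of the port `1` of `N2 t`, by recursion:
  if `t % m = 0`: `2` if `tr t`, `0` otherwise. If `t % m ≠ 0`: if `tr t`: `1` if `E (t - 1) = 1`,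
  `2` otherwise; if not `tr t`: `0` if `E (t - 1) = 0`, `1` otherwise.
  Always `E t ≠ b t`.
* `a t`, for `t % m ≠ 0`, the colour of the port `1` of `N1 t` and of the port `0` of
  `N2 (t - 1)`, is the third colour: `{a t, b t, E t} = {0, 1, 2}`. Then `a t ≠ E (t - 1)` (check the
  four cases).
* the port `2` of `N2 t` gets the remaining colour: if `(t + 1) % m ≠ 0` the one different from
  `a (t + 1)` and `E t`, otherwise the one of `{1, 2}` different from `E t`.
  `E t ≠ 0` if some literal `t' ≤ t` of the same clause is true, so `E t ≠ 0` at the end of each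
  clause.
* other nodes have empty palette: anything.
-/

namespace Pool.Agent.LIH

/-- the truth value of the variable `v` at time `t` -/
def SatComplete_B (s : ℕ → Bool) (v t : ℕ) : Bool := if t % 2 = 0 then s v else !s v

/-- the literal number `t` is true -/
def SatComplete_tr (s : ℕ → Bool) (lit : ℕ → ℕ) (t : ℕ) : Bool :=
  SatComplete_B s (lit t / 2) (lit t % 2)

/-- port `0` of `N1 t` -/
def SatComplete_b (s : ℕ → Bool) (lit : ℕ → ℕ) (t : ℕ) : Fin 3 :=
  if SatComplete_tr s lit t = true then 0 else 2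

/-- port `2` of `N1 t` -/
def SatComplete_E (m : ℕ) (s : ℕ → Bool) (lit : ℕ → ℕ) : ℕ → Fin 3
  | 0 => if SatComplete_tr s lit 0 = true then 2 else 0
  | t + 1 =>
    if (t + 1) % m = 0 then (if SatComplete_tr s lit (t + 1) = true then 2 else 0)
    else if SatComplete_tr s lit (t + 1) = true then
      (if SatComplete_E m s lit t = 1 then 1 else 2)
    else (if SatComplete_E m s lit t = 0 then 0 else 1)

/-- port `1` of `N1 t` -/
def SatComplete_a (m : ℕ) (s : ℕ → Bool) (lit : ℕ → ℕ) (t : ℕ) : Fin 3 :=
  -(SatComplete_b s lit t + SatComplete_E m s lit t)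

/-- the colours, in terms of the triples -/
def SatComplete_col (Nv m : ℕ) (s : ℕ → Bool) (lit : ℕ → ℕ) (v t κ : ℕ) (i : Fin 3) : Fin 3 :=
  if v < Nv then
    if κ = 0 then (if SatComplete_B s v t = true then i else i + 1)
    else if κ = 1 then
      (if SatComplete_B s v t = true then (if i.1 = t % 2 then i + 1 else i - 1) else i)
    else (if SatComplete_B s v t = true then (if i = 0 then 2 else 0) else i)
  else
    if κ = 0 then
      (if i = 0 then SatComplete_b s lit t else if i = 2 then SatComplete_E m s lit t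
        else SatComplete_a m s lit t)
    else
      (if i = 1 then SatComplete_E m s lit t else if i = 0 then SatComplete_a m s lit (t + 1)
        else if (t + 1) % m = 0 then -SatComplete_E m s lit t
        else -(SatComplete_E m s lit t + SatComplete_a m s lit (t + 1)))

theorem SatComplete_colF (Nv m : ℕ) (s : ℕ → Bool) (lit : ℕ → ℕ) (v t : ℕ) (i : Fin 3) (hv : v < Nv) :
    SatComplete_col Nv m s lit v t 0 i = if SatComplete_B s v t = true then i else i + 1 := by
  unfold SatComplete_col
  rw [if_pos hv, if_pos rfl]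

theorem SatComplete_colD (Nv m : ℕ) (s : ℕ → Bool) (lit : ℕ → ℕ) (v t : ℕ) (i : Fin 3) (hv : v < Nv) :
    SatComplete_col Nv m s lit v t 1 i =
      if SatComplete_B s v t = true then (if i.1 = t % 2 then i + 1 else i - 1) else i := by
  unfold SatComplete_col
  rw [if_pos hv, if_neg one_ne_zero, if_pos rfl]

theorem SatComplete_colC (Nv m : ℕ) (s : ℕ → Bool) (lit : ℕ → ℕ) (v t : ℕ) (i : Fin 3) (hv : v < Nv) :
    SatComplete_col Nv m s lit v t 2 i =
      if SatComplete_B s v t = true then (if i = 0 then 2 else 0) else i := by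
  unfold SatComplete_col
  rw [if_pos hv, if_neg two_ne_zero, if_neg (by norm_num : (2 : ℕ) ≠ 1)]

theorem SatComplete_colN1 (Nv m : ℕ) (s : ℕ → Bool) (lit : ℕ → ℕ) (t : ℕ) (i : Fin 3) :
    SatComplete_col Nv m s lit Nv t 0 i =
      if i = 0 then SatComplete_b s lit t else if i = 2 then SatComplete_E m s lit t
        else SatComplete_a m s lit t := by
  unfold SatComplete_col
  rw [if_neg (lt_irrefl Nv), if_pos rfl]

theorem SatComplete_colN2 (Nv m : ℕ) (s : ℕ → Bool) (lit : ℕ → ℕ) (t : ℕ) (i : Fin 3) :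
    SatComplete_col Nv m s lit Nv t 1 i =
      if i = 1 then SatComplete_E m s lit t else if i = 0 then SatComplete_a m s lit (t + 1)
        else if (t + 1) % m = 0 then -SatComplete_E m s lit t
        else -(SatComplete_E m s lit t + SatComplete_a m s lit (t + 1)) := by
  unfold SatComplete_col
  rw [if_neg (lt_irrefl Nv), if_neg one_ne_zero]

theorem SatComplete_E_ne_b (m : ℕ) (s : ℕ → Bool) (lit : ℕ → ℕ) (t : ℕ) :
    SatComplete_b s lit t ≠ SatComplete_E m s lit t := by
  unfold SatComplete_b
  cases t with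
  | zero =>
    unfold SatComplete_E
    split_ifs <;> decide
  | succ t =>
    unfold SatComplete_E
    split_ifs <;> decide

theorem SatComplete_a_ne (m : ℕ) (s : ℕ → Bool) (lit : ℕ → ℕ) (t : ℕ) (h : (t + 1) % m ≠ 0) :
    SatComplete_a m s lit (t + 1) ≠ SatComplete_E m s lit t := by
  unfold SatComplete_a SatComplete_b
  rw [SatComplete_E]
  rw [if_neg h]
  generalize SatComplete_E m s lit t = e
  generalize SatComplete_tr s lit (t + 1) = r
  revert e r
  decide

theorem SatComplete_third : ∀ b e : Fin 3, b ≠ e → -(b + e) ≠ b ∧ -(b + e) ≠ e := by decide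

theorem SatComplete_E_zero (m : ℕ) (s : ℕ → Bool) (lit : ℕ → ℕ) (t : ℕ) (h : t % m = 0) :
    SatComplete_E m s lit t ≠ 1 := by
  cases t with
  | zero =>
    unfold SatComplete_E
    split_ifs <;> decide
  | succ t =>
    unfold SatComplete_E
    rw [if_pos h]
    split_ifs <;> decide

theorem SatComplete_E_tr (m : ℕ) (s : ℕ → Bool) (lit : ℕ → ℕ) (t : ℕ)
    (h : SatComplete_tr s lit t = true) : SatComplete_E m s lit t ≠ 0 := by
  cases t with
  | zero =>
    unfold SatComplete_E
    rw [if_pos h]
    decide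
  | succ t =>
    unfold SatComplete_E
    rw [if_pos h, if_pos h]
    split_ifs <;> decide

theorem SatComplete_E_clause (m : ℕ) (s : ℕ → Bool) (lit : ℕ → ℕ) (j i0 : ℕ)
    (h : SatComplete_tr s lit (j * m + i0) = true) (d : ℕ) (hi : i0 + d < m) :
    SatComplete_E m s lit (j * m + (i0 + d)) ≠ 0 := by
  induction d with
  | zero => exact SatComplete_E_tr m s lit _ h
  | succ d ih =>
    have ih' := ih (by omega)
    have e1 : j * m + (i0 + (d + 1)) = (j * m + (i0 + d)) + 1 := by ring
    rw [e1]
    unfold SatComplete_E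
    have e2 : (j * m + (i0 + d) + 1) % m ≠ 0 := by
      have e3 : j * m + (i0 + d) + 1 = (i0 + d + 1) + m * j := by ring
      rw [e3, Nat.add_mul_mod_self_left, Nat.mod_eq_of_lt (by omega)]
      omega
    rw [if_neg e2, if_neg ih']
    split_ifs <;> decide

theorem SatComplete_E_end (J m : ℕ) (lit : ℕ → ℕ) (hm : 0 < m) (s : ℕ → Bool)
    (hs : ∀ j < J, ∃ i < m, SatComplete_tr s lit (j * m + i) = true) (t : ℕ) (ht : t < J * m)
    (h : (t + 1) % m = 0) : SatComplete_E m s lit t ≠ 0 := by
  obtain ⟨q, hq⟩ := Nat.dvd_of_mod_eq_zero h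
  have hq0 : q ≠ 0 := by
    rintro rfl
    omega
  obtain ⟨j, rfl⟩ := Nat.exists_eq_succ_of_ne_zero hq0
  have h1 : t + 1 = j * m + m := by
    rw [hq, Nat.succ_eq_add_one]
    ring
  have hj : j < J := by
    by_contra hc
    push Not at hc
    have h2 : J * m ≤ j * m := Nat.mul_le_mul_right m hc
    omega
  obtain ⟨i, hi, htr⟩ := hs j hj
  have h3 := SatComplete_E_clause m s lit j i htr (m - 1 - i) (by omega)
  have h4 : j * m + (i + (m - 1 - i)) = t := by omega
  rw [h4] at h3
  exact h3

theorem SatComplete_mem (Nv J m : ℕ) (lit : ℕ → ℕ) (hm : 0 < m) (s : ℕ → Bool)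
    (hs : ∀ j < J, ∃ i < m, SatComplete_tr s lit (j * m + i) = true) (v t κ : ℕ) (i : Fin 3)
    (h : palT Nv (J * m) m v t κ i) : palT Nv (J * m) m v t κ (SatComplete_col Nv m s lit v t κ i) := by
  rcases h with ⟨h1, h2⟩ | ⟨h1, h2, h3, h4⟩ | ⟨h1, h2, h3⟩ | ⟨h1, h2, h3, h4⟩ | ⟨h1, h2, h3⟩
  · exact Or.inl ⟨h1, h2⟩
  · refine Or.inr (Or.inl ⟨h1, h2, h3, ?_⟩)
    intro hc h0
    have hi : i ≠ 1 := fun hi => h4 hi h0
    subst h1
    subst h2
    rw [SatComplete_colN1] at hc
    by_cases hi0 : i = 0
    · rw [if_pos hi0] at hc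
      unfold SatComplete_b at hc
      revert hc
      generalize SatComplete_tr s lit t = r
      clear h4 h0
      revert r
      decide
    · have hi2 : i = 2 := by omega
      rw [if_neg hi0, if_pos hi2] at hc
      exact SatComplete_E_zero m s lit t h0 hc
  · refine Or.inr (Or.inr (Or.inl ⟨h1, h2, ?_⟩))
    subst h1
    rw [SatComplete_colD _ _ _ _ _ _ _ h2]
    have hlt : t % 2 = 0 ∨ t % 2 = 1 := by omega
    generalize SatComplete_B s v t = r
    rcases hlt with hp | hp
    · rw [hp] at h3 ⊢
      revert i r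
      decide
    · rw [hp] at h3 ⊢
      revert i r
      decide
  · refine Or.inr (Or.inr (Or.inr (Or.inl ⟨h1, h2, h3, ?_⟩)))
    intro hc h0
    have hi : i ≠ 0 := fun hi => h4 hi h0
    have hE := SatComplete_E_end J m lit hm s hs t h3 h0
    subst h1
    subst h2
    rw [SatComplete_colN2] at hc
    by_cases hi0 : i = 1
    · rw [if_pos hi0] at hc
      exact hE hc
    · rw [if_neg hi0, if_neg hi, if_pos h0] at hc
      exact hE (neg_eq_zero.mp hc)
  · refine Or.inr (Or.inr (Or.inr (Or.inr ⟨h1, h2, ?_⟩)))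
    subst h1
    rw [SatComplete_colC _ _ _ _ _ _ _ h2]
    generalize SatComplete_B s v t = r
    revert i r
    decide

theorem SatComplete_inj (Nv J m : ℕ) (lit : ℕ → ℕ) (hm : 0 < m) (s : ℕ → Bool)
    (hs : ∀ j < J, ∃ i < m, SatComplete_tr s lit (j * m + i) = true) (v t κ : ℕ) (i j : Fin 3)
    (h : palT Nv (J * m) m v t κ i) (h' : palT Nv (J * m) m v t κ j)
    (e : SatComplete_col Nv m s lit v t κ i = SatComplete_col Nv m s lit v t κ j) : i = j := by
  rcases h with ⟨h1, h2⟩ | ⟨h1, h2, h3, h4⟩ | ⟨h1, h2, h3⟩ | ⟨h1, h2, h3, h4⟩ | ⟨h1, h2, h3⟩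
  · subst h1
    rw [SatComplete_colF _ _ _ _ _ _ _ h2, SatComplete_colF _ _ _ _ _ _ _ h2] at e
    split_ifs at e
    · exact e
    · exact add_right_cancel e
  · subst h1
    subst h2
    rw [SatComplete_colN1, SatComplete_colN1] at e
    have hb := SatComplete_E_ne_b m s lit t
    unfold SatComplete_a at e
    generalize SatComplete_b s lit t = b at e hb
    generalize SatComplete_E m s lit t = E at e hb
    clear h3 h4 h'
    revert i j b E
    decide
  · have h5 : j.1 = t % 2 ∨ j.1 = t % 2 + 1 := by
      rcases h' with ⟨g1, g2⟩ | ⟨g1, g2, g3, g4⟩ | ⟨g1, g2, g3⟩ | ⟨g1, g2, g3, g4⟩ | ⟨g1, g2, g3⟩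
      · omega
      · omega
      · exact g3
      · omega
      · omega
    subst h1
    rw [SatComplete_colD _ _ _ _ _ _ _ h2, SatComplete_colD _ _ _ _ _ _ _ h2] at e
    have hlt : t % 2 = 0 ∨ t % 2 = 1 := by omega
    clear h'
    generalize SatComplete_B s v t = r at e
    rcases hlt with hp | hp
    · rw [hp] at h3 h5 e
      revert i j r
      decide
    · rw [hp] at h3 h5 e
      revert i j r
      decide
  · have h5 : j = 0 → (t + 1) % m ≠ 0 := by
      rcases h' with ⟨g1, g2⟩ | ⟨g1, g2, g3, g4⟩ | ⟨g1, g2, g3⟩ | ⟨g1, g2, g3, g4⟩ | ⟨g1, g2, g3⟩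
      · omega
      · omega
      · omega
      · exact g4
      · omega
    subst h1
    subst h2
    rw [SatComplete_colN2, SatComplete_colN2] at e
    by_cases h0 : (t + 1) % m = 0
    · have hE := SatComplete_E_end J m lit hm s hs t h3 h0
      have hi : i ≠ 0 := fun hi => h4 hi h0
      have hj : j ≠ 0 := fun hj => h5 hj h0
      rw [if_pos h0] at e
      generalize SatComplete_a m s lit (t + 1) = a at e
      generalize SatComplete_E m s lit t = E at e hE
      clear h' h4 h5
      revert i j a E
      decide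
    · have ha := SatComplete_a_ne m s lit t h0
      rw [if_neg h0] at e
      generalize SatComplete_a m s lit (t + 1) = a at e ha
      generalize SatComplete_E m s lit t = E at e ha
      clear h' h4 h5
      revert i j a E
      decide
  · have h5 : j ≠ 1 := by
      rcases h' with ⟨g1, g2⟩ | ⟨g1, g2, g3, g4⟩ | ⟨g1, g2, g3⟩ | ⟨g1, g2, g3, g4⟩ | ⟨g1, g2, g3⟩
      · omega
      · omega
      · omega
      · omega
      · exact g3
    subst h1
    rw [SatComplete_colC _ _ _ _ _ _ _ h2, SatComplete_colC _ _ _ _ _ _ _ h2] at e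
    clear h'
    generalize SatComplete_B s v t = r at e
    revert i j r
    decide

theorem SatComplete_link (Nv L m : ℕ) (lit : ℕ → ℕ) (hlit : ∀ τ < L, lit τ < 2 * Nv) (s : ℕ → Bool)
    (v t κ : ℕ) (i : Fin 3) (v' t' κ' : ℕ) (i' : Fin 3)
    (h : linkT Nv L m lit v t κ i v' t' κ' i') :
    SatComplete_col Nv m s lit v t κ i = SatComplete_col Nv m s lit v' t' κ' i' := by
  rcases h with ⟨h1, h2, h3, h4, h5, h6, h7⟩ | ⟨h1, h2, h3, h4, h5, h6, h7⟩ |
    ⟨h1, h2, h3, h4, h5, h6, h7, h8⟩ | ⟨h1, h2, h3, h4, h5, h6, h7, h8⟩ |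
    ⟨h1, h2, h3, h4, h5, h6, h7, h8, h9⟩
  · subst h1
    subst h4
    subst h5
    rw [SatComplete_colF _ _ _ _ _ _ _ h2, SatComplete_colD _ _ _ _ _ _ _ h2, h6]
    rcases h7 with ⟨g1, g2⟩ | ⟨g1, g2⟩
    · subst g1
      generalize SatComplete_B s v' t' = r
      clear h6
      revert i i' r
      decide
    · subst g2
      have hB : SatComplete_B s v' t' = !SatComplete_B s v' t := by
        subst g1
        unfold SatComplete_B
        rcases Nat.mod_two_eq_zero_or_one t with h | h
        · have h' : (t + 1) % 2 = 1 := by omega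
          rw [h, h']
          simp
        · have h' : (t + 1) % 2 = 0 := by omega
          rw [h, h']
          simp
      rw [hB]
      generalize SatComplete_B s v' t = r
      clear h6 hB g1
      revert i' r
      decide
  · subst h1
    subst h4
    subst h5
    subst h6
    subst h3
    subst h7
    rw [SatComplete_colF _ _ _ _ _ _ _ h2, SatComplete_colC _ _ _ _ _ _ _ h2]
    generalize SatComplete_B s v' t' = r
    revert r
    decide
  · subst h1
    subst h4
    subst h2
    subst h5
    subst h6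
    subst h8
    have hv : lit t / 2 < v := by
      have := hlit t h3
      omega
    rw [SatComplete_colN1, SatComplete_colC _ _ _ _ _ _ _ hv]
    have hB : SatComplete_B s (lit t / 2) t' = SatComplete_tr s lit t := by
      rw [h7]
      unfold SatComplete_tr SatComplete_B
      have e1 : (2 * t + lit t % 2) % 2 = lit t % 2 % 2 := by omega
      rw [e1]
    rw [hB, if_pos rfl]
    unfold SatComplete_b
    generalize SatComplete_tr s lit t = r
    revert r
    decide
  · subst h1
    subst h2
    subst h4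
    subst h5
    subst h6
    subst h7
    subst h8
    rw [SatComplete_colN1, SatComplete_colN2]
    rfl
  · subst h1
    subst h2
    subst h5
    subst h6
    subst h7
    subst h9
    subst h8
    rw [SatComplete_colN1, SatComplete_colN2]
    rfl

theorem sol_of_sat (Nv J m : ℕ) (lit : ℕ → ℕ) (hNv : 0 < Nv) (hm : 0 < m)
    (hlit : ∀ τ < J * m, lit τ < 2 * Nv) (h : SatOK J m lit) :
    ∃ col, (satNet Nv (J * m) m lit hNv hlit).Sol col := by
  obtain ⟨s, hs⟩ := h
  have hs' : ∀ j < J, ∃ i < m, SatComplete_tr s lit (j * m + i) = true := by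
    intro j hj
    obtain ⟨i, hi, e⟩ := hs j hj
    refine ⟨i, hi, ?_⟩
    unfold SatComplete_tr SatComplete_B
    have e1 : lit (j * m + i) % 2 % 2 = lit (j * m + i) % 2 := by omega
    rw [e1]
    by_cases h0 : lit (j * m + i) % 2 = 0
    · rw [if_pos h0, e, decide_eq_true h0]
    · rw [if_neg h0, e, decide_eq_false h0]
      rfl
  refine ⟨fun k i => SatComplete_col Nv m s lit (k / 3 / (2 * (J * m) + 1))
    (k / 3 % (2 * (J * m) + 1)) (k % 3) i, ?_, ?_, ?_⟩
  · intro k _ i hp
    exact SatComplete_mem Nv J m lit hm s hs' _ _ _ i hp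
  · intro k _ i j hp hq e
    exact SatComplete_inj Nv J m lit hm s hs' _ _ _ i j hp hq e
  · intro k i l j hl
    exact SatComplete_link Nv (J * m) m lit hlit s _ _ _ i _ _ _ j hl.2.2

end Pool.Agent.LIH
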