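import Pool.Agent.LIH.SatNet

/-!
# A solution of the network of a formula gives a satisfying assignment

Write `F v t = nod L v t 0`, `D v t = nod L v t 1`, `C v t = nod L v t 2` for `v < Nv` and
`N1 t = nod L Nv t 0`, `N2 t = nod L Nv t 1` for `t < L`, where `L = J * m`.

Proof. Let `t < 2 * L`, `v < Nv`. The ports `0, 1, 2` of `F v t` are linked to ports of nodes with
palettes `{0, 1}`, `{1, 2}` (nodes `D v t` and `D v (t + 1)`, in an order depending on the parity of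
`t`) and `{0, 2}` (`C v t`), so their colours are `0, 1, 2` (say `B v t`) or `1, 2, 0` (`¬ B v t`).
For `t + 1 < 2 * L` the two ports of `D v (t + 1)` are linked to the port `(t + 1) % 2` of `F v t`
and of `F v (t + 1)`, so `B v (t + 1) ↔ ¬ B v t`. Put `s v = B v 0`; so `B v t ↔ s v` for even `t`
and `B v t ↔ ¬ s v` for odd `t`.
The port `0` of `N1 t` is linked to the port `2` of `C v t'`, `v = lit t / 2`,
`t' = 2 * t + lit t % 2`, whose other port `0` is linked to the port `2` of `F v t'`. So the colour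
`b t` of the port `0` of `N1 t` is `0` if `B v t'` (the literal is true) and `2` otherwise.
Suppose that all literals of the clause `j` are false: `b t = 2` for `t = j * m, ..., j * m + m - 1`.
Induction on `i < m`: the colour of the port `2` of `N1 (j * m + i)` is `0`: for `i = 0` the palette
is `{0, 2}`; for `i > 0` the colour of the port `1` of `N1 t` is that of the port `0` of
`N2 (t - 1)`, which differs from that of the port `1` of `N2 (t - 1)`, which is the colour of the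
port `2` of `N1 (t - 1)`, that is `0`; so the colours of the ports `0, 1` of `N1 t` are `2` and `1`.
For `i = m - 1` the port `1` of `N2 t` has colour `0`, but its palette is `{1, 2}`.
-/

namespace Pool.Agent.LIH

theorem SatSound_p2 {Nv L m v t : ℕ} {i : Fin 3} (h : palT Nv L m v t 2 i) : i.1 ≠ 1 := by
  rcases h with h | h | h | h | h
  · exact absurd h.1 (by decide)
  · exact absurd h.1 (by decide)
  · exact absurd h.1 (by decide)
  · exact absurd h.1 (by decide)
  · exact fun e => h.2.2 (Fin.ext e)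

theorem SatSound_p1 {Nv L m v t : ℕ} {i : Fin 3} (hv : v < Nv) (h : palT Nv L m v t 1 i) :
    i.1 = t % 2 ∨ i.1 = t % 2 + 1 := by
  rcases h with h | h | h | h | h
  · exact absurd h.1 (by decide)
  · exact absurd h.1 (by decide)
  · exact h.2.2
  · exact absurd h.2.1 hv.ne
  · exact absurd h.1 (by decide)

theorem SatSound_q1 {Nv L m t : ℕ} {i : Fin 3} (h : palT Nv L m Nv t 1 i)
    (hm : (t + 1) % m = 0) : i.1 ≠ 0 := by
  rcases h with h | h | h | h | h
  · exact absurd h.1 (by decide)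
  · exact absurd h.1 (by decide)
  · exact absurd h.2.1 (lt_irrefl _)
  · exact fun e => h.2.2.2 (Fin.ext e) hm
  · exact absurd h.1 (by decide)

theorem SatSound_q0 {Nv L m t : ℕ} {i : Fin 3} (h : palT Nv L m Nv t 0 i)
    (hm : t % m = 0) : i.1 ≠ 1 := by
  rcases h with h | h | h | h | h
  · exact absurd h.2 (lt_irrefl _)
  · exact fun e => h.2.2.2 (Fin.ext e) hm
  · exact absurd h.1 (by decide)
  · exact absurd h.1 (by decide)
  · exact absurd h.1 (by decide)

/-- what is used about a solution -/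
structure SatSound_S (Nv L m : ℕ) (lit : ℕ → ℕ) (c : ℕ → ℕ → ℕ → Fin 3 → Fin 3) : Prop where
  mem : ∀ v t κ, v ≤ Nv → t ≤ 2 * L → κ < 3 → ∀ i, palT Nv L m v t κ i →
    palT Nv L m v t κ (c v t κ i)
  inj : ∀ v t κ, v ≤ Nv → t ≤ 2 * L → κ < 3 → ∀ i j, palT Nv L m v t κ i → palT Nv L m v t κ j →
    c v t κ i = c v t κ j → i = j
  link : ∀ v t κ i v' t' κ' i', v ≤ Nv → t ≤ 2 * L → κ < 3 → v' ≤ Nv → t' ≤ 2 * L → κ' < 3 →
    linkT Nv L m lit v t κ i v' t' κ' i' → c v t κ i = c v' t' κ' i'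

theorem SatSound_mk (Nv L m : ℕ) (lit : ℕ → ℕ) (hNv : 0 < Nv) (hlit : ∀ τ < L, lit τ < 2 * Nv)
    {col : ℕ → Fin 3 → Fin 3} (h : (satNet Nv L m lit hNv hlit).Sol col) :
    SatSound_S Nv L m lit (fun v t κ => col (nod L v t κ)) := by
  have hp : ∀ v t κ, t ≤ 2 * L → κ < 3 → ∀ i, satPal Nv L m (nod L v t κ) i ↔
      palT Nv L m v t κ i := by
    intro v t κ ht hκ i
    obtain ⟨h1, h2, h3⟩ := nod_dec L v t κ ht hκ
    unfold satPal
    rw [h1, h2, h3]
  refine ⟨?_, ?_, ?_⟩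
  · intro v t κ hv ht hκ i hi
    exact (hp v t κ ht hκ _).1 (h.mem _ (nod_lt Nv L v t κ hv ht hκ) i ((hp v t κ ht hκ i).2 hi))
  · intro v t κ hv ht hκ i j hi hj hij
    exact h.inj _ (nod_lt Nv L v t κ hv ht hκ) i j ((hp v t κ ht hκ i).2 hi)
      ((hp v t κ ht hκ j).2 hj) hij
  · intro v t κ i v' t' κ' i' hv ht hκ hv' ht' hκ' hl
    refine h.link _ _ _ _ ⟨nod_lt Nv L v t κ hv ht hκ, nod_lt Nv L v' t' κ' hv' ht' hκ', ?_⟩
    obtain ⟨h1, h2, h3⟩ := nod_dec L v t κ ht hκ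
    obtain ⟨h4, h5, h6⟩ := nod_dec L v' t' κ' ht' hκ'
    rw [h1, h2, h3, h4, h5, h6]
    exact hl

section

variable {Nv L m : ℕ} {lit : ℕ → ℕ} {c : ℕ → ℕ → ℕ → Fin 3 → Fin 3}

/-- the ports of `F v t` -/
theorem SatSound_F (h : SatSound_S Nv L m lit c) (v t : ℕ) (hv : v < Nv) (ht : t < 2 * L) :
    ((c v t 0 0).1 = 0 ∧ (c v t 0 1).1 = 1 ∧ (c v t 0 2).1 = 2) ∨
      ((c v t 0 0).1 = 1 ∧ (c v t 0 1).1 = 2 ∧ (c v t 0 2).1 = 0) := by
  have hv' : v ≤ Nv := hv.le
  have ht' : t ≤ 2 * L := ht.le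
  have i01 := h.inj v t 0 hv' ht' (by omega) 0 1 (Or.inl ⟨rfl, hv⟩) (Or.inl ⟨rfl, hv⟩)
  have i02 := h.inj v t 0 hv' ht' (by omega) 0 2 (Or.inl ⟨rfl, hv⟩) (Or.inl ⟨rfl, hv⟩)
  have i12 := h.inj v t 0 hv' ht' (by omega) 1 2 (Or.inl ⟨rfl, hv⟩) (Or.inl ⟨rfl, hv⟩)
  have a0 := (c v t 0 0).2
  have a1 := (c v t 0 1).2
  have a2 := (c v t 0 2).2
  have n01 : (c v t 0 0).1 ≠ (c v t 0 1).1 := fun e => absurd (i01 (Fin.ext e)) (by decide)
  have n02 : (c v t 0 0).1 ≠ (c v t 0 2).1 := fun e => absurd (i02 (Fin.ext e)) (by decide)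
  have n12 : (c v t 0 1).1 ≠ (c v t 0 2).1 := fun e => absurd (i12 (Fin.ext e)) (by decide)
  -- colour of port 2
  have l2 := h.link v t 0 2 v t 2 0 hv' ht' (by omega) hv' ht' (by omega)
    (Or.inr (Or.inl ⟨rfl, hv, rfl, rfl, rfl, rfl, rfl⟩))
  have m2 := h.mem v t 2 hv' ht' (by omega) 0
    (Or.inr (Or.inr (Or.inr (Or.inr ⟨rfl, hv, by decide⟩))))
  have p2 : (c v t 0 2).1 ≠ 1 := by
    rw [l2]
    exact SatSound_p2 m2
  rcases Nat.mod_two_eq_zero_or_one t with he | he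
  · -- t even
    have l0 := h.link v t 0 0 v t 1 1 hv' ht' (by omega) hv' ht' (by omega)
      (Or.inl ⟨rfl, hv, by decide, rfl, rfl, by simpa using he, Or.inl ⟨rfl, rfl⟩⟩)
    have m0 := h.mem v t 1 hv' ht' (by omega) 1
      (Or.inr (Or.inr (Or.inl ⟨rfl, hv, Or.inr (by rw [he]; rfl)⟩)))
    have l1 := h.link v t 0 1 v (t + 1) 1 1 hv' ht' (by omega) hv' (by omega) (by omega)
      (Or.inl ⟨rfl, hv, by decide, rfl, rfl, by
        show (t + 1) % 2 = 1
        omega, Or.inr ⟨rfl, rfl⟩⟩)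
    have m1 := h.mem v (t + 1) 1 hv' (by omega) (by omega) 1
      (Or.inr (Or.inr (Or.inl ⟨rfl, hv, Or.inl (by
        show 1 = (t + 1) % 2
        omega)⟩)))
    have p0 : (c v t 0 0).1 ≠ 2 := by
      rw [l0]
      have := SatSound_p1 hv m0
      omega
    have p1 : (c v t 0 1).1 ≠ 0 := by
      rw [l1]
      have := SatSound_p1 hv m1
      omega
    omega
  · have l1 := h.link v t 0 1 v t 1 2 hv' ht' (by omega) hv' ht' (by omega)
      (Or.inl ⟨rfl, hv, by decide, rfl, rfl, by simpa using he, Or.inl ⟨rfl, rfl⟩⟩)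
    have m1 := h.mem v t 1 hv' ht' (by omega) 2
      (Or.inr (Or.inr (Or.inl ⟨rfl, hv, Or.inr (by rw [he]; rfl)⟩)))
    have l0 := h.link v t 0 0 v (t + 1) 1 0 hv' ht' (by omega) hv' (by omega) (by omega)
      (Or.inl ⟨rfl, hv, by decide, rfl, rfl, by
        show (t + 1) % 2 = 0
        omega, Or.inr ⟨rfl, rfl⟩⟩)
    have m0 := h.mem v (t + 1) 1 hv' (by omega) (by omega) 0
      (Or.inr (Or.inr (Or.inl ⟨rfl, hv, Or.inl (by
        show 0 = (t + 1) % 2
        omega)⟩)))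
    have p0 : (c v t 0 0).1 ≠ 2 := by
      rw [l0]
      have := SatSound_p1 hv m0
      omega
    have p1 : (c v t 0 1).1 ≠ 0 := by
      rw [l1]
      have := SatSound_p1 hv m1
      omega
    omega

/-- consecutive nodes -/
theorem SatSound_step (h : SatSound_S Nv L m lit c) (v t : ℕ) (hv : v < Nv) (ht : t + 1 < 2 * L) :
    (c v (t + 1) 0 0).1 = 0 ↔ ¬ (c v t 0 0).1 = 0 := by
  have hv' : v ≤ Nv := hv.le
  have f1 := SatSound_F h v t hv (by omega)
  have f2 := SatSound_F h v (t + 1) hv ht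
  rcases Nat.mod_two_eq_zero_or_one t with he | he
  · -- t even: D (t + 1) has palette {1, 2}
    have l1 := h.link v t 0 1 v (t + 1) 1 1 hv' (by omega) (by omega) hv' (by omega) (by omega)
      (Or.inl ⟨rfl, hv, by decide, rfl, rfl, by
        show (t + 1) % 2 = 1
        omega, Or.inr ⟨rfl, rfl⟩⟩)
    have l2 := h.link v (t + 1) 0 1 v (t + 1) 1 2 hv' (by omega) (by omega) hv' (by omega) (by omega)
      (Or.inl ⟨rfl, hv, by decide, rfl, rfl, by
        show (t + 1) % 2 = 1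
        omega, Or.inl ⟨rfl, rfl⟩⟩)
    have ij := h.inj v (t + 1) 1 hv' (by omega) (by omega) 1 2
      (Or.inr (Or.inr (Or.inl ⟨rfl, hv, Or.inl (by
        show 1 = (t + 1) % 2
        omega)⟩)))
      (Or.inr (Or.inr (Or.inl ⟨rfl, hv, Or.inr (by
        show 2 = (t + 1) % 2 + 1
        omega)⟩)))
    have n : (c v t 0 1).1 ≠ (c v (t + 1) 0 1).1 := by
      intro e
      rw [l1, l2] at e
      exact absurd (ij (Fin.ext e)) (by decide)
    omega
  · have l1 := h.link v t 0 0 v (t + 1) 1 0 hv' (by omega) (by omega) hv' (by omega) (by omega)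
      (Or.inl ⟨rfl, hv, by decide, rfl, rfl, by
        show (t + 1) % 2 = 0
        omega, Or.inr ⟨rfl, rfl⟩⟩)
    have l2 := h.link v (t + 1) 0 0 v (t + 1) 1 1 hv' (by omega) (by omega) hv' (by omega) (by omega)
      (Or.inl ⟨rfl, hv, by decide, rfl, rfl, by
        show (t + 1) % 2 = 0
        omega, Or.inl ⟨rfl, rfl⟩⟩)
    have ij := h.inj v (t + 1) 1 hv' (by omega) (by omega) 0 1
      (Or.inr (Or.inr (Or.inl ⟨rfl, hv, Or.inl (by
        show 0 = (t + 1) % 2
        omega)⟩)))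
      (Or.inr (Or.inr (Or.inl ⟨rfl, hv, Or.inr (by
        show 1 = (t + 1) % 2 + 1
        omega)⟩)))
    have n : (c v t 0 0).1 ≠ (c v (t + 1) 0 0).1 := by
      intro e
      rw [l1, l2] at e
      exact absurd (ij (Fin.ext e)) (by decide)
    omega

theorem SatSound_par (h : SatSound_S Nv L m lit c) (v : ℕ) (hv : v < Nv) :
    ∀ t, t < 2 * L → ((c v t 0 0).1 = 0 ↔ ((c v 0 0 0).1 = 0 ↔ t % 2 = 0)) := by
  intro t
  induction t with
  | zero => intro _; simp
  | succ t ih =>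
    intro ht
    have h1 := ih (by omega)
    have h2 := SatSound_step h v t hv ht
    rcases Nat.mod_two_eq_zero_or_one t with he | he
    · have e2 : (t + 1) % 2 = 1 := by omega
      simp only [he, e2] at h1 ⊢
      tauto
    · have e2 : (t + 1) % 2 = 0 := by omega
      simp only [he, e2] at h1 ⊢
      tauto

/-- the port `0` of `N1 t` if the literal is false -/
theorem SatSound_N (h : SatSound_S Nv L m lit c) (hlit : ∀ τ < L, lit τ < 2 * Nv) (t : ℕ)
    (ht : t < L)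
    (hf : ¬ (decide ((c (lit t / 2) 0 0 0).1 = 0) = decide (lit t % 2 = 0))) :
    (c Nv t 0 0).1 = 2 := by
  have hl := hlit t ht
  have hv : lit t / 2 < Nv := by omega
  have ht' : 2 * t + lit t % 2 < 2 * L := by omega
  have hp := SatSound_par h (lit t / 2) hv (2 * t + lit t % 2) ht'
  have hF := SatSound_F h (lit t / 2) (2 * t + lit t % 2) hv ht'
  have e : (2 * t + lit t % 2) % 2 = lit t % 2 := by omega
  rw [e] at hp
  have hB : ¬ (c (lit t / 2) (2 * t + lit t % 2) 0 0).1 = 0 := by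
    intro hB
    apply hf
    rw [hp] at hB
    simp only [decide_eq_decide]
    exact hB
  have l1 := h.link (lit t / 2) (2 * t + lit t % 2) 0 2 (lit t / 2) (2 * t + lit t % 2) 2 0
    hv.le ht'.le (by omega) hv.le ht'.le (by omega)
    (Or.inr (Or.inl ⟨rfl, hv, rfl, rfl, rfl, rfl, rfl⟩))
  have l2 := h.link Nv t 0 0 (lit t / 2) (2 * t + lit t % 2) 2 2
    le_rfl (by omega) (by omega) hv.le ht'.le (by omega)
    (Or.inr (Or.inr (Or.inl ⟨rfl, rfl, ht, rfl, rfl, rfl, rfl, rfl⟩)))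
  have m2 := h.mem (lit t / 2) (2 * t + lit t % 2) 2 hv.le ht'.le (by omega) 2
    (Or.inr (Or.inr (Or.inr (Or.inr ⟨rfl, hv, by decide⟩))))
  have ij := h.inj (lit t / 2) (2 * t + lit t % 2) 2 hv.le ht'.le (by omega) 0 2
    (Or.inr (Or.inr (Or.inr (Or.inr ⟨rfl, hv, by decide⟩))))
    (Or.inr (Or.inr (Or.inr (Or.inr ⟨rfl, hv, by decide⟩))))
  have n : (c (lit t / 2) (2 * t + lit t % 2) 2 0).1 ≠ (c (lit t / 2) (2 * t + lit t % 2) 2 2).1 :=
    fun e => absurd (ij (Fin.ext e)) (by decide)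
  have q := (c (lit t / 2) (2 * t + lit t % 2) 2 2).2
  have p2 : (c (lit t / 2) (2 * t + lit t % 2) 2 2).1 ≠ 1 := SatSound_p2 m2
  rw [← l1] at n
  rw [l2]
  omega

theorem SatSound_chain (h : SatSound_S Nv L m lit c) (j : ℕ) (hm : 0 < m) (hj : j * m + m ≤ L)
    (hf : ∀ i < m, (c Nv (j * m + i) 0 0).1 = 2) :
    ∀ i < m, (c Nv (j * m + i) 0 2).1 = 0 := by
  intro i
  induction i with
  | zero =>
    intro hi
    have ht : j * m + 0 < L := by omega
    have hmod : (j * m + 0) % m = 0 := by simp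
    have m2 := h.mem Nv (j * m + 0) 0 le_rfl (by omega) (by omega) 2
      (Or.inr (Or.inl ⟨rfl, rfl, ht, fun e => absurd e (by decide)⟩))
    have ij := h.inj Nv (j * m + 0) 0 le_rfl (by omega) (by omega) 0 2
      (Or.inr (Or.inl ⟨rfl, rfl, ht, fun e => absurd e (by decide)⟩))
      (Or.inr (Or.inl ⟨rfl, rfl, ht, fun e => absurd e (by decide)⟩))
    have n : (c Nv (j * m + 0) 0 0).1 ≠ (c Nv (j * m + 0) 0 2).1 :=
      fun e => absurd (ij (Fin.ext e)) (by decide)
    rw [hf 0 hi] at n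
    have q := (c Nv (j * m + 0) 0 2).2
    have p2 : (c Nv (j * m + 0) 0 2).1 ≠ 1 := SatSound_q0 m2 hmod
    omega
  | succ i ih =>
    intro hi
    have h0 := ih (by omega)
    have ht : j * m + i < L := by omega
    have ht2 : j * m + (i + 1) < L := by omega
    have hmod : (j * m + (i + 1)) % m = i + 1 := by
      rw [Nat.add_comm, Nat.add_mul_mod_self_right, Nat.mod_eq_of_lt hi]
    have hmod2 : (j * m + i + 1) % m = i + 1 := hmod
    -- N2 t has all colours
    have l1 := h.link Nv (j * m + i) 0 2 Nv (j * m + i) 1 1 le_rfl (by omega) (by omega)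
      le_rfl (by omega) (by omega)
      (Or.inr (Or.inr (Or.inr (Or.inl ⟨rfl, rfl, ht, rfl, rfl, rfl, rfl, rfl⟩))))
    have l2 := h.link Nv (j * m + (i + 1)) 0 1 Nv (j * m + i) 1 0 le_rfl (by omega) (by omega)
      le_rfl (by omega) (by omega)
      (Or.inr (Or.inr (Or.inr (Or.inr ⟨rfl, rfl, ht2, by rw [hmod]; omega, rfl, rfl, rfl, rfl, rfl⟩))))
    have ij := h.inj Nv (j * m + i) 1 le_rfl (by omega) (by omega) 0 1
      (Or.inr (Or.inr (Or.inr (Or.inl ⟨rfl, rfl, ht, fun _ => by rw [hmod2]; omega⟩))))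
      (Or.inr (Or.inr (Or.inr (Or.inl ⟨rfl, rfl, ht, fun e => absurd e (by decide)⟩))))
    have n : (c Nv (j * m + i) 1 0).1 ≠ (c Nv (j * m + i) 1 1).1 :=
      fun e => absurd (ij (Fin.ext e)) (by decide)
    rw [← l1, ← l2, h0] at n
    have pall : ∀ a : Fin 3, palT Nv L m Nv (j * m + (i + 1)) 0 a := fun a =>
      Or.inr (Or.inl ⟨rfl, rfl, ht2, fun _ => by rw [hmod]; omega⟩)
    have i01 := h.inj Nv (j * m + (i + 1)) 0 le_rfl (by omega) (by omega) 0 1 (pall _) (pall _)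
    have i02 := h.inj Nv (j * m + (i + 1)) 0 le_rfl (by omega) (by omega) 0 2 (pall _) (pall _)
    have i12 := h.inj Nv (j * m + (i + 1)) 0 le_rfl (by omega) (by omega) 1 2 (pall _) (pall _)
    have n01 : (c Nv (j * m + (i + 1)) 0 0).1 ≠ (c Nv (j * m + (i + 1)) 0 1).1 :=
      fun e => absurd (i01 (Fin.ext e)) (by decide)
    have n02 : (c Nv (j * m + (i + 1)) 0 0).1 ≠ (c Nv (j * m + (i + 1)) 0 2).1 :=
      fun e => absurd (i02 (Fin.ext e)) (by decide)
    have n12 : (c Nv (j * m + (i + 1)) 0 1).1 ≠ (c Nv (j * m + (i + 1)) 0 2).1 :=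
      fun e => absurd (i12 (Fin.ext e)) (by decide)
    have f := hf (i + 1) hi
    have q1 := (c Nv (j * m + (i + 1)) 0 1).2
    have q2 := (c Nv (j * m + (i + 1)) 0 2).2
    omega

end

theorem sat_of_sol (Nv J m : ℕ) (lit : ℕ → ℕ) (hNv : 0 < Nv) (hm : 0 < m)
    (hlit : ∀ τ < J * m, lit τ < 2 * Nv) {col : ℕ → Fin 3 → Fin 3}
    (h : (satNet Nv (J * m) m lit hNv hlit).Sol col) : SatOK J m lit := by
  have h' := SatSound_mk Nv (J * m) m lit hNv hlit h
  revert h'
  generalize (fun v t κ => col (nod (J * m) v t κ)) = c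
  intro h'
  refine ⟨fun v => decide ((c v 0 0 0).1 = 0), fun j hj => ?_⟩
  by_contra hcon
  push Not at hcon
  have hjm : j * m + m ≤ J * m := by
    have := Nat.mul_le_mul_right m (Nat.succ_le_of_lt hj)
    rw [Nat.succ_mul] at this
    exact this
  have hf : ∀ i < m, (c Nv (j * m + i) 0 0).1 = 2 := by
    intro i hi
    exact SatSound_N h' hlit (j * m + i) (by omega) (hcon i hi)
  have hch := SatSound_chain h' j hm hjm hf (m - 1) (by omega)
  have ht : j * m + (m - 1) < J * m := by omega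
  have hmod : (j * m + (m - 1) + 1) % m = 0 := by
    rw [show j * m + (m - 1) + 1 = (j + 1) * m by rw [Nat.succ_mul]; omega, Nat.mul_mod_left]
  have l1 := h'.link Nv (j * m + (m - 1)) 0 2 Nv (j * m + (m - 1)) 1 1 le_rfl (by omega) (by omega)
    le_rfl (by omega) (by omega)
    (Or.inr (Or.inr (Or.inr (Or.inl ⟨rfl, rfl, ht, rfl, rfl, rfl, rfl, rfl⟩))))
  have m2 := h'.mem Nv (j * m + (m - 1)) 1 le_rfl (by omega) (by omega) 1
    (Or.inr (Or.inr (Or.inr (Or.inl ⟨rfl, rfl, ht, fun e => absurd e (by decide)⟩))))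
  rw [← l1] at m2
  exact SatSound_q1 m2 hmod hch

end Pool.Agent.LIH
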