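import Pool.Agent.LIH.Grid
import Pool.Agent.LIH.DfnNet
import Pool.Agent.LIH.Emit
import Pool.Agent.LIH.NetSound
import Pool.Agent.LIH.NetComplete
import Pool.Agent.LIH.SatSound
import Pool.Agent.LIH.SatComplete

/-!
# `H`-LIHOM is NP-hard if `H` has a frame
-/

namespace Pool.Agent.LIH

open NPC Polynomial

theorem length_matrix {n : ℕ} (G : SimpleGraph (Fin n)) : (matrix G).length = n * n := by
  simp [matrix]

/-- the adjacency matrix determines the graph -/
theorem matrix_inj {n : ℕ} {G G' : SimpleGraph (Fin n)} (h : matrix G = matrix G') : G = G' := by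
  ext a b
  have hlt : a.1 * n + b.1 < n * n := by
    have h1 := a.2
    have h2 := b.2
    calc a.1 * n + b.1 < a.1 * n + n := by omega
      _ = (a.1 + 1) * n := by ring
      _ ≤ n * n := Nat.mul_le_mul_right _ h1
  have hn : 0 < n := a.pos
  have e1 : (⟨a.1 * n + b.1, hlt⟩ : Fin (n * n)).divNat = a := by
    apply Fin.ext
    simp only [Fin.coe_divNat]
    rw [Nat.mul_comm, Nat.mul_add_div hn, Nat.div_eq_of_lt b.2, Nat.add_zero]
  have e2 : (⟨a.1 * n + b.1, hlt⟩ : Fin (n * n)).modNat = b := by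
    apply Fin.ext
    simp only [Fin.coe_modNat]
    rw [Nat.mul_comm, Nat.mul_add_mod, Nat.mod_eq_of_lt b.2]
  have h3 : (matrix G)[a.1 * n + b.1]? = (matrix G')[a.1 * n + b.1]? := by rw [h]
  have h4 : ∀ G : SimpleGraph (Fin n), (matrix G)[a.1 * n + b.1]? =
      some (@decide (G.Adj a b) (Classical.propDecidable _)) := by
    intro G
    rw [List.getElem?_eq_getElem (by rw [length_matrix]; exact hlt)]
    simp only [matrix, List.getElem_ofFn]
    congr 2
    · rw [e1, e2]
  rw [h4, h4, Option.some.injEq, decide_eq_decide] at h3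
  exact h3

theorem mem_lihom {V : Type*} {H : SimpleGraph V} {n : ℕ} (G : SimpleGraph (Fin n)) :
    matrix G ∈ LIHOM H ↔ ∃ f : Fin n → V, LocInj G H f := by
  constructor
  · rintro ⟨m, G', h, hf⟩
    have hnm : n = m := by
      have := congrArg List.length h
      rw [length_matrix, length_matrix] at this
      exact Nat.mul_self_inj.1 this
    subst hnm
    rw [matrix_inj h]
    exact hf
  · intro h
    exact ⟨n, G, rfl, h⟩

theorem reduces_lihom {h : ℕ} {H : SimpleGraph (Fin h)} {x y : Fin h} {c : Fin 3 → Fin h}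
    (hF : Frame H x y c) {L : Set (List Bool)} (hL : L ∈ NP) : Reduces L (LIHOM H) := by
  classical
  obtain ⟨m, Nv, J, lit, hm, hNv, hlt, hsat, hdef⟩ := np_sat hL
  obtain ⟨e, he⟩ := exists_print
    ((Nv + 1) * (2 * (J * C m) + 1) * 3 * (4 * (C h + 3))) (def_adj H x y c Nv J hm hdef)
  refine ⟨e.fn, polyTime_em e, fun z => ?_⟩
  set n0 := z.length + 1 with hn0
  set N := satNet (Nv.eval n0) (J.eval n0 * m) m (lit (prep z) n0) (hNv n0) (hlt z) with hN
  obtain ⟨G, hG1, hG2⟩ := exists_numG H x y c N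
  have hM : ((Nv + 1) * (2 * (J * C m) + 1) * 3 * (4 * (C h + 3))).eval n0 =
      N.K * (4 * (h + 3)) := by
    simp only [hN, satNet, satK, Polynomial.eval_mul, Polynomial.eval_add, Polynomial.eval_one,
      Polynomial.eval_C, Polynomial.eval_ofNat]
  have h1 : e.fn z = matrix G := by
    rw [he z, matrix_eq G (fun a b => AdjNum N.K N.side N.pal N.link H x y c a b) hG1, printed,
      hM]
    simp only [Matrix.cons_val_zero, Matrix.cons_val_one]
    rfl
  rw [h1, mem_lihom, hG2, hsat z]
  constructor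
  · intro hs
    obtain ⟨col, hcol⟩ := sol_of_sat _ _ _ _ (hNv n0) hm (hlt z) hs
    exact net_complete hF N hcol
  · rintro ⟨f, hf⟩
    obtain ⟨col, hcol⟩ := net_sound hF N hf
    exact sat_of_sol _ _ _ _ (hNv n0) hm (hlt z) hcol

end Pool.Agent.LIH
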