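import Pool.Agent.LIH.Num
import Pool.Agent.LIH.Emit
import Pool.Agent.NPC.Verif

/-!
# `H`-LIHOM is in NP

Proof. Certificates: for a graph `G` on `n` vertices with adjacency matrix `A` and a map
`f : Fin n → Fin h`, the reverse of the string `A ++ B`, `B` being the `n × h` matrix with ones at
`(v, f v)`; so the table `y = prep w` satisfies `y[1 + i]? = (A ++ B)[i]?`. Its length is
`n * n + n * h`, and `n` is the number of the `j < |w| + 1` with `(j + 1) * (j + 1 + h) < |w| + 1`.
The condition `C` on `n`: `|w| = n * (n + h)`, `A` is symmetric with zero diagonal, every row of `B`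
contains exactly one `1`, adjacent vertices have adjacent colours, and the neighbours of a vertex
have distinct colours. The relation `P n a b`: `y[1 + a * n + b]? = some true`. Use
`exists_verifier` and `NPC.polyTime_verif`: `V (x, w) = decide (e.fn w = true :: x)`; if it holds
then `|x| = n * n` and `|w| = n * n + n * h ≤ (h + 1) * |x|`.
If `h = 0`: the same works (`n = 0` only).
-/

namespace Pool.Agent.LIH

open NPC

/-- bit of the adjacency matrix -/
def member_A (y : List Bool) (n a b : ℕ) : Prop := y[1 + (a * n + b)]? = some true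

/-- bit of the colour matrix -/
def member_B (h : ℕ) (y : List Bool) (n a c : ℕ) : Prop := y[1 + (n * n + (a * h + c))]? = some true

theorem member_defA {k : ℕ} {N A B : CT k} (hN : DefT k N) (hA : DefT k A) (hB : DefT k B) :
    DefF k (fun y n0 w => member_A y (N y n0 w) (A y n0 w) (B y n0 w)) :=
  (DefF.bit ((DefT.const 1).add ((hA.mul hN).add hB))).congr (fun y n0 w => by
    unfold member_A
    constructor
    · exact fun h => h.2
    · exact fun h => ⟨by omega, h⟩)

theorem member_defB {k : ℕ} (h : ℕ) {N A B : CT k} (hN : DefT k N) (hA : DefT k A) (hB : DefT k B) :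
    DefF k (fun y n0 w => member_B h y (N y n0 w) (A y n0 w) (B y n0 w)) :=
  (DefF.bit ((DefT.const 1).add ((hN.mul hN).add ((hA.mul (DefT.const h)).add hB)))).congr
    (fun y n0 w => by
    unfold member_B
    constructor
    · exact fun h => h.2
    · exact fun h => ⟨by omega, h⟩)

/-- the condition on the number of vertices -/
def member_C {h : ℕ} (H : SimpleGraph (Fin h)) (y : List Bool) (n0 n : ℕ) : Prop :=
  n0 = n * (n + h) + 1 ∧
  (∀ a < n, ¬ member_A y n a a) ∧
  (∀ a < n, ∀ b < n, member_A y n a b → member_A y n b a) ∧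
  (∀ a < n, ∃ c : Fin h, member_B h y n a c ∧ ∀ d : Fin h, (member_B h y n a d → d = c)) ∧
  (∀ a < n, ∀ b < n, member_A y n a b →
    ∀ c d : Fin h, (member_B h y n a c → member_B h y n b d → H.Adj c d)) ∧
  (∀ a < n, ∀ b < n, ∀ b' < n, member_A y n a b → member_A y n a b' →
    ∀ c : Fin h, (member_B h y n b c → member_B h y n b' c → b = b'))

theorem member_defC {h : ℕ} (H : SimpleGraph (Fin h)) :
    DefF 1 (fun y n0 w => member_C H y n0 (w 0)) := by
  have n1 : DefT 1 (fun _ _ w => w 0) := DefT.var 0
  have n2 := n1.init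
  have n3 := n2.init
  have n4 := n3.init
  have a2 : DefT 2 (fun _ _ w => w (Fin.last 1)) := DefT.last
  have a3 := a2.init
  have a4 := a3.init
  have b3 : DefT 3 (fun _ _ w => w (Fin.last 2)) := DefT.last
  have b4 := b3.init
  have c4 : DefT 4 (fun _ _ w => w (Fin.last 3)) := DefT.last
  refine DefF.and ?_ (DefF.and ?_ (DefF.and ?_ (DefF.and ?_ (DefF.and ?_ ?_))))
  · exact DefF.eq DefT.len ((n1.mul (n1.add (DefT.const h))).add (DefT.const 1))
  · exact DefF.all (P := fun y n0 w a => ¬ member_A y (w 0) a a) n1 (member_defA n2 a2 a2).neg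
  · refine DefF.all (P := fun y n0 w a => ∀ b < w 0, member_A y (w 0) a b → member_A y (w 0) b a)
      n1 ?_
    exact DefF.all (P := fun y n0 w b => member_A y ((Fin.init w : Fin 1 → ℕ) 0) (w (Fin.last 1)) b →
      member_A y ((Fin.init w : Fin 1 → ℕ) 0) b (w (Fin.last 1))) n2
      ((member_defA n3 a3 b3).imp (member_defA n3 b3 a3))
  · refine DefF.all (P := fun y n0 w a => ∃ c : Fin h, member_B h y (w 0) a c ∧
      ∀ d : Fin h, (member_B h y (w 0) a d → d = c)) n1 ?_
    refine DefF.exF (fun c => ?_)
    refine (member_defB h n2 a2 (DefT.const c.1)).and ?_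
    exact DefF.allF (fun d => (member_defB h n2 a2 (DefT.const d.1)).imp (DefF.prop (d = c)))
  · refine DefF.all (P := fun y n0 w a => ∀ b < w 0, member_A y (w 0) a b →
      ∀ c d : Fin h, (member_B h y (w 0) a c → member_B h y (w 0) b d → H.Adj c d)) n1 ?_
    refine DefF.all (P := fun y n0 w b => member_A y ((Fin.init w : Fin 1 → ℕ) 0) (w (Fin.last 1)) b →
      ∀ c d : Fin h, (member_B h y ((Fin.init w : Fin 1 → ℕ) 0) (w (Fin.last 1)) c →
        member_B h y ((Fin.init w : Fin 1 → ℕ) 0) b d → H.Adj c d)) n2 ?_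
    refine (member_defA n3 a3 b3).imp ?_
    exact DefF.allF (fun c => DefF.allF (fun d => (member_defB h n3 a3 (DefT.const c.1)).imp
      ((member_defB h n3 b3 (DefT.const d.1)).imp (DefF.prop (H.Adj c d)))))
  · refine DefF.all (P := fun y n0 w a => ∀ b < w 0, ∀ b' < w 0, member_A y (w 0) a b →
      member_A y (w 0) a b' → ∀ c : Fin h, (member_B h y (w 0) b c →
        member_B h y (w 0) b' c → b = b')) n1 ?_
    refine DefF.all (P := fun y n0 w b => ∀ b' < (Fin.init w : Fin 1 → ℕ) 0,
      member_A y ((Fin.init w : Fin 1 → ℕ) 0) (w (Fin.last 1)) b →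
      member_A y ((Fin.init w : Fin 1 → ℕ) 0) (w (Fin.last 1)) b' →
      ∀ c : Fin h, (member_B h y ((Fin.init w : Fin 1 → ℕ) 0) b c →
        member_B h y ((Fin.init w : Fin 1 → ℕ) 0) b' c → b = b')) n2 ?_
    refine DefF.all (P := fun y n0 w b' =>
      member_A y ((Fin.init (Fin.init w : Fin 2 → ℕ) : Fin 1 → ℕ) 0)
        ((Fin.init w : Fin 2 → ℕ) (Fin.last 1)) (w (Fin.last 2)) →
      member_A y ((Fin.init (Fin.init w : Fin 2 → ℕ) : Fin 1 → ℕ) 0)
        ((Fin.init w : Fin 2 → ℕ) (Fin.last 1)) b' →
      ∀ c : Fin h, (member_B h y ((Fin.init (Fin.init w : Fin 2 → ℕ) : Fin 1 → ℕ) 0)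
          (w (Fin.last 2)) c →
        member_B h y ((Fin.init (Fin.init w : Fin 2 → ℕ) : Fin 1 → ℕ) 0) b' c →
          w (Fin.last 2) = b')) n3 ?_
    refine (member_defA n4 a4 b4).imp ((member_defA n4 a4 c4).imp ?_)
    exact DefF.allF (fun c => (member_defB h n4 b4 (DefT.const c.1)).imp
      ((member_defB h n4 c4 (DefT.const c.1)).imp (DefF.eq b4 c4)))

theorem member_mono {h a b : ℕ} (hab : a < b) : a * (a + h) < b * (b + h) := by
  nlinarith

theorem member_ncard {h n L : ℕ} (hL : L = n * (n + h)) :
    {j | j < L + 1 ∧ (j + 1) * (j + 1 + h) < L + 1}.ncard = n := by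
  have : {j | j < L + 1 ∧ (j + 1) * (j + 1 + h) < L + 1} = (Finset.range n : Set ℕ) := by
    ext j
    simp only [Set.mem_ofPred_eq, Finset.coe_range, Set.mem_Iio]
    constructor
    · rintro ⟨-, h2⟩
      by_contra hcon
      push Not at hcon
      have := member_mono (h := h) (show n < j + 1 by omega)
      omega
    · intro h1
      have h2 : (j + 1) * (j + 1 + h) ≤ n * (n + h) := Nat.mul_le_mul (by omega) (by omega)
      have h3 : j + 1 ≤ (j + 1) * (j + 1 + h) := Nat.le_mul_of_pos_right _ (by omega)
      omega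
  rw [this, Set.ncard_coe_finset, Finset.card_range]

open Classical in
/-- the colour matrix -/
noncomputable def member_col {n h : ℕ} (f : Fin n → Fin h) : List Bool :=
  List.ofFn fun k : Fin (n * h) => decide (f k.divNat = k.modNat)

theorem member_matrix_get {n : ℕ} (G : SimpleGraph (Fin n)) (a b : Fin n) :
    (matrix G)[a.1 * n + b.1]? = some true ↔ G.Adj a b := by
  classical
  have hlt : a.1 * n + b.1 < n * n := by
    have := a.2; have := b.2
    nlinarith
  have hn : 0 < n := lt_of_le_of_lt (Nat.zero_le _) a.2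
  unfold matrix
  rw [List.getElem?_ofFn]
  rw [dif_pos hlt]
  have h1 : (⟨a.1 * n + b.1, hlt⟩ : Fin (n * n)).divNat = a := by
    ext
    simp only [Fin.divNat]
    rw [Nat.mul_comm, Nat.mul_add_div hn, Nat.div_eq_of_lt b.2, Nat.add_zero]
  have h2 : (⟨a.1 * n + b.1, hlt⟩ : Fin (n * n)).modNat = b := by
    ext
    simp only [Fin.modNat]
    rw [Nat.mul_comm, Nat.mul_add_mod, Nat.mod_eq_of_lt b.2]
  rw [h1, h2]
  simp

theorem member_col_get {n h : ℕ} (f : Fin n → Fin h) (a : Fin n) (c : Fin h) :
    (member_col f)[a.1 * h + c.1]? = some true ↔ f a = c := by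
  classical
  have hlt : a.1 * h + c.1 < n * h := by
    have := a.2; have := c.2
    nlinarith
  have hh : 0 < h := lt_of_le_of_lt (Nat.zero_le _) c.2
  unfold member_col
  rw [List.getElem?_ofFn]
  rw [dif_pos hlt]
  have h1 : (⟨a.1 * h + c.1, hlt⟩ : Fin (n * h)).divNat = a := by
    ext
    simp only [Fin.divNat]
    rw [Nat.mul_comm, Nat.mul_add_div hh, Nat.div_eq_of_lt c.2, Nat.add_zero]
  have h2 : (⟨a.1 * h + c.1, hlt⟩ : Fin (n * h)).modNat = c := by
    ext
    simp only [Fin.modNat]
    rw [Nat.mul_comm, Nat.mul_add_mod, Nat.mod_eq_of_lt c.2]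
  rw [h1, h2]
  simp

theorem member_len_matrix {n : ℕ} (G : SimpleGraph (Fin n)) : (matrix G).length = n * n := by
  unfold matrix; simp

theorem member_len_col {n h : ℕ} (f : Fin n → Fin h) : (member_col f).length = n * h := by
  unfold member_col; simp

theorem member_printed_congr {n : ℕ} {P P' : ℕ → ℕ → Prop}
    (h : ∀ a < n, ∀ b < n, (P a b ↔ P' a b)) : printed n P = printed n P' := by
  classical
  unfold printed
  apply List.flatMap_congr
  intro a ha
  apply List.flatMap_congr
  intro b hb
  rw [List.mem_range] at ha hb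
  simp only [h a ha b hb]

theorem member_printed {n : ℕ} (G : SimpleGraph (Fin n)) (P : ℕ → ℕ → Prop)
    (h : ∀ a b : Fin n, G.Adj a b ↔ P a b) : matrix G = printed n P := by
  classical
  rw [matrix_eq G P h]
  unfold printed
  apply List.flatMap_congr
  intro a _
  apply List.flatMap_congr
  intro b _
  congr

theorem member_len_printed (n : ℕ) (P : ℕ → ℕ → Prop) : (printed n P).length = n * n := by
  classical
  unfold printed
  rw [List.length_flatMap]
  have : ∀ a, ((List.range n).flatMap (fun b => if P a b then [true] else [false])).length = n := by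
    intro a
    rw [List.length_flatMap]
    have h2 : ∀ b, (if P a b then [true] else [false] : List Bool).length = 1 := by
      intro b; split_ifs <;> rfl
    simp only [h2]
    simp
  simp only [this]
  simp

theorem lihom_mem_np {h : ℕ} (H : SimpleGraph (Fin h)) : LIHOM H ∈ NP := by
  classical
  have hQ : DefF 1 (fun _ n0 w => (w 0 + 1) * (w 0 + 1 + h) < n0) := by
    have n1 : DefT 1 (fun _ _ w => w 0) := DefT.var 0
    exact DefF.lt ((n1.add (DefT.const 1)).mul ((n1.add (DefT.const 1)).add (DefT.const h)))
      DefT.len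
  have hP : DefF 3 (fun y _ w => member_A y (w 0) (w 1) (w 2)) :=
    member_defA (DefT.var 0) (DefT.var 1) (DefT.var 2)
  obtain ⟨e, he⟩ := exists_verifier hQ (member_defC H) hP
  simp only [Matrix.cons_val_zero, Matrix.cons_val_one, Matrix.cons_val] at he
  refine ⟨fun p => decide (e.fn p.2 = true :: p.1), Polynomial.C (h + 1) * Polynomial.X,
    polyTime_verif e, ?_, ?_⟩
  · intro x w hV
    simp only [decide_eq_true_eq] at hV
    set n := {j | j < w.length + 1 ∧ (j + 1) * (j + 1 + h) < w.length + 1}.ncard with hn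
    obtain ⟨h1, h2⟩ := he w n hn.symm
    by_cases hC : member_C H (prep w) (w.length + 1) n
    · have h3 := h1 hC
      rw [hV] at h3
      have hx : x = printed n _ := (List.cons.inj h3).2
      have hlen : x.length = n * n := by rw [hx, member_len_printed]
      have hw : w.length = n * (n + h) := by
        have := hC.1
        omega
      rw [Polynomial.eval_mul, Polynomial.eval_C, Polynomial.eval_X, hlen, hw]
      have : n ≤ n * n := Nat.le_mul_self n
      nlinarith
    · rw [h2 hC] at hV
      simp at hV
  · intro x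
    constructor
    · rintro ⟨n, G, rfl, f, hf1, hf2⟩
      refine ⟨(matrix G ++ member_col f).reverse, ?_⟩
      simp only [decide_eq_true_eq]
      set w := (matrix G ++ member_col f).reverse with hw
      have hlen : w.length = n * (n + h) := by
        rw [hw, List.length_reverse, List.length_append, member_len_matrix, member_len_col]
        ring
      have hprep : prep w = false :: (matrix G ++ member_col f) := by
        unfold prep
        rw [hw, List.reverse_reverse]
      have hA : ∀ a b : Fin n, member_A (prep w) n a b ↔ G.Adj a b := by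
        intro a b
        unfold member_A
        rw [hprep, Nat.add_comm 1, List.getElem?_cons_succ, List.getElem?_append_left]
        · exact member_matrix_get G a b
        · rw [member_len_matrix]
          have := a.2; have := b.2
          nlinarith
      have hB : ∀ (a : Fin n) (c : Fin h), member_B h (prep w) n a c ↔ f a = c := by
        intro a c
        unfold member_B
        rw [hprep, Nat.add_comm 1, List.getElem?_cons_succ, List.getElem?_append_right]
        · rw [member_len_matrix, Nat.add_sub_cancel_left]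
          exact member_col_get f a c
        · rw [member_len_matrix]; omega
      obtain ⟨h1, -⟩ := he w n (member_ncard hlen)
      rw [h1 ?_]
      · congr 1
        symm
        apply member_printed
        intro a b
        exact (hA a b).symm
      · refine ⟨by rw [hlen], ?_, ?_, ?_, ?_, ?_⟩
        · intro a ha h3
          exact G.irrefl ((hA ⟨a, ha⟩ ⟨a, ha⟩).1 h3)
        · intro a ha b hb h3
          exact (hA ⟨b, hb⟩ ⟨a, ha⟩).2 ((hA ⟨a, ha⟩ ⟨b, hb⟩).1 h3).symm
        · intro a ha
          exact ⟨f ⟨a, ha⟩, (hB ⟨a, ha⟩ _).2 rfl, fun d hd => ((hB ⟨a, ha⟩ d).1 hd).symm⟩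
        · intro a ha b hb h3 c d hc hd
          rw [← (hB ⟨a, ha⟩ c).1 hc, ← (hB ⟨b, hb⟩ d).1 hd]
          exact hf1 _ _ ((hA ⟨a, ha⟩ ⟨b, hb⟩).1 h3)
        · intro a ha b hb b' hb' h3 h4 c hc hc'
          have h5 : (⟨b, hb⟩ : Fin n) = ⟨b', hb'⟩ := by
            apply hf2 ⟨a, ha⟩
            · exact (hA ⟨a, ha⟩ ⟨b, hb⟩).1 h3
            · exact (hA ⟨a, ha⟩ ⟨b', hb'⟩).1 h4
            · rw [(hB ⟨b, hb⟩ c).1 hc, (hB ⟨b', hb'⟩ c).1 hc']
          exact congrArg Fin.val h5
    · rintro ⟨w, hV⟩
      simp only [decide_eq_true_eq] at hV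
      set n := {j | j < w.length + 1 ∧ (j + 1) * (j + 1 + h) < w.length + 1}.ncard with hn
      obtain ⟨h1, h2⟩ := he w n hn.symm
      by_cases hC : member_C H (prep w) (w.length + 1) n
      swap
      · rw [h2 hC] at hV
        simp at hV
      have h3 := h1 hC
      rw [hV] at h3
      have hx : x = printed n _ := (List.cons.inj h3).2
      obtain ⟨-, c2, c3, c4, c5, c6⟩ := hC
      let G : SimpleGraph (Fin n) :=
        { Adj := fun a b => member_A (prep w) n a b
          symm := ⟨fun a b hab => c3 a a.2 b b.2 hab⟩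
          loopless := ⟨fun a ha => c2 a a.2 ha⟩ }
      choose f hf hf' using fun a : Fin n => c4 a a.2
      refine ⟨n, G, ?_, f, ?_, ?_⟩
      · rw [hx]
        symm
        apply member_printed
        intro a b
        exact Iff.rfl
      · intro u v huv
        exact c5 u u.2 v v.2 huv _ _ (hf u) (hf v)
      · intro v a ha b hb hab
        have h5 := c6 v v.2 a a.2 b b.2 ha hb (f a) (hf a) (by rw [hab]; exact hf b)
        exact Fin.ext h5

end Pool.Agent.LIH
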