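import Pool.Agent.LIH.Defs

/-!
# Almost all graphs are rich

Proof. For `n = |V|` let `m = (n - 2) / 4`. For two distinct vertices `u, v` choose four disjoint
sets of `m` vertices each, not containing `u, v`. If each of them contains a common neighbour of
`u, v`, then `u, v` have at least 4 common neighbours. The proportion of graphs in which no vertex of
a given set `T` of `m` vertices is a common neighbour of `u` and `v` is `(3 / 4) ^ m`. Union bound:
the proportion of graphs that are not rich is at most `n ^ 2 * 4 * (3 / 4) ^ m → 0`.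
-/

namespace Pool.Agent.LIH

open Filter Topology

section count

open Classical in
/-- graphs in which no vertex of `T` is a common neighbour of `u` and `v` -/
noncomputable def almostN {V : Type} [Fintype V] (u v : V) (T : Finset V) : Finset (SimpleGraph V) :=
  Finset.univ.filter (fun H : SimpleGraph V => ∀ t ∈ T, ¬ (H.Adj u t ∧ H.Adj v t))

theorem almost_mem {V : Type} [Fintype V] {u v : V} {T : Finset V} {H : SimpleGraph V} :
    H ∈ almostN u v T ↔ ∀ t ∈ T, ¬ (H.Adj u t ∧ H.Adj v t) := by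
  classical
  unfold almostN
  rw [Finset.mem_filter]
  exact ⟨fun h => h.2, fun h => ⟨Finset.mem_univ _, h⟩⟩

theorem almost_step {V : Type} [Fintype V] [DecidableEq V] (u v t : V) (huv : u ≠ v) (hut : t ≠ u)
    (hvt : t ≠ v) (T : Finset V) (ht : t ∉ T) (hT : ∀ t' ∈ T, t' ≠ u ∧ t' ≠ v) :
    4 * (almostN u v (insert t T)).card ≤ 3 * (almostN u v T).card := by
  classical
  set B := almostN u v T with hB
  set A := B.filter (fun H => H.Adj u t ∧ H.Adj v t) with hA
  have h1 : almostN u v (insert t T) = B.filter (fun H => ¬ (H.Adj u t ∧ H.Adj v t)) := by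
    ext H
    rw [almost_mem, Finset.mem_filter, hB, almost_mem, Finset.forall_mem_insert]
    tauto
  have h2 : A.card + (B.filter (fun H => ¬ (H.Adj u t ∧ H.Adj v t))).card = B.card :=
    Finset.card_filter_add_card_filter_not _
  rw [h1]
  set C := B.filter (fun H => ¬ (H.Adj u t ∧ H.Adj v t)) with hC
  set E : SimpleGraph V := SimpleGraph.edge u t ⊔ SimpleGraph.edge v t with hE
  have hEadj : ∀ a b, E.Adj a b ↔ (a ≠ b ∧ ((u = a ∧ t = b) ∨ (u = b ∧ t = a) ∨ (v = a ∧ t = b) ∨
      (v = b ∧ t = a))) := by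
    intro a b
    rw [hE, SimpleGraph.sup_adj, SimpleGraph.edge_adj, SimpleGraph.edge_adj]
    constructor
    · rintro (⟨h | h, hne⟩ | ⟨h | h, hne⟩)
      · exact ⟨hne, Or.inl ⟨h.1.symm, h.2.symm⟩⟩
      · exact ⟨hne, Or.inr (Or.inl ⟨h.2.symm, h.1.symm⟩)⟩
      · exact ⟨hne, Or.inr (Or.inr (Or.inl ⟨h.1.symm, h.2.symm⟩))⟩
      · exact ⟨hne, Or.inr (Or.inr (Or.inr ⟨h.2.symm, h.1.symm⟩))⟩
    · rintro ⟨hne, h | h | h | h⟩
      · exact Or.inl ⟨Or.inl ⟨h.1.symm, h.2.symm⟩, hne⟩
      · exact Or.inl ⟨Or.inr ⟨h.2.symm, h.1.symm⟩, hne⟩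
      · exact Or.inr ⟨Or.inl ⟨h.1.symm, h.2.symm⟩, hne⟩
      · exact Or.inr ⟨Or.inr ⟨h.2.symm, h.1.symm⟩, hne⟩
  have hsup : ∀ (H : SimpleGraph V) (a b : V), (H ⊔ E).Adj a b ↔ H.Adj a b ∨ E.Adj a b :=
    fun _ _ _ => Iff.rfl
  clear_value E
  have h3 : C.card ≤ (A ×ˢ ({(false, false), (false, true), (true, false)} :
      Finset (Bool × Bool))).card := by
    apply Finset.card_le_card_of_injOn
      (fun H => (H ⊔ E, (decide (H.Adj u t), decide (H.Adj v t))))
    · intro H hH
      rw [Finset.mem_coe, hC, Finset.mem_filter, hB, almost_mem] at hH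
      rw [Finset.mem_coe, Finset.mem_product]
      constructor
      · show H ⊔ E ∈ A
        rw [hA, Finset.mem_filter, hB, almost_mem]
        refine ⟨?_, ?_, ?_⟩
        · intro t' ht'
          have hne := hT t' ht'
          have htt : t' ≠ t := fun h => ht (h ▸ ht')
          rw [hsup, hsup, hEadj, hEadj]
          have h5 := hH.1 t' ht'
          rintro ⟨h6 | h6, h7 | h7⟩
          · exact h5 ⟨h6, h7⟩
          · rcases h7.2 with h | h | h | h
            · exact htt h.2.symm
            · exact hne.1 h.1.symm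
            · exact htt h.2.symm
            · exact hne.2 h.1.symm
          · rcases h6.2 with h | h | h | h
            · exact htt h.2.symm
            · exact hne.1 h.1.symm
            · exact htt h.2.symm
            · exact hne.2 h.1.symm
          · rcases h6.2 with h | h | h | h
            · exact htt h.2.symm
            · exact hne.1 h.1.symm
            · exact htt h.2.symm
            · exact hne.2 h.1.symm
        · rw [hsup, hEadj]
          exact Or.inr ⟨hut.symm, Or.inl ⟨rfl, rfl⟩⟩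
        · rw [hsup, hEadj]
          exact Or.inr ⟨hvt.symm, Or.inr (Or.inr (Or.inl ⟨rfl, rfl⟩))⟩
      · show (decide (H.Adj u t), decide (H.Adj v t)) ∈ _
        have h5 := hH.2
        by_cases ha : H.Adj u t <;> by_cases hb : H.Adj v t <;> simp_all
    · intro H hH H' hH' heq
      simp only [Prod.mk.injEq, decide_eq_decide] at heq
      obtain ⟨h5, h6, h7⟩ := heq
      ext a b
      have h8 : (H ⊔ E).Adj a b ↔ (H' ⊔ E).Adj a b := by rw [h5]
      rw [hsup, hsup] at h8
      by_cases hEab : E.Adj a b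
      · rw [hEadj] at hEab
        rcases hEab.2 with h | h | h | h
        · rw [← h.1, ← h.2]; exact h6
        · rw [← h.1, ← h.2, SimpleGraph.adj_comm, SimpleGraph.adj_comm H']; exact h6
        · rw [← h.1, ← h.2]; exact h7
        · rw [← h.1, ← h.2, SimpleGraph.adj_comm, SimpleGraph.adj_comm H']; exact h7
      · constructor
        · intro h9
          exact (h8.1 (Or.inl h9)).resolve_right hEab
        · intro h9
          exact (h8.2 (Or.inl h9)).resolve_right hEab
  rw [Finset.card_product] at h3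
  have h4 : ({(false, false), (false, true), (true, false)} : Finset (Bool × Bool)).card = 3 := by
    decide
  rw [h4] at h3
  omega

theorem almost_pow {V : Type} [Fintype V] [DecidableEq V] (u v : V) (huv : u ≠ v) (T : Finset V)
    (hT : ∀ t' ∈ T, t' ≠ u ∧ t' ≠ v) :
    4 ^ T.card * (almostN u v T).card ≤ 3 ^ T.card * Fintype.card (SimpleGraph V) := by
  classical
  induction T using Finset.induction_on with
  | empty =>
    simp only [Finset.card_empty, pow_zero, one_mul]
    exact Finset.card_le_univ _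
  | insert t T ht ih =>
    have h1 := ih (fun t' ht' => hT t' (Finset.mem_insert_of_mem ht'))
    have h2 := almost_step u v t huv (hT t (Finset.mem_insert_self _ _)).1
      (hT t (Finset.mem_insert_self _ _)).2 T ht (fun t' ht' => hT t' (Finset.mem_insert_of_mem ht'))
    rw [Finset.card_insert_of_notMem ht, pow_succ, pow_succ]
    calc 4 ^ T.card * 4 * (almostN u v (insert t T)).card
        = 4 ^ T.card * (4 * (almostN u v (insert t T)).card) := by ring
      _ ≤ 4 ^ T.card * (3 * (almostN u v T).card) := Nat.mul_le_mul_left _ h2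
      _ = 3 * (4 ^ T.card * (almostN u v T).card) := by ring
      _ ≤ 3 * (3 ^ T.card * Fintype.card (SimpleGraph V)) := Nat.mul_le_mul_left _ h1
      _ = 3 ^ T.card * 3 * Fintype.card (SimpleGraph V) := by ring

/-- four disjoint sets of size `m` avoiding `u` and `v` -/
theorem almost_sets {V : Type} [Fintype V] [DecidableEq V] (u v : V) (m : ℕ)
    (hm : 4 * m + 2 ≤ Fintype.card V) :
    ∃ T : Fin 4 → Finset V, (∀ i, (T i).card = m) ∧ (∀ i, ∀ t ∈ T i, t ≠ u ∧ t ≠ v) ∧
      ∀ i j, i ≠ j → Disjoint (T i) (T j) := by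
  classical
  set S : Finset V := Finset.univ \ {u, v} with hS
  have hcard : 4 * m ≤ S.card := by
    have h1 : ({u, v} : Finset V).card ≤ 2 := Finset.card_le_two
    have h2 : (Finset.univ : Finset V).card - ({u, v} : Finset V).card ≤ S.card :=
      Finset.le_card_sdiff _ _
    rw [Finset.card_univ] at h2
    omega
  obtain ⟨T0, hT0, hc0⟩ := Finset.exists_subset_card_eq (show m ≤ S.card by omega)
  have hs1 : S.card - T0.card ≤ (S \ T0).card := Finset.le_card_sdiff _ _
  obtain ⟨T1, hT1, hc1⟩ := Finset.exists_subset_card_eq (show m ≤ (S \ T0).card by omega)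
  have hs2 : (S \ T0).card - T1.card ≤ ((S \ T0) \ T1).card := Finset.le_card_sdiff _ _
  obtain ⟨T2, hT2, hc2⟩ := Finset.exists_subset_card_eq (show m ≤ ((S \ T0) \ T1).card by omega)
  have hs3 : ((S \ T0) \ T1).card - T2.card ≤ (((S \ T0) \ T1) \ T2).card :=
    Finset.le_card_sdiff _ _
  obtain ⟨T3, hT3, hc3⟩ :=
    Finset.exists_subset_card_eq (show m ≤ (((S \ T0) \ T1) \ T2).card by omega)
  have hd : ∀ (X Y Z : Finset V), X ⊆ Y \ Z → Disjoint Z X := by
    intro X Y Z h
    rw [Finset.disjoint_left]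
    intro a ha ha'
    exact (Finset.mem_sdiff.1 (h ha')).2 ha
  have d01 : Disjoint T0 T1 := hd _ _ _ hT1
  have d12 : Disjoint T1 T2 := hd _ _ _ hT2
  have d23 : Disjoint T2 T3 := hd _ _ _ hT3
  have d02 : Disjoint T0 T2 := hd T2 S T0 (hT2.trans Finset.sdiff_subset)
  have d03 : Disjoint T0 T3 := hd T3 S T0 ((hT3.trans Finset.sdiff_subset).trans Finset.sdiff_subset)
  have d13 : Disjoint T1 T3 := hd T3 (S \ T0) T1 (hT3.trans Finset.sdiff_subset)
  have hS' : ∀ t ∈ S, t ≠ u ∧ t ≠ v := by
    intro t ht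
    rw [hS, Finset.mem_sdiff, Finset.mem_insert, Finset.mem_singleton] at ht
    tauto
  have e1 : T1 ⊆ S := hT1.trans Finset.sdiff_subset
  have e2 : T2 ⊆ S := (hT2.trans Finset.sdiff_subset).trans Finset.sdiff_subset
  have e3 : T3 ⊆ S :=
    ((hT3.trans Finset.sdiff_subset).trans Finset.sdiff_subset).trans Finset.sdiff_subset
  refine ⟨![T0, T1, T2, T3], ?_, ?_, ?_⟩
  · intro i
    fin_cases i
    · exact hc0
    · exact hc1
    · exact hc2
    · exact hc3
  · intro i t ht
    fin_cases i
    · exact hS' t (hT0 ht)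
    · exact hS' t (e1 ht)
    · exact hS' t (e2 ht)
    · exact hS' t (e3 ht)
  · intro i j hij
    fin_cases i <;> fin_cases j <;> first
      | exact absurd rfl hij
      | exact d01
      | exact d02
      | exact d03
      | exact d12
      | exact d13
      | exact d23
      | exact d01.symm
      | exact d02.symm
      | exact d03.symm
      | exact d12.symm
      | exact d13.symm
      | exact d23.symm

/-- a graph that is not rich has an empty block for some pair -/
theorem almost_cover {V : Type} [Fintype V] [DecidableEq V] (T : V → V → Fin 4 → Finset V)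
    (hT : ∀ u v, ∀ i j, i ≠ j → Disjoint (T u v i) (T u v j)) (H : SimpleGraph V) (hH : ¬ Rich H) :
    ∃ u v, ∃ i, u ≠ v ∧ H ∈ almostN u v (T u v i) := by
  classical
  unfold Rich at hH
  push Not at hH
  obtain ⟨u, v, huv, hlt⟩ := hH
  by_contra hcon
  push Not at hcon
  have h1 : ∀ i, ∃ t ∈ T u v i, H.Adj u t ∧ H.Adj v t := by
    intro i
    have h2 := hcon u v i huv
    rw [almost_mem] at h2
    push Not at h2
    exact h2
  choose t ht1 ht2 using h1
  have hinj : Function.Injective t := by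
    intro i j hij
    by_contra hne
    have := Finset.disjoint_left.1 (hT u v i j hne) (ht1 i)
    rw [hij] at this
    exact this (ht1 j)
  have h3 : Set.range t ⊆ H.commonNeighbors u v := by
    rintro _ ⟨i, rfl⟩
    rw [SimpleGraph.mem_commonNeighbors]
    exact ht2 i
  have h4 : (Set.range t).ncard ≤ (H.commonNeighbors u v).ncard :=
    Set.ncard_le_ncard h3 (Set.toFinite _)
  have h5 : (Set.range t).ncard = 4 := by
    rw [← Set.image_univ, Set.ncard_image_of_injective _ hinj, Set.ncard_univ]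
    simp
  omega

theorem almost_bound (n m : ℕ) (hm : 4 * m + 2 ≤ n) :
    4 ^ m * {H : SimpleGraph (Fin n) | ¬ Rich H}.ncard
      ≤ 4 * n ^ 2 * 3 ^ m * Nat.card (SimpleGraph (Fin n)) := by
  classical
  have hsets := fun u v : Fin n => almost_sets u v m (by rw [Fintype.card_fin]; exact hm)
  choose T hT1 hT2 hT3 using hsets
  have hsub : {H : SimpleGraph (Fin n) | ¬ Rich H} ⊆
      ((Finset.univ : Finset ((Fin n × Fin n) × Fin 4)).filter (fun p => p.1.1 ≠ p.1.2)).biUnion
        (fun p => almostN p.1.1 p.1.2 (T p.1.1 p.1.2 p.2)) := by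
    intro H hH
    obtain ⟨u, v, i, huv, hmem⟩ := almost_cover T hT3 H hH
    rw [Finset.mem_coe, Finset.mem_biUnion]
    exact ⟨((u, v), i), Finset.mem_filter.2 ⟨Finset.mem_univ _, huv⟩, hmem⟩
  have h1 : {H : SimpleGraph (Fin n) | ¬ Rich H}.ncard ≤
      (((Finset.univ : Finset ((Fin n × Fin n) × Fin 4)).filter (fun p => p.1.1 ≠ p.1.2)).biUnion
        (fun p => almostN p.1.1 p.1.2 (T p.1.1 p.1.2 p.2))).card := by
    rw [← Set.ncard_coe_finset]
    exact Set.ncard_le_ncard hsub (Set.toFinite _)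
  have h2 := h1.trans Finset.card_biUnion_le
  calc 4 ^ m * {H : SimpleGraph (Fin n) | ¬ Rich H}.ncard
      ≤ 4 ^ m * ∑ p ∈ (Finset.univ : Finset ((Fin n × Fin n) × Fin 4)).filter
          (fun p => p.1.1 ≠ p.1.2), (almostN p.1.1 p.1.2 (T p.1.1 p.1.2 p.2)).card :=
        Nat.mul_le_mul_left _ h2
    _ = ∑ p ∈ (Finset.univ : Finset ((Fin n × Fin n) × Fin 4)).filter
          (fun p => p.1.1 ≠ p.1.2), 4 ^ m * (almostN p.1.1 p.1.2 (T p.1.1 p.1.2 p.2)).card := by
        rw [Finset.mul_sum]
    _ ≤ ∑ p ∈ (Finset.univ : Finset ((Fin n × Fin n) × Fin 4)).filter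
          (fun p => p.1.1 ≠ p.1.2), 3 ^ m * Nat.card (SimpleGraph (Fin n)) := by
        refine Finset.sum_le_sum (fun p hp => ?_)
        rw [Finset.mem_filter] at hp
        have h3 := almost_pow p.1.1 p.1.2 hp.2 (T p.1.1 p.1.2 p.2) (hT2 p.1.1 p.1.2 p.2)
        rw [hT1] at h3
        rw [Nat.card_eq_fintype_card]
        exact h3
    _ ≤ ∑ _p : (Fin n × Fin n) × Fin 4, 3 ^ m * Nat.card (SimpleGraph (Fin n)) :=
        Finset.sum_le_sum_of_subset (Finset.filter_subset _ _)
    _ = 4 * n ^ 2 * 3 ^ m * Nat.card (SimpleGraph (Fin n)) := by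
        rw [Finset.sum_const, Finset.card_univ, smul_eq_mul, Fintype.card_prod, Fintype.card_prod,
          Fintype.card_fin, Fintype.card_fin]
        ring

end count

theorem almost_rich :
    Tendsto (fun n : ℕ => ({H : SimpleGraph (Fin n) | Rich H}.ncard : ℝ) /
      (Nat.card (SimpleGraph (Fin n)) : ℝ)) atTop (𝓝 1) := by
  have hpos : ∀ n : ℕ, (0 : ℝ) < (Nat.card (SimpleGraph (Fin n)) : ℝ) := by
    intro n
    exact_mod_cast Nat.card_pos
  have hsum : ∀ n : ℕ, {H : SimpleGraph (Fin n) | Rich H}.ncard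
      + {H : SimpleGraph (Fin n) | ¬ Rich H}.ncard = Nat.card (SimpleGraph (Fin n)) := by
    intro n
    have h := Set.ncard_add_ncard_compl {H : SimpleGraph (Fin n) | Rich H}
    exact h
  set F : ℕ → ℝ := fun m => 4 * (4 * (m : ℝ) + 6) ^ 2 * (3 / 4) ^ m with hF
  have hFlim : Tendsto F atTop (𝓝 0) := by
    have h0 := tendsto_pow_const_mul_const_pow_of_abs_lt_one 0 (r := (3 / 4 : ℝ))
      (by rw [abs_of_pos] <;> norm_num)
    have h1 := tendsto_pow_const_mul_const_pow_of_abs_lt_one 1 (r := (3 / 4 : ℝ))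
      (by rw [abs_of_pos] <;> norm_num)
    have h2 := tendsto_pow_const_mul_const_pow_of_abs_lt_one 2 (r := (3 / 4 : ℝ))
      (by rw [abs_of_pos] <;> norm_num)
    have h3 := ((h2.const_mul 64).add (h1.const_mul 192)).add (h0.const_mul 144)
    simp only [mul_zero, add_zero] at h3
    refine h3.congr (fun m => ?_)
    simp only [hF]
    ring
  have hmlim : Tendsto (fun n : ℕ => (n - 2) / 4) atTop atTop := by
    rw [tendsto_atTop]
    intro b
    filter_upwards [eventually_ge_atTop (4 * b + 2)] with n hn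
    omega
  have hcomp := hFlim.comp hmlim
  have hlow : Tendsto (fun n : ℕ => 1 - F ((n - 2) / 4)) atTop (𝓝 1) := by
    have := hcomp.const_sub 1
    simp only [sub_zero] at this
    exact this
  refine tendsto_of_tendsto_of_tendsto_of_le_of_le' hlow tendsto_const_nhds ?_ ?_
  · filter_upwards [eventually_ge_atTop 2] with n hn
    set m := (n - 2) / 4 with hm
    have h1 := almost_bound n m (by omega)
    have h2 : (4 : ℝ) ^ m * ({H : SimpleGraph (Fin n) | ¬ Rich H}.ncard : ℝ)
        ≤ 4 * n ^ 2 * 3 ^ m * (Nat.card (SimpleGraph (Fin n)) : ℝ) := by exact_mod_cast h1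
    have h3 : (n : ℝ) ≤ 4 * m + 6 := by
      have : n ≤ 4 * m + 6 := by omega
      exact_mod_cast this
    have h4 : ({H : SimpleGraph (Fin n) | Rich H}.ncard : ℝ)
      + ({H : SimpleGraph (Fin n) | ¬ Rich H}.ncard : ℝ) = (Nat.card (SimpleGraph (Fin n)) : ℝ) := by
      exact_mod_cast hsum n
    have h5 : ({H : SimpleGraph (Fin n) | ¬ Rich H}.ncard : ℝ)
        ≤ F m * (Nat.card (SimpleGraph (Fin n)) : ℝ) := by
      have h6 : (0 : ℝ) < 4 ^ m := by positivity
      have h7 : (4 : ℝ) ^ m * (F m * (Nat.card (SimpleGraph (Fin n)) : ℝ))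
          = 4 * (4 * (m : ℝ) + 6) ^ 2 * 3 ^ m * (Nat.card (SimpleGraph (Fin n)) : ℝ) := by
        simp only [hF]
        rw [div_pow]
        field_simp
      have h8 : (4 : ℝ) * n ^ 2 * 3 ^ m * (Nat.card (SimpleGraph (Fin n)) : ℝ)
          ≤ 4 * (4 * (m : ℝ) + 6) ^ 2 * 3 ^ m * (Nat.card (SimpleGraph (Fin n)) : ℝ) := by
        have h9 : (n : ℝ) ^ 2 ≤ (4 * (m : ℝ) + 6) ^ 2 :=
          pow_le_pow_left₀ (Nat.cast_nonneg n) h3 2
        have h10 := (hpos n).le
        gcongr
      have h11 : (4 : ℝ) ^ m * ({H : SimpleGraph (Fin n) | ¬ Rich H}.ncard : ℝ)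
          ≤ 4 ^ m * (F m * (Nat.card (SimpleGraph (Fin n)) : ℝ)) := by
        rw [h7]
        exact h2.trans h8
      exact le_of_mul_le_mul_left h11 h6
    rw [le_div_iff₀ (hpos n)]
    linarith
  · filter_upwards with n
    rw [div_le_one (hpos n)]
    have h4 : ({H : SimpleGraph (Fin n) | Rich H}.ncard : ℝ)
      + ({H : SimpleGraph (Fin n) | ¬ Rich H}.ncard : ℝ) = (Nat.card (SimpleGraph (Fin n)) : ℝ) := by
      exact_mod_cast hsum n
    have h5 : (0 : ℝ) ≤ ({H : SimpleGraph (Fin n) | ¬ Rich H}.ncard : ℝ) := Nat.cast_nonneg _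
    linarith

end Pool.Agent.LIH
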