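import Pool.Agent.LIH.Net

/-!
# Rich graphs have frames

Proof. Choose `x ≠ y` with `p x = p y` and distinct common neighbours `c 0, c 1, c 2` of `x` and
`y` (at least four exist).
Tightness of the star `(z, S)` where `S` has at most three elements, all adjacent to `z`: let `g` be
locally injective on `H` minus the star (`C`) and `u ≠ v`.
* If `p u = p v`: `u` and `v` have at least 4 common neighbours `t` in `H`; if one of them has
  neither `t u` nor `t v` cut, then `g u ≠ g v` by local injectivity at `t`. The cut edges are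
  `z s`, `s ∈ S`. If `u = z` (or `v = z`), `t u` is cut only if `t ∈ S`, and `t v` is cut only if
  `t = z` or `v = z`, which is not the case (`v ≠ u = z`, and `t = z = u` is impossible): at most
  3 common neighbours are lost. If `z ∉ {u, v}`: `t u` or `t v` cut implies `t = z`: at most 1 lost.
* If `p u ≠ p v` (then `p` is a proper colouring): as `g` maps adjacent (in `C`) vertices to
  adjacent ones, `p (g a) ≠ p (g b)` for `a b` adjacent in `C`. `v` has a neighbour `t` in `C`
  (`v` has degree at least 4 because there is `v' ≠ v` with `p v' = p v` - see below - and at most 3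
  edges are cut). `p t = p u`. If `t = u`: `p (g u) ≠ p (g v)`. Otherwise by the first case `t` and
  `u` have a common neighbour `b` in `C`, and `u b t v` is a walk of length 3 in `C`, so
  `p (g u) ≠ p (g v)` (Bool has two elements). So `g u ≠ g v`.
In the bipartite case with at least three vertices both parts have at least 4 vertices: some part
has two vertices (pigeonhole), their common neighbours lie in the other part, which therefore has at
least 4 vertices, and then so does the first.
-/

namespace Pool.Agent.LIH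

theorem frameof_cut_symm {V : Type*} {z : V} {S : V → Prop} {u v : V} (h : ¬ Cut z S u v) :
    ¬ Cut z S v u := by
  unfold Cut at *
  tauto

/-- two distinct vertices of the same class have a common neighbour after removal of a star -/
theorem frameof_common {V : Type*} [Finite V] {H : SimpleGraph V} {α : Type*} (p : V → α)
    (h : ∀ u v, u ≠ v → p u = p v → 4 ≤ (H.commonNeighbors u v).ncard) (z : V) (S : V → Prop)
    (T : Set V) (hT : T.ncard ≤ 3) (hST : ∀ s, S s → s ∈ T) (u v : V) (huv : u ≠ v)
    (hp : p u = p v) :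
    ∃ t, H.Adj u t ∧ H.Adj v t ∧ ¬ Cut z S u t ∧ ¬ Cut z S v t := by
  have h4 := h u v huv hp
  by_cases hz : u = z ∨ v = z
  · obtain ⟨t, ht, htT⟩ : ∃ t ∈ H.commonNeighbors u v, t ∉ T := by
      by_contra hcon
      push Not at hcon
      have := Set.ncard_le_ncard (s := H.commonNeighbors u v) (t := T) hcon (Set.toFinite T)
      omega
    rw [SimpleGraph.mem_commonNeighbors] at ht
    have hS : ¬ S t := fun hs => htT (hST t hs)
    have htz : t ≠ z := by
      rintro rfl
      rcases hz with rfl | rfl
      · exact ht.1.ne rfl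
      · exact ht.2.ne rfl
    refine ⟨t, ht.1, ht.2, ?_, ?_⟩
    · rintro (⟨-, h1⟩ | ⟨h1, -⟩)
      · exact hS h1
      · exact htz h1
    · rintro (⟨-, h1⟩ | ⟨h1, -⟩)
      · exact hS h1
      · exact htz h1
  · push Not at hz
    obtain ⟨t, ht, htz⟩ : ∃ t ∈ H.commonNeighbors u v, t ∉ ({z} : Set V) := by
      by_contra hcon
      push Not at hcon
      have := Set.ncard_le_ncard (s := H.commonNeighbors u v) (t := {z}) hcon (Set.toFinite _)
      rw [Set.ncard_singleton] at this
      omega
    rw [SimpleGraph.mem_commonNeighbors] at ht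
    have htz' : t ≠ z := htz
    refine ⟨t, ht.1, ht.2, ?_, ?_⟩
    · rintro (⟨h1, -⟩ | ⟨h1, -⟩)
      · exact hz.1 h1
      · exact htz' h1
    · rintro (⟨h1, -⟩ | ⟨h1, -⟩)
      · exact hz.2 h1
      · exact htz' h1

theorem frameof_ne {V : Type*} [Finite V] {H : SimpleGraph V} {α : Type*} (p : V → α)
    (h : ∀ u v, u ≠ v → p u = p v → 4 ≤ (H.commonNeighbors u v).ncard) (z : V) (S : V → Prop)
    (T : Set V) (hT : T.ncard ≤ 3) (hST : ∀ s, S s → s ∈ T) (g : V → V)
    (hg : ∀ u v w, H.Adj u v → ¬ Cut z S u v → H.Adj u w → ¬ Cut z S u w → g v = g w → v = w)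
    (u v : V) (huv : u ≠ v) (hp : p u = p v) : g u ≠ g v := by
  obtain ⟨t, h1, h2, h3, h4⟩ := frameof_common p h z S T hT hST u v huv hp
  intro hgu
  exact huv (hg t u v h1.symm (frameof_cut_symm h3) h2.symm (frameof_cut_symm h4) hgu)

theorem frameof_tight {V : Type*} [Finite V] {H : SimpleGraph V} (h : Rich H) (z : V)
    (S : V → Prop) (T : Set V) (hT : T.ncard ≤ 3) (hST : ∀ s, S s → s ∈ T) : Tight H z S := by
  intro g _ hg u v huv
  by_contra hne
  exact frameof_ne (fun _ => ()) (fun a b hab _ => h a b hab) z S T hT hST g hg u v hne rfl huv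

theorem frameof_tight_bip {V : Type*} [Finite V] {H : SimpleGraph V} (p : V → Bool)
    (hp : ∀ u v, H.Adj u v → p u ≠ p v)
    (h : ∀ u v, u ≠ v → p u = p v → 4 ≤ (H.commonNeighbors u v).ncard)
    (h2 : ∀ v, ∃ v', v' ≠ v ∧ p v' = p v) (z : V)
    (S : V → Prop) (T : Set V) (hT : T.ncard ≤ 3) (hST : ∀ s, S s → s ∈ T) : Tight H z S := by
  intro g hhom hg u v huv
  by_contra hne
  by_cases hpuv : p u = p v
  · exact frameof_ne p h z S T hT hST g hg u v hne hpuv huv
  obtain ⟨v', hv', hpv'⟩ := h2 v
  obtain ⟨t, h3, -, h4, -⟩ := frameof_common p h z S T hT hST v v' hv'.symm hpv'.symm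
  have hgvt : p (g v) ≠ p (g t) := hp _ _ (hhom v t h3 h4)
  have hpvt : p v ≠ p t := hp _ _ h3
  by_cases htu : t = u
  · subst htu
    exact hgvt (by rw [huv])
  have hptu : p t = p u := by
    revert hpvt hpuv
    cases p u <;> cases p v <;> cases p t <;> simp
  obtain ⟨b, h5, h6, h7, h8⟩ := frameof_common p h z S T hT hST t u htu hptu
  have h9 : p (g t) ≠ p (g b) := hp _ _ (hhom t b h5 h7)
  have h10 : p (g u) ≠ p (g b) := hp _ _ (hhom u b h6 h8)
  rw [huv] at h10
  revert hgvt h9 h10
  cases p (g v) <;> cases p (g t) <;> cases p (g b) <;> simp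

theorem frameof_three {V : Type*} [Finite V] (s : Set V) (hs : 4 ≤ s.ncard) :
    ∃ c : Fin 3 → V, Function.Injective c ∧ ∀ i, c i ∈ s := by
  classical
  have _ : Fintype V := Fintype.ofFinite V
  have h1 : Fintype.card (Fin 3) ≤ Fintype.card s := by
    rw [Fintype.card_fin, ← Nat.card_eq_fintype_card, Nat.card_coe_set_eq]
    omega
  obtain ⟨e⟩ := Function.Embedding.nonempty_of_card_le h1
  exact ⟨fun i => (e i : V), fun i j hij => e.injective (Subtype.ext hij), fun i => (e i).2⟩

theorem frameof_frame {V : Type*} [Finite V] {H : SimpleGraph V}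
    (ht : ∀ (z : V) (S : V → Prop) (T : Set V), T.ncard ≤ 3 → (∀ s, S s → s ∈ T) → Tight H z S)
    (x y : V) (hxy : x ≠ y) (h4 : 4 ≤ (H.commonNeighbors x y).ncard) :
    ∃ (x y : V) (c : Fin 3 → V), Frame H x y c := by
  obtain ⟨c, hc, hcs⟩ := frameof_three _ h4
  have hr : (Set.range c).ncard ≤ 3 := by
    have := Set.ncard_image_le (s := (Set.univ : Set (Fin 3))) (f := c)
    rw [Set.image_univ, Set.ncard_univ, Nat.card_eq_fintype_card, Fintype.card_fin] at this
    exact this
  refine ⟨x, y, c, ⟨hxy, hc, fun i => (hcs i).1, fun i => (hcs i).2, ?_, ?_, ?_⟩⟩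
  · intro S
    exact ht x _ (Set.range c) hr (by rintro s ⟨i, -, rfl⟩; exact ⟨i, rfl⟩)
  · intro S
    exact ht y _ (Set.range c) hr (by rintro s ⟨i, -, rfl⟩; exact ⟨i, rfl⟩)
  · intro i
    refine ht (c i) _ {x, y} ?_ (by rintro s (rfl | rfl) <;> simp)
    rw [Set.ncard_pair hxy]
    norm_num

theorem frame_of_rich {V : Type*} [Finite V] {H : SimpleGraph V} [Nontrivial V] (h : Rich H) :
    ∃ (x y : V) (c : Fin 3 → V), Frame H x y c := by
  obtain ⟨x, y, hxy⟩ := exists_pair_ne V
  exact frameof_frame (fun z S T hT hS => frameof_tight h z S T hT hS) x y hxy (h x y hxy)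

theorem frameof_other {V : Type*} [Finite V] (s : Set V) (hs : 4 ≤ s.ncard) (v : V) :
    ∃ w ∈ s, w ≠ v := by
  by_contra hcon
  push Not at hcon
  have := Set.ncard_le_ncard (s := s) (t := {v}) hcon (Set.toFinite _)
  rw [Set.ncard_singleton] at this
  omega

theorem frame_of_richBip {V : Type*} [Finite V] {H : SimpleGraph V} (h3 : 3 ≤ Nat.card V)
    (h : RichBip H) : ∃ (x y : V) (c : Fin 3 → V), Frame H x y c := by
  obtain ⟨p, hp, h4⟩ := h
  have _ : Fintype V := Fintype.ofFinite V
  obtain ⟨a, b, hab, hpab⟩ : ∃ a b : V, a ≠ b ∧ p a = p b := by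
    apply Fintype.exists_ne_map_eq_of_card_lt p
    rw [← Nat.card_eq_fintype_card (α := V)]
    simp only [Fintype.card_bool]
    omega
  have hN := h4 a b hab hpab
  have hNp : ∀ w ∈ H.commonNeighbors a b, p w ≠ p a := fun w hw => (hp _ _ hw.1).symm
  obtain ⟨e, he, -⟩ := frameof_other _ hN a
  obtain ⟨f, hf, hfe⟩ := frameof_other _ hN e
  have hpef : p f = p e := by
    have h5 := hNp e he
    have h6 := hNp f hf
    revert h5 h6
    cases p a <;> cases p e <;> cases p f <;> simp
  have hM := h4 f e hfe hpef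
  have hMp : ∀ w ∈ H.commonNeighbors f e, p w = p a := by
    intro w hw
    have h5 := hNp e he
    have h6 := hp _ _ hw.2
    revert h5 h6
    cases p a <;> cases p e <;> cases p w <;> simp
  have h2 : ∀ v, ∃ v', v' ≠ v ∧ p v' = p v := by
    intro v
    by_cases hv : p v = p a
    · obtain ⟨w, hw, hwv⟩ := frameof_other _ hM v
      exact ⟨w, hwv, (hMp w hw).trans hv.symm⟩
    · obtain ⟨w, hw, hwv⟩ := frameof_other _ hN v
      refine ⟨w, hwv, ?_⟩
      have h5 := hNp w hw
      revert h5 hv
      cases p a <;> cases p v <;> cases p w <;> simp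
  exact frameof_frame (fun z S T hT hS => frameof_tight_bip p hp h4 h2 z S T hT hS) a b hab hN

end Pool.Agent.LIH
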