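import Pool.Agent.LIH.Hard
import Pool.Agent.LIH.Member
import Pool.Agent.LIH.FrameOf
import Pool.Agent.LIH.Almost

/-!
# Final results
-/

namespace Pool.Agent.LIH

open NPC Filter Topology

theorem npc_of_frame {h : ℕ} {H : SimpleGraph (Fin h)} {x y : Fin h} {c : Fin 3 → Fin h}
    (hF : Frame H x y c) : NPComplete (LIHOM H) :=
  ⟨lihom_mem_np H, fun _ hL => reduces_lihom hF hL⟩

/-- `H`-LIHOM is NP-complete if every two distinct vertices of `H` have at least four common
neighbours. -/
theorem npc_of_rich {h : ℕ} (h2 : 2 ≤ h) {H : SimpleGraph (Fin h)} (hH : Rich H) :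
    NPComplete (LIHOM H) := by
  haveI : Nontrivial (Fin h) := Fin.nontrivial_iff_two_le.2 h2
  obtain ⟨x, y, c, hF⟩ := frame_of_rich hH
  exact npc_of_frame hF

/-- `H`-LIHOM is NP-complete if `H` is bipartite with at least three vertices and every two distinct
vertices in the same part have at least four common neighbours. -/
theorem npc_of_richBip {h : ℕ} (h3 : 3 ≤ h) {H : SimpleGraph (Fin h)} (hH : RichBip H) :
    NPComplete (LIHOM H) := by
  obtain ⟨x, y, c, hF⟩ := frame_of_richBip (by simpa using h3) hH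
  exact npc_of_frame hF

theorem npc_of_rich4 {h : ℕ} (h3 : 3 ≤ h) {H : SimpleGraph (Fin h)} (hH : Rich4 H) :
    NPComplete (LIHOM H) := by
  rcases hH with hH | hH
  · exact npc_of_rich (by omega) hH
  · exact npc_of_richBip h3 hH

theorem almost_rich4 :
    Tendsto (fun n : ℕ => ({H : SimpleGraph (Fin n) | Rich4 H}.ncard : ℝ) /
      (Nat.card (SimpleGraph (Fin n)) : ℝ)) atTop (𝓝 1) := by
  refine tendsto_of_tendsto_of_tendsto_of_le_of_le' almost_rich tendsto_const_nhds ?_ ?_
  · filter_upwards with n
    apply div_le_div_of_nonneg_right _ (Nat.cast_nonneg _)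
    exact_mod_cast Set.ncard_le_ncard (fun H hH => Or.inl hH) (Set.toFinite _)
  · filter_upwards with n
    apply div_le_one_of_le₀ _ (Nat.cast_nonneg _)
    exact_mod_cast Set.ncard_le_card _

end Pool.Agent.LIH
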