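import Pool.Agent.LIH.Defs

/-!
# Networks and their graphs

A network consists of nodes `k < K` of two types (`side k = true`: x-type, otherwise y-type), each
with a palette `pal k` of colours in `Fin 3` and one port `(k, i)` for every colour `i` of its
palette; some ports of x-type nodes are linked to ports of y-type nodes. A solution colours the
ports of each node bijectively by the palette of the node, linked ports having equal colours.

The graph of a network, for a graph `H` with vertices `x ≠ y` and common neighbours `c 0, c 1, c 2`: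
for each node `k` there are four copies of `H` with a star removed (number `0`: centre `x` or `y`,
leaves `c i` for the palette; number `i + 1`: centre `c i`, leaves `x, y`), and three further
vertices for each copy (`Sum.inr`).
-/

namespace Pool.Agent.LIH

open Sum

/-- Networks. -/
structure Net where
  /-- number of nodes -/
  K : ℕ
  /-- `true` for x-type nodes -/
  side : ℕ → Bool
  /-- palettes -/
  pal : ℕ → Fin 3 → Prop
  /-- `link k i l j`: the port `(k, i)`, of an x-type node, is linked to the port `(l, j)`, of a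
  y-type node -/
  link : ℕ → Fin 3 → ℕ → Fin 3 → Prop
  two_le : 2 ≤ K
  full : ∃ k < K, ∀ i, pal k i
  link_dom : ∀ k i l j, link k i l j →
    k < K ∧ l < K ∧ side k = true ∧ side l = false ∧ pal k i ∧ pal l j
  link_fun : ∀ k i l j l' j', link k i l j → link k i l' j' → l = l' ∧ j = j'
  link_inj : ∀ k i k' i' l j, link k i l j → link k' i' l j → k = k' ∧ i = i'

/-- Solutions of a network. -/
structure Net.Sol (N : Net) (col : ℕ → Fin 3 → Fin 3) : Prop where
  mem : ∀ k < N.K, ∀ i, N.pal k i → N.pal k (col k i)
  inj : ∀ k < N.K, ∀ i j, N.pal k i → N.pal k j → col k i = col k j → i = j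
  link : ∀ k i l j, N.link k i l j → col k i = col l j

/-- the next node, cyclically -/
def nxt (K k : ℕ) : ℕ := if k + 1 < K then k + 1 else 0

/-- Positions in the four copies and the additional vertices belonging to a node. -/
abbrev Site (V : Type*) := Fin 4 × (V ⊕ Fin 3)

section
variable {V : Type*} (K : ℕ) (side : ℕ → Bool) (pal : ℕ → Fin 3 → Prop)
  (link : ℕ → Fin 3 → ℕ → Fin 3 → Prop) (H : SimpleGraph V) (x y : V) (c : Fin 3 → V)

/-- centre of the copy of a node -/
def ctr (k : ℕ) : V := if side k = true then x else y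

/-- the other one of `x`, `y` -/
def oth (k : ℕ) : V := if side k = true then y else x

/-- leaves of the copy of a node -/
def leaf (k : ℕ) (v : V) : Prop := ∃ i, pal k i ∧ v = c i

/-- Half of the adjacency relation of the graph of a network. -/
def Half (k l : ℕ) (s t : Site V) : Prop :=
  -- the copy of the node
  (∃ u v, s = (0, inl u) ∧ t = (0, inl v) ∧ k = l ∧ H.Adj u v ∧
    ¬ Cut (ctr side x y k) (leaf pal c k) u v) ∨
  -- the copies with centre `c i`
  (∃ (i : Fin 3) (u v : V), s = (i.succ, inl u) ∧ t = (i.succ, inl v) ∧ k = l ∧ H.Adj u v ∧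
    ¬ Cut (c i) (fun w => w = x ∨ w = y) u v) ∨
  -- the vertex of a port and the centre of its node
  (∃ i : Fin 3, s = (0, inr i) ∧ t = (0, inl (ctr side x y k)) ∧ k = l ∧ pal k i ∧
    (side k = true ∨ ∀ k' j, ¬ link k' j k i)) ∨
  -- links
  (∃ i j : Fin 3, s = (0, inr i) ∧ t = (0, inl y) ∧ link k i l j) ∨
  -- node and copy with centre `c i`
  (∃ i : Fin 3, s = (0, inl (c i)) ∧ t = (i.succ, inl (ctr side x y k)) ∧ k = l ∧ pal k i) ∨
  -- chain of the copies with centre `c i`
  (∃ i : Fin 3, s = (i.succ, inl (c i)) ∧ t = (i.succ, inl (oth side x y l)) ∧ l = nxt K k) ∨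
  -- pendant vertices
  (∃ i : Fin 3, s = (i.succ, inr 0) ∧ t = (i.succ, inl (c i)) ∧ k = l) ∨
  (∃ i : Fin 3, s = (i.succ, inr 1) ∧ t = (i.succ, inl (ctr side x y k)) ∧ k = l ∧ ¬ pal k i)

/-- The graph of a network. -/
def netG (N : Net) : SimpleGraph (Fin N.K × Site V) :=
  SimpleGraph.fromRel (fun a b => Half N.K N.side N.pal N.link H x y c a.1 b.1 a.2 b.2)

/-- The assumptions on `H`. -/
structure Frame : Prop where
  ne : x ≠ y
  inj : Function.Injective c
  adjx : ∀ i, H.Adj x (c i)
  adjy : ∀ i, H.Adj y (c i)
  tx : ∀ S : Fin 3 → Prop, Tight H x (fun v => ∃ i, S i ∧ v = c i)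
  ty : ∀ S : Fin 3 → Prop, Tight H y (fun v => ∃ i, S i ∧ v = c i)
  tc : ∀ i, Tight H (c i) (fun v => v = x ∨ v = y)

end

end Pool.Agent.LIH
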